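import Pool.Agent.TH160.TowP.Full

/-!
# The complex theorem
-/

set_option autoImplicit false

namespace Pool.Agent.TH160.TowP

open Finset Polynomial
open Pool.Agent.W254.Ab (QA mem_QA)
open Pool.Agent.W254.PA (Hyp)
open Pool.Agent.H301R2.SSE (Lt Lt_log)
open Pool.Agent.TH681.QC (er)

theorem hyp_lt : Hyp (k := QA ℂ) Lt := by
  intro d l x a hx ha hxa hcol
  simpa using Pool.Agent.W254.HP.hyperplane' (κ := Fin l) d x a hx ha hxa hcol

/-- the logarithm of a positive integer -/
noncomputable def lg (n : ℕ) : ℂ := ((Real.log n : ℝ) : ℂ)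

/-- the function `n ^ c` -/
noncomputable def pw (c : ℂ) (n : ℕ) : ℂ := Complex.exp (c * lg n)

theorem exp_lg {n : ℕ} (hn : 0 < n) : Complex.exp (lg n) = n := by
  have : (0 : ℝ) < n := by exact_mod_cast hn
  rw [lg, ← Complex.ofReal_exp, Real.exp_log this, Complex.ofReal_natCast]

theorem lg_mul {m n : ℕ} (hm : 0 < m) (hn : 0 < n) : lg (m * n) = lg m + lg n := by
  have h1 : (m : ℝ) ≠ 0 := by exact_mod_cast hm.ne'
  have h2 : (n : ℝ) ≠ 0 := by exact_mod_cast hn.ne'
  rw [lg, lg, lg, Nat.cast_mul, Real.log_mul h1 h2, Complex.ofReal_add]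

theorem pw_mul (c : ℂ) {m n : ℕ} (hm : 0 < m) (hn : 0 < n) : pw c (m * n) = pw c m * pw c n := by
  rw [pw, pw, pw, lg_mul hm hn, mul_add, Complex.exp_add]

theorem pw_ne (c : ℂ) (n : ℕ) : pw c n ≠ 0 := Complex.exp_ne_zero _

theorem pw_div (c : ℂ) (a b : ℕ) : pw c b / pw c a = Complex.exp (c * (lg b - lg a)) := by
  rw [pw, pw, ← Complex.exp_sub, mul_sub]

theorem exp_sub_lg {a b : ℕ} (ha : 0 < a) (hb : 0 < b) :
    Complex.exp (lg b - lg a) = (b : ℂ) / (a : ℂ) := by
  rw [Complex.exp_sub, exp_lg ha, exp_lg hb]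

theorem alg_sub_lg {a b : ℕ} (ha : 0 < a) (hb : 0 < b) :
    IsAlgebraic ℚ (Complex.exp (lg b - lg a)) := by
  rw [exp_sub_lg ha hb]
  exact AD (isAlgebraic_natCast b) (isAlgebraic_natCast a)

theorem lg_inj {a b : ℕ} (ha : 0 < a) (hb : 0 < b) (hab : a ≠ b) : lg b ≠ lg a := by
  intro h
  have h1 := congrArg Complex.exp h
  rw [exp_lg ha, exp_lg hb] at h1
  exact hab (by exact_mod_cast h1.symm)

theorem pw_alg (r : ℚ) {n : ℕ} (hn : 0 < n) : IsAlgebraic ℚ (pw (r : ℂ) n) := by
  apply IsAlgebraic.of_pow (n := r.den) r.den_pos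
  have h1 : pw (r : ℂ) n ^ r.den = (n : ℂ) ^ r.num := by
    rw [pw, ← Complex.exp_nat_mul, ← exp_lg hn, ← Complex.exp_int_mul]
    congr 1
    have h2 : (r : ℂ) = (r.num : ℂ) / (r.den : ℂ) := Rat.cast_def r
    have h3 : (r.den : ℂ) ≠ 0 := by exact_mod_cast r.den_nz
    rw [h2]
    field_simp
  rw [h1]
  have hp1 : IsAlgebraic ℚ (n : ℂ) := isAlgebraic_natCast n
  rcases Int.eq_nat_or_neg r.num with ⟨k, h | h⟩
  · rw [h, zpow_natCast]; exact hp1.pow k
  · rw [h, zpow_neg, zpow_natCast]; exact (hp1.pow k).inv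

theorem ind3_c (a b : Fin 3 → ℕ) (ha : ∀ i, (a i).Prime) (hb : ∀ i, (b i).Prime)
    (hinj : Function.Injective (Sum.elim a b)) :
    Ind3 (lg (b 0) - lg (a 0)) (lg (b 1) - lg (a 1)) (lg (b 2) - lg (a 2)) := by
  intro u v w hu hv hw hs
  have h := Pool.Agent.TH160.Tow.quot_indep a b ha hb hinj ![u, v, w] (by
    intro i
    fin_cases i
    · exact hu
    · exact hv
    · exact hw) (by
    rw [Fin.sum_univ_three]
    simp only [Matrix.cons_val_zero, Matrix.cons_val_one, Matrix.cons_val, Complex.ofReal_sub]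
    exact hs)
  exact ⟨h 0, h 1, h 2⟩

open Classical in
/-- at most two directions with algebraic quotient -/
theorem alg_le_c {c : ℂ} (hci : ∀ r : ℚ, c ≠ r) {r : ℕ} (a b : Fin r → ℕ)
    (ha : ∀ i, (a i).Prime) (hb : ∀ i, (b i).Prime) (hinj : Function.Injective (Sum.elim a b)) :
    (Finset.univ.filter fun i => IsAlgebraic ℚ (pw c (b i) / pw c (a i))).card ≤ 2 := by
  by_contra hcon
  rw [not_le, Finset.two_lt_card] at hcon
  obtain ⟨i, hi, j, hj, k, hk, hij, hik, hjk⟩ := hcon
  rw [Finset.mem_filter, pw_div] at hi hj hk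
  have hne : ∀ i, a i ≠ b i := fun i h =>
    absurd (hinj (a₁ := Sum.inl i) (a₂ := Sum.inr i) (by simp [h])) (by simp)
  have hl0 : ∀ i, lg (b i) - lg (a i) ≠ 0 := fun i =>
    sub_ne_zero.mpr (lg_inj (ha i).pos (hb i).pos (hne i))
  by_cases hca : IsAlgebraic ℚ c
  · set l : ℂ := lg (b i) - lg (a i) with hl
    have hl0' : l ≠ 0 := hl0 i
    have hli : LinearIndependent ℚ (![l, c * l] : Fin 2 → ℂ) := by
      rw [Fintype.linearIndependent_iff]
      intro g hg
      rw [Fin.sum_univ_two] at hg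
      simp only [Matrix.cons_val_zero, Matrix.cons_val_one, Rat.smul_def] at hg
      have h1 : ((g 0 : ℚ) : ℂ) + (g 1 : ℚ) * c = 0 := by
        apply mul_right_cancel₀ hl0'
        rw [zero_mul, ← hg]
        ring
      have h2 : g 1 = 0 := by
        by_contra h
        apply hci (-(g 0) / g 1)
        have h' : ((g 1 : ℚ) : ℂ) ≠ 0 := by exact_mod_cast h
        push_cast
        field_simp
        linear_combination h1
      rw [h2] at h1
      have h3 : g 0 = 0 := by
        have : ((g 0 : ℚ) : ℂ) = 0 := by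
          rw [← h1]; push_cast; ring
        exact_mod_cast this
      intro i
      fin_cases i
      · exact h3
      · exact h2
    have hop := Pool.Agent.W254.HP.opt_indep (![l, c * l] : Fin 2 → ℂ) (by
      intro s
      fin_cases s
      · exact alg_sub_lg (ha i).pos (hb i).pos
      · exact hi.2) hli
    have hop2 := hop.comp some (Option.some_injective _)
    have h4 := Fintype.linearIndependent_iff.mp hop2
      ![(⟨c, mem_QA.mpr hca⟩ : QA ℂ), -1] (by
        rw [Fin.sum_univ_two]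
        simp only [Function.comp_apply, Option.elim_some, Matrix.cons_val_zero,
          Matrix.cons_val_one, Algebra.smul_def]
        change c * l + ((-1 : QA ℂ) : ℂ) * (c * l) = 0
        push_cast
        ring) 1
    simp at h4
  · have hI := ind3_c (a ∘ ![i, j, k]) (b ∘ ![i, j, k]) (fun _ => ha _) (fun _ => hb _)
      (inj3 hinj hij hik hjk)
    refine two_false hyp_lt (x := c) (y := 1) (α := 1) ?_ one_ne_zero hI ?_ ?_
    · intro u v hu hv huv
      by_cases hu0 : u = 0
      · subst hu0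
        refine ⟨rfl, ?_⟩
        linear_combination huv
      · exfalso
        apply hca
        have e : c = -v / u := by
          field_simp
          linear_combination huv
        rw [e]
        exact AD hv.neg hu
    · intro z hz
      rw [one_mul]
      simp only [List.mem_cons, List.not_mem_nil, or_false] at hz
      rcases hz with rfl | rfl | rfl
      · exact Lt_log hi.2
      · exact Lt_log hj.2
      · exact Lt_log hk.2
    · intro z hz
      rw [one_mul, one_mul]
      simp only [List.mem_cons, List.not_mem_nil, or_false] at hz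
      rcases hz with rfl | rfl | rfl
      · exact Lt_log (alg_sub_lg (ha i).pos (hb i).pos)
      · exact Lt_log (alg_sub_lg (ha j).pos (hb j).pos)
      · exact Lt_log (alg_sub_lg (ha k).pos (hb k).pos)

open Classical in
/-- at most two directions with equal quotients -/
theorem eq_le_c {c c' : ℂ} (hcc : c ≠ c') {r : ℕ} (a b : Fin r → ℕ)
    (ha : ∀ i, (a i).Prime) (hb : ∀ i, (b i).Prime) (hinj : Function.Injective (Sum.elim a b)) :
    (Finset.univ.filter fun i => pw c (b i) / pw c (a i) = pw c' (b i) / pw c' (a i)).card ≤ 2 := by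
  by_contra hcon
  rw [not_le, Finset.two_lt_card] at hcon
  obtain ⟨i, hi, j, hj, k, hk, hij, hik, hjk⟩ := hcon
  rw [Finset.mem_filter, pw_div, pw_div, Complex.exp_eq_exp_iff_exists_int] at hi hj
  obtain ⟨u, hu⟩ := hi.2
  obtain ⟨v, hv⟩ := hj.2
  have hne : ∀ i, a i ≠ b i := fun i h =>
    absurd (hinj (a₁ := Sum.inl i) (a₂ := Sum.inr i) (by simp [h])) (by simp)
  have hl0 : ∀ i, lg (b i) - lg (a i) ≠ 0 := fun i =>
    sub_ne_zero.mpr (lg_inj (ha i).pos (hb i).pos (hne i))
  have hI := ind3_c (a ∘ ![i, j, k]) (b ∘ ![i, j, k]) (fun _ => ha _) (fun _ => hb _)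
    (inj3 hinj hij hik hjk)
  have hd : c - c' ≠ 0 := sub_ne_zero.mpr hcc
  have hu' : (c - c') * (lg (b i) - lg (a i)) = u * (2 * Real.pi * Complex.I) := by
    linear_combination hu
  have hv' : (c - c') * (lg (b j) - lg (a j)) = v * (2 * Real.pi * Complex.I) := by
    linear_combination hv
  have hrel : (v : ℂ) * (lg (b i) - lg (a i)) + (-(u : ℂ)) * (lg (b j) - lg (a j)) +
      0 * (lg (b k) - lg (a k)) = 0 := by
    apply mul_left_cancel₀ hd
    linear_combination (v : ℂ) * hu' - (u : ℂ) * hv'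
  obtain ⟨h1, -, -⟩ := hI (v : ℂ) (-(u : ℂ)) 0 (isAlgebraic_intCast v) (isAlgebraic_intCast u).neg
    isAlgebraic_zero hrel
  rw [h1, zero_mul] at hv'
  exact mul_ne_zero hd (hl0 j) hv'

/-- the exceptional directions -/
def BdC {m : ℕ} (c : Fin m → ℂ) (a b : ℕ) : Prop :=
  (∃ i, ¬ (∃ r : ℚ, c i = r) ∧ IsAlgebraic ℚ (pw (c i) b / pw (c i) a)) ∨
    ∃ i i', i ≠ i' ∧ pw (c i) b / pw (c i) a = pw (c i') b / pw (c i') a

theorem bdC_le {m : ℕ} {c : Fin m → ℂ} (hc : Function.Injective c)
    {r : ℕ} (a b : Fin r → ℕ) (ha : ∀ i, (a i).Prime) (hb : ∀ i, (b i).Prime)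
    (hinj : Function.Injective (Sum.elim a b))
    (h : ∀ i, BdC c (a i) (b i)) : r ≤ 2 * m + 2 * (m * m) := by
  classical
  set G : Fin m → Finset (Fin r) := fun k => Finset.univ.filter fun i =>
    (¬ ∃ r : ℚ, c k = r) ∧ IsAlgebraic ℚ (pw (c k) (b i) / pw (c k) (a i)) with hG
  set H : Fin m × Fin m → Finset (Fin r) := fun k => Finset.univ.filter fun i =>
    k.1 ≠ k.2 ∧ pw (c k.1) (b i) / pw (c k.1) (a i) = pw (c k.2) (b i) / pw (c k.2) (a i) with hH
  have hGc : ∀ k, (G k).card ≤ 2 := by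
    intro k
    by_cases hk : ∃ r : ℚ, c k = r
    · have : G k = ∅ := by
        rw [hG, Finset.filter_eq_empty_iff]
        intro i _ hh
        exact hh.1 hk
      rw [this]
      simp
    · push Not at hk
      refine le_trans (Finset.card_le_card ?_) (alg_le_c hk a b ha hb hinj)
      intro i hi
      rw [hG, Finset.mem_filter] at hi
      rw [Finset.mem_filter]
      exact ⟨Finset.mem_univ _, hi.2.2⟩
  have hHc : ∀ k, (H k).card ≤ 2 := by
    intro k
    by_cases hk : k.1 = k.2
    · have : H k = ∅ := by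
        rw [hH, Finset.filter_eq_empty_iff]
        intro i _ hh
        exact hh.1 hk
      rw [this]
      simp
    · refine le_trans (Finset.card_le_card ?_)
        (eq_le_c (fun hh => hk (hc hh)) a b ha hb hinj (c := c k.1) (c' := c k.2))
      intro i hi
      rw [hH, Finset.mem_filter] at hi
      rw [Finset.mem_filter]
      exact ⟨Finset.mem_univ _, hi.2.2⟩
  have hcov : (Finset.univ : Finset (Fin r)) ⊆ Finset.univ.biUnion G ∪ Finset.univ.biUnion H := by
    intro i _
    rw [Finset.mem_union, Finset.mem_biUnion, Finset.mem_biUnion]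
    rcases h i with ⟨k, h1, h2⟩ | ⟨k, k', h1, h2⟩
    · left
      refine ⟨k, Finset.mem_univ _, ?_⟩
      rw [hG, Finset.mem_filter]
      exact ⟨Finset.mem_univ _, h1, h2⟩
    · right
      refine ⟨(k, k'), Finset.mem_univ _, ?_⟩
      rw [hH, Finset.mem_filter]
      exact ⟨Finset.mem_univ _, h1, h2⟩
  have h1 := Finset.card_le_card hcov
  rw [Finset.card_univ, Fintype.card_fin] at h1
  have h2 := Finset.card_union_le (Finset.univ.biUnion G) (Finset.univ.biUnion H)
  have h3 : (Finset.univ.biUnion G).card ≤ m * 2 := by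
    refine Finset.card_biUnion_le.trans ?_
    calc ∑ k : Fin m, (G k).card ≤ ∑ _k : Fin m, 2 := Finset.sum_le_sum fun k _ => hGc k
      _ = m * 2 := by simp
  have h4 : (Finset.univ.biUnion H).card ≤ (m * m) * 2 := by
    refine Finset.card_biUnion_le.trans ?_
    calc ∑ k : Fin m × Fin m, (H k).card ≤ ∑ _k : Fin m × Fin m, 2 :=
          Finset.sum_le_sum fun k _ => hHc k
      _ = (m * m) * 2 := by simp
  omega

open Classical in
/-- **The complex theorem**; the constant depends only on `m` and `D` -/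
theorem full_complex (m D : ℕ) : ∃ C : ℕ, ∀ N ≥ 16,
    ∀ c : Fin m → ℂ, Function.Injective c → ∀ (B : Fin m → Polynomial ℂ), (∀ i, Z D (B i)) →
    ¬ (∀ i, ((∃ r : ℚ, c i = r) → Good (Ω := ℂ) Lt (B i)) ∧
      (¬ (∃ r : ℚ, c i = r) → B i = 0)) →
      (((Finset.Icc 1 N).filter (fun n : ℕ =>
        ∑ i : Fin m, pw (c i) n * (B i).eval (lg n) ∈ Lt)).card : ℝ) ≤ er C N * N := by
  obtain ⟨C, h⟩ := full m D (2 * m + 2 * (m * m))
  refine ⟨C, ?_⟩
  intro N hN c hc B hB hnt
  refine h N hN ℂ Lt hyp_lt lg (fun i => pw (c i)) (fun m n => lg_mul)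
    (fun i m n => pw_mul (c i)) (fun i n _ => pw_ne (c i) n) ?_ (fun i => ∃ r : ℚ, c i = r) ?_
    (BdC c) ?_ ?_ ?_ B hB hnt
  · intro n hn
    apply Lt_log
    rw [exp_lg hn]
    exact isAlgebraic_natCast n
  · rintro i ⟨r, hr⟩ n hn
    rw [hr]
    exact pw_alg r hn
  · intro r a b ha hb hinj hbad
    exact bdC_le hc a b ha hb hinj hbad
  · intro a b ha hb hab hbd
    unfold BdC at hbd
    rw [not_or] at hbd
    refine ⟨fun i hi hal => hbd.1 ⟨i, hi, hal⟩, fun i i' hii hh => hbd.2 ⟨i, i', hii, hh⟩,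
      lg_inj ha.pos hb.pos hab⟩
  · intro a b ha hb hinj _
    exact ind3_c a b ha hb hinj

end Pool.Agent.TH160.TowP
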