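import Pool.Agent.TH160.TowP.Kill
import Pool.Agent.H23R2.Der

/-!
# Möbius coefficients of functions on cubes, and linear independence of characters on cubes
-/

set_option autoImplicit false

namespace Pool.Agent.TH160.TowP

open Module Finset Polynomial

variable {Ω : Type*} [Field Ω] [CharZero Ω] {ι : Type} [DecidableEq ι]

/-- the function on finite sets with Möbius coefficients `h` -/
def ev (h : Finset ι → Ω) (K : Finset ι) : Ω := ∑ I ∈ K.powerset, h I

theorem ev_insert (h : Finset ι → Ω) (K : Finset ι) (r : ι) (hr : r ∉ K) :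
    ev h (insert r K) = ev h K + ev (fun I => h (insert r I)) K := by
  unfold ev
  exact Finset.sum_powerset_insert hr h

theorem ev_zero_imp (h : Finset ι → Ω) (J : Finset ι) (hJ : ∀ K ⊆ J, ev h K = 0) :
    ∀ I ⊆ J, h I = 0 := by
  intro I
  induction I using Finset.strongInduction with
  | H I ih =>
    intro hI
    have h1 := hJ I hI
    unfold ev at h1
    rw [← Finset.add_sum_erase _ _ (Finset.mem_powerset_self I)] at h1
    rw [Finset.sum_eq_zero, add_zero] at h1
    · exact h1
    · intro K hK
      rw [Finset.mem_erase, Finset.mem_powerset] at hK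
      exact ih K (Finset.ssubset_iff_subset_ne.mpr ⟨hK.2, hK.1⟩) (hK.2.trans hI)

theorem ev_add (h h' : Finset ι → Ω) (K : Finset ι) :
    ev (fun I => h I + h' I) K = ev h K + ev h' K := by
  unfold ev
  exact Finset.sum_add_distrib

theorem ev_smul (a : Ω) (h : Finset ι → Ω) (K : Finset ι) :
    ev (fun I => a * h I) K = a * ev h K := by
  unfold ev
  rw [Finset.mul_sum]

theorem ev_sum {S : Type*} (s : Finset S) (h : S → Finset ι → Ω) (K : Finset ι) :
    ev (fun I => ∑ x ∈ s, h x I) K = ∑ x ∈ s, ev (h x) K := by
  unfold ev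
  exact Finset.sum_comm

/-- multiplication by an additive function -/
def mulA (a0 : Ω) (a : ι → Ω) (h : Finset ι → Ω) (I : Finset ι) : Ω :=
  a0 * h I + ∑ j ∈ I, a j * (h (I.erase j) + h I)

theorem mulA_insert (a0 : Ω) (a : ι → Ω) (h : Finset ι → Ω) (I : Finset ι) (r : ι) (hr : r ∉ I) :
    mulA a0 a h (insert r I) = mulA a0 a (fun I => h (insert r I)) I +
      a r * (h I + h (insert r I)) := by
  unfold mulA
  rw [Finset.sum_insert hr, Finset.erase_insert hr]
  have : ∑ j ∈ I, a j * (h ((insert r I).erase j) + h (insert r I)) =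
      ∑ j ∈ I, a j * (h (insert r (I.erase j)) + h (insert r I)) := by
    apply Finset.sum_congr rfl
    intro j hj
    have hjr : r ≠ j := by
      rintro rfl
      exact hr hj
    rw [Finset.erase_insert_of_ne hjr]
  rw [this]
  ring

theorem ev_mulA (a0 : Ω) (a : ι → Ω) (K : Finset ι) : ∀ h : Finset ι → Ω,
    ev (mulA a0 a h) K = (a0 + ∑ j ∈ K, a j) * ev h K := by
  induction K using Finset.induction_on with
  | empty =>
    intro h
    simp [ev, mulA]
  | insert r K hr ih =>
    intro h
    rw [ev_insert _ _ _ hr, ev_insert _ _ _ hr, ih]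
    have h1 : ev (fun I => mulA a0 a h (insert r I)) K =
        ev (fun I => mulA a0 a (fun I => h (insert r I)) I + a r * (h I + h (insert r I))) K := by
      unfold ev
      apply Finset.sum_congr rfl
      intro I hI
      exact mulA_insert a0 a h I r (fun hh => hr (Finset.mem_powerset.mp hI hh))
    rw [h1, ev_add, ev_smul, ev_add, ih, Finset.sum_insert hr]
    ring

theorem mulA_zero (a0 : Ω) (a : ι → Ω) (h : Finset ι → Ω) (d : ℕ) (hd : ∀ I, d ≤ I.card → h I = 0)
    (I : Finset ι) (hI : d + 1 ≤ I.card) : mulA a0 a h I = 0 := by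
  unfold mulA
  rw [hd I (by omega), mul_zero, zero_add]
  apply Finset.sum_eq_zero
  intro j hj
  rw [hd (I.erase j) (by rw [Finset.card_erase_of_mem hj]; omega), add_zero, mul_zero]

theorem exists_coef (l : ι → Ω) (y0 : Ω) : ∀ (e : ℕ) (q : Polynomial Ω), Z e q →
    ∃ h : Finset ι → Ω, (∀ K : Finset ι, q.eval (y0 + ∑ i ∈ K, l i) = ev h K) ∧
      (∀ I, e ≤ I.card → h I = 0) ∧
      ∀ I, I.card + 1 = e → h I = (I.card.factorial : Ω) * q.coeff I.card * ∏ i ∈ I, l i := by
  intro e
  induction e with
  | zero =>
    intro q hq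
    refine ⟨fun _ => 0, ?_, fun _ _ => rfl, fun I hI => by omega⟩
    intro K
    rw [Z_zero hq, eval_zero]
    simp [ev]
  | succ e ih =>
    intro q hq
    have hZ : Z e (divX q) := by
      intro m hm
      rw [coeff_divX]
      exact hq _ (by omega)
    obtain ⟨h, h1, h2, h3⟩ := ih (divX q) hZ
    refine ⟨fun I => mulA y0 l h I + if I = ∅ then q.coeff 0 else 0, ?_, ?_, ?_⟩
    · intro K
      rw [ev_add, ev_mulA, ← h1]
      have e1 : ev (fun I : Finset ι => if I = ∅ then q.coeff 0 else 0) K = q.coeff 0 := by
        unfold ev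
        rw [Finset.sum_ite_eq' K.powerset ∅ (fun _ => q.coeff 0),
          if_pos (Finset.empty_mem_powerset K)]
      rw [e1]
      conv_lhs => rw [← divX_mul_X_add q]
      rw [eval_add, eval_mul, eval_X, eval_C]
      ring
    · intro I hI
      have hne : I ≠ ∅ := by
        rintro rfl
        simp at hI
      simp only
      rw [if_neg hne, add_zero]
      exact mulA_zero y0 l h e h2 I hI
    · intro I hI
      have hIe : I.card = e := by omega
      simp only
      rcases Nat.eq_zero_or_pos e with he | he
      · subst he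
        rw [Finset.card_eq_zero] at hIe
        subst hIe
        simp [mulA, h2 ∅ (by simp)]
      · have hne : I ≠ ∅ := by
          rintro rfl
          simp at hIe
          omega
        rw [if_neg hne, add_zero]
        unfold mulA
        rw [h2 I (by omega), mul_zero, zero_add]
        have hs : ∀ j ∈ I, l j * (h (I.erase j) + 0) =
            ((e - 1).factorial : Ω) * q.coeff e * ∏ i ∈ I, l i := by
          intro j hj
          have hc : (I.erase j).card = e - 1 := by
            rw [Finset.card_erase_of_mem hj, hIe]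
          rw [h3 (I.erase j) (by omega), hc, coeff_divX, Nat.sub_add_cancel he,
            ← Finset.mul_prod_erase I l hj]
          ring
        rw [Finset.sum_congr rfl hs, Finset.sum_const, hIe, nsmul_eq_mul]
        have hf : (e.factorial : Ω) = (e : Ω) * ((e - 1).factorial : Ω) := by
          rw [← Nat.mul_factorial_pred he.ne']
          push_cast
          rfl
        rw [hf]
        ring

/-- **independence of characters on cubes** -/
theorem char_indep {κ : Type} [Fintype κ] [DecidableEq κ] (t : κ → ι → Ω) (i0 : κ)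
    (I : Finset ι) (n : ℕ) : ∀ (J : Finset ι) (d : κ → ℕ) (h : κ → Finset ι → Ω),
    ∑ i ∈ Finset.univ.erase i0, d i = n → (∀ i, i ≠ i0 → ∀ I' ⊆ J, d i ≤ I'.card → h i I' = 0) →
    (∀ I' ⊆ J, I.card < I'.card → h i0 I' = 0) → I ⊆ J → I.card + n ≤ J.card →
    (∀ r ∈ J, t i0 r ≠ 0) → (∀ i, i ≠ i0 → ∀ r ∈ J, t i0 r ≠ t i r) →
    (∀ K ⊆ J, ∑ i, (∏ r ∈ K, t i r) * ev (h i) K = 0) → h i0 I = 0 := by
  induction n with
  | zero =>
    intro J d h hd hdeg _ hIJ _ ht0 _ hsum
    refine ev_zero_imp (h i0) J (fun K hK => ?_) I hIJ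
    have h1 := hsum K hK
    rw [← Finset.add_sum_erase _ _ (Finset.mem_univ i0), Finset.sum_eq_zero, add_zero] at h1
    · exact (mul_eq_zero.mp h1).resolve_left
        (Finset.prod_ne_zero_iff.mpr fun r hr => ht0 r (hK hr))
    · intro i hi
      have hi' := Finset.ne_of_mem_erase hi
      have hdi : d i = 0 := (Finset.sum_eq_zero_iff.mp hd) i hi
      have : ev (h i) K = 0 := by
        unfold ev
        exact Finset.sum_eq_zero fun I' hI' =>
          hdeg i hi' I' ((Finset.mem_powerset.mp hI').trans hK) (by omega)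
      rw [this, mul_zero]
  | succ n ih =>
    intro J d h hd hdeg htop hIJ hc ht0 hne hsum
    obtain ⟨i1, hi1, hdi1⟩ : ∃ i1, i1 ≠ i0 ∧ d i1 ≠ 0 := by
      by_contra hcon
      push Not at hcon
      rw [Finset.sum_eq_zero (fun j hj => hcon j (Finset.ne_of_mem_erase hj))] at hd
      omega
    obtain ⟨r, hrJ, hrI⟩ : ∃ r ∈ J, r ∉ I := by
      by_contra hcon
      push Not at hcon
      have := Finset.card_le_card (fun x hx => hcon x hx : J ⊆ I)
      omega
    have key := ih (J.erase r) (Function.update d i1 (d i1 - 1))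
      (fun i I' => (t i r - t i1 r) * h i I' + t i r * h i (insert r I')) ?_ ?_ ?_ ?_ ?_
      (fun s hs => ht0 s (Finset.mem_of_mem_erase hs))
      (fun i hi s hs => hne i hi s (Finset.mem_of_mem_erase hs)) ?_
    · have h2 : h i0 (insert r I) = 0 := htop _ (Finset.insert_subset hrJ hIJ) (by
        rw [Finset.card_insert_of_notMem hrI]; omega)
      simp only [h2, mul_zero, add_zero] at key
      exact (mul_eq_zero.mp key).resolve_left (sub_ne_zero.mpr (hne i1 hi1 r hrJ))
    · have hm : i1 ∈ Finset.univ.erase i0 := Finset.mem_erase.mpr ⟨hi1, Finset.mem_univ _⟩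
      rw [Finset.sum_update_of_mem hm, Finset.sdiff_singleton_eq_erase]
      have h2 := Finset.add_sum_erase (Finset.univ.erase i0) d hm
      omega
    · intro i hi I' hI'J hI'
      have hr : r ∉ I' := fun hh => (Finset.mem_erase.mp (hI'J hh)).1 rfl
      have hI'J' : I' ⊆ J := hI'J.trans (Finset.erase_subset r J)
      have hins : insert r I' ⊆ J := Finset.insert_subset hrJ hI'J'
      have hcd : (insert r I').card = I'.card + 1 := Finset.card_insert_of_notMem hr
      by_cases hii : i = i1
      · subst hii
        rw [Function.update_self] at hI'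
        rw [sub_self, zero_mul, zero_add, hdeg i hi _ hins (by omega), mul_zero]
      · rw [Function.update_of_ne hii] at hI'
        rw [hdeg i hi I' hI'J' hI', hdeg i hi _ hins (by omega), mul_zero, mul_zero, add_zero]
    · intro I' hI'J hI'
      have hr : r ∉ I' := fun hh => (Finset.mem_erase.mp (hI'J hh)).1 rfl
      have hI'J' : I' ⊆ J := hI'J.trans (Finset.erase_subset r J)
      have hins : insert r I' ⊆ J := Finset.insert_subset hrJ hI'J'
      have hcd : (insert r I').card = I'.card + 1 := Finset.card_insert_of_notMem hr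
      rw [htop I' hI'J' hI', htop _ hins (by omega), mul_zero, mul_zero, add_zero]
    · intro x hx
      exact Finset.mem_erase.mpr ⟨by rintro rfl; exact hrI hx, hIJ hx⟩
    · rw [Finset.card_erase_of_mem hrJ]
      omega
    · intro K hK
      have hrK : r ∉ K := fun hh => (Finset.mem_erase.mp (hK hh)).1 rfl
      have h1 := hsum (insert r K) (by
        intro x hx
        rcases Finset.mem_insert.mp hx with rfl | hx
        · exact hrJ
        · exact Finset.mem_of_mem_erase (hK hx))
      have h2 := hsum K (fun x hx => Finset.mem_of_mem_erase (hK hx))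
      have h3 : ∑ i, (∏ r ∈ insert r K, t i r) * ev (h i) (insert r K) -
          t i1 r * ∑ i, (∏ r ∈ K, t i r) * ev (h i) K = 0 := by rw [h1, h2, mul_zero, sub_zero]
      rw [← h3, Finset.mul_sum, ← Finset.sum_sub_distrib]
      apply Finset.sum_congr rfl
      intro i _
      rw [ev_add, ev_smul, ev_smul, ev_insert _ _ _ hrK, Finset.prod_insert hrK]
      ring

end Pool.Agent.TH160.TowP
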