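import Pool.Agent.TH160.TowP.NoAlg

/-!
# Sums of transcendental characters times polynomials on cubes
-/

set_option autoImplicit false

namespace Pool.Agent.TH160.TowP

open Module Finset Polynomial
open Pool.Agent.W254.Ab (QA mem_QA hyperplane')
open Pool.Agent.W254.PA (Hyp)

/-- the size of the small cube -/
def kk (c D : ℕ) : ℕ := c * (D + 1) + D + 2

/-- the number of directions which suffices -/
def NN (c D : ℕ) : ℕ := kk c D + (2 ^ kk c D) ^ 3

variable {Ω : Type} [Field Ω] [CharZero Ω] {V : Submodule (QA Ω) Ω} (hV : Hyp V)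

include hV in
theorem core {ι κ : Type} [DecidableEq ι] [Fintype κ] [DecidableEq κ] (t : κ → ι → Ω)
    (l : ι → Ω) (Ψ : κ → Ω) (Y0 : Ω) (D : ℕ) (P : κ → Polynomial Ω) (J : Finset ι)
    (hJ : NN (Fintype.card κ) D ≤ J.card) (htr : ∀ i, ∀ r ∈ J, Transcendental ℚ (t i r))
    (hne : ∀ i i', i ≠ i' → ∀ r ∈ J, t i r ≠ t i' r) (hl : ∀ r ∈ J, l r ≠ 0)
    (hΨ : ∀ i, Ψ i ≠ 0) (hP : ∀ i, Z D (P i)) (h : ∀ T ⊆ J, E Ψ t l Y0 P T ∈ V) :
    ∀ i, P i = 0 := by
  classical
  by_contra hcon
  push Not at hcon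
  obtain ⟨i0, hi0⟩ := hcon
  set e := (P i0).natDegree with he
  have heD : e < D := by
    by_contra h1
    push Not at h1
    exact hi0 (leadingCoeff_eq_zero.mp (hP i0 _ h1))
  have hb : (P i0).coeff e ≠ 0 := fun h1 => hi0 (leadingCoeff_eq_zero.mp h1)
  set c := Fintype.card κ with hc
  have hJ' : kk c D + (2 ^ kk c D) ^ 3 ≤ J.card := hJ
  obtain ⟨K0, hK0J, hK0c⟩ := Finset.exists_subset_card_eq (s := J) (n := kk c D) (by omega)
  obtain ⟨r1, hr1⟩ : J.Nonempty := Finset.card_pos.mp (by
    have : 0 < kk c D := by unfold kk; omega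
    omega)
  set J1 := J \ K0 with hJ1
  have hJ1c : (2 ^ kk c D) ^ 3 ≤ J1.card := by
    rw [hJ1, Finset.card_sdiff_of_subset hK0J]
    omega
  have ht0 : ∀ i, ∀ r ∈ J, t i r ≠ 0 := fun i r hr => ne_zero_of_tr (htr i r hr)
  obtain ⟨S, hS, hSc, hli⟩ := exists_indep (fun r => if r ∈ J then t i0 r else t i0 r1)
    (fun r => by
      split_ifs with hr
      · exact htr i0 r hr
      · exact htr i0 r1 hr1) J1
  have hSJ : ∀ s ∈ S, s ⊆ J := fun s hs => (hS s hs).trans Finset.sdiff_subset
  have hprodS : ∀ s ∈ S, ∏ r ∈ s, (if r ∈ J then t i0 r else t i0 r1) = ∏ r ∈ s, t i0 r := by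
    intro s hs
    apply Finset.prod_congr rfl
    intro r hr
    rw [if_pos (hSJ s hs hr)]
  -- the space of functions on the small cube
  let 𝓕 : Submodule Ω (K0.powerset → Ω) :=
    { carrier := {f | ∃ q : κ → Polynomial Ω, (∀ i, Z D (q i)) ∧
        ∀ K : K0.powerset, f K = ∑ i, (∏ r ∈ (K : Finset ι), t i r) *
          (q i).eval (∑ r ∈ (K : Finset ι), l r)}
      add_mem' := by
        rintro f f' ⟨q, hq, hf⟩ ⟨q', hq', hf'⟩
        refine ⟨fun i => q i + q' i, fun i m hm => ?_, fun K => ?_⟩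
        · rw [coeff_add, hq i m hm, hq' i m hm, add_zero]
        · rw [Pi.add_apply, hf, hf', ← Finset.sum_add_distrib]
          apply Finset.sum_congr rfl
          intro i _
          rw [eval_add]
          ring
      zero_mem' := ⟨fun _ => 0, fun i m _ => coeff_zero m, fun K => by simp⟩
      smul_mem' := by
        rintro a f ⟨q, hq, hf⟩
        refine ⟨fun i => C a * q i, fun i m hm => ?_, fun K => ?_⟩
        · rw [coeff_C_mul, hq i m hm, mul_zero]
        · rw [Pi.smul_apply, smul_eq_mul, hf, Finset.mul_sum]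
          apply Finset.sum_congr rfl
          intro i _
          rw [eval_mul, eval_C]
          ring }
  have h0 : ∀ f ∈ 𝓕, (∀ k, IsAlgebraic ℚ (f k)) → f = 0 := by
    rintro f ⟨q, hq, hf⟩ halg
    have hq0 := no_alg K0 t l D (fun i r hr => htr i r (hK0J hr))
      (fun i i' hii r hr => hne i i' hii r (hK0J hr)) (fun r hr => hl r (hK0J hr))
      (by rw [hK0c]; exact le_rfl) q hq (fun K hK => by
        have := halg ⟨K, Finset.mem_powerset.mpr hK⟩
        rw [hf] at this
        exact this)
    funext K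
    rw [hf, Pi.zero_apply]
    apply Finset.sum_eq_zero
    intro i _
    rw [hq0 i, eval_zero, mul_zero]
  set v : S → K0.powerset → Ω := fun s K => E Ψ t l Y0 P ((s : Finset ι) ∪ (K : Finset ι)) with hv
  have hdisj : ∀ (s : S) (K : Finset ι), K ⊆ K0 → Disjoint (s : Finset ι) K := by
    intro s K hK
    rw [Finset.disjoint_left]
    intro r hr hrK
    have := hS s s.2 hr
    rw [hJ1, Finset.mem_sdiff] at this
    exact this.2 (hK hrK)
  have hvexp : ∀ (s : S) (K : Finset ι), K ⊆ K0 → E Ψ t l Y0 P ((s : Finset ι) ∪ K) =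
      ∑ i, (∏ r ∈ K, t i r) * ((Ψ i * ∏ r ∈ (s : Finset ι), t i r) *
        (P i).eval ((Y0 + ∑ r ∈ (s : Finset ι), l r) + ∑ r ∈ K, l r)) := by
    intro s K hK
    unfold E
    apply Finset.sum_congr rfl
    intro i _
    rw [Finset.prod_union (hdisj s K hK), Finset.sum_union (hdisj s K hK), add_assoc]
    ring
  have hvV : ∀ s k, v s k ∈ V := by
    intro s K
    exact h _ (Finset.union_subset (hSJ s s.2) ((Finset.mem_powerset.mp K.2).trans hK0J))
  have hvF : ∀ s, v s ∈ 𝓕 := by
    intro s
    refine ⟨fun i => C (Ψ i * ∏ r ∈ (s : Finset ι), t i r) *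
      taylor (Y0 + ∑ r ∈ (s : Finset ι), l r) (P i), fun i m hm => ?_, fun K => ?_⟩
    · rw [coeff_C_mul, taylor_Z (hP i) _ m hm, mul_zero]
    · rw [hv]
      simp only
      rw [hvexp s K (Finset.mem_powerset.mp K.2)]
      apply Finset.sum_congr rfl
      intro i _
      rw [eval_mul, eval_C, taylor_eval, add_comm (Y0 + _)]
  have hvli : LinearIndependent (QA Ω) v := by
    rw [Fintype.linearIndependent_iff]
    intro g hg
    -- coefficients
    set d : κ → ℕ := fun i => if i = i0 then e + 1 else D with hd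
    have hPd : ∀ i, Z (d i) (P i) := by
      intro i
      simp only [hd]
      split_ifs with hh
      · rw [hh]; exact Z_natDegree (P i0)
      · exact hP i
    choose hc1 hc1a hc1b hc1c using fun (i : κ) (s : S) =>
      exists_coef l (Y0 + ∑ r ∈ (s : Finset ι), l r) (d i) (P i) (hPd i)
    set hh : κ → Finset ι → Ω := fun i I => ∑ s : S,
      ((g s : Ω) * (Ψ i * ∏ r ∈ (s : Finset ι), t i r)) * hc1 i s I with hhh
    have hsum : ∀ K ⊆ K0, ∑ i, (∏ r ∈ K, t i r) * ev (hh i) K = 0 := by
      intro K hK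
      have h1 := congrFun hg ⟨K, Finset.mem_powerset.mpr hK⟩
      rw [Finset.sum_apply, Pi.zero_apply] at h1
      rw [← h1]
      simp only [hhh, Pi.smul_apply, hv]
      have h2 : ∀ i, ev (fun I => ∑ s : S, ((g s : Ω) * (Ψ i * ∏ r ∈ (s : Finset ι), t i r)) *
          hc1 i s I) K = ∑ s : S, ((g s : Ω) * (Ψ i * ∏ r ∈ (s : Finset ι), t i r)) *
            (P i).eval ((Y0 + ∑ r ∈ (s : Finset ι), l r) + ∑ r ∈ K, l r) := by
        intro i
        rw [ev_sum]
        apply Finset.sum_congr rfl
        intro s _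
        rw [ev_smul, ← hc1a]
      simp only [h2, Finset.mul_sum]
      rw [Finset.sum_comm]
      apply Finset.sum_congr rfl
      intro s _
      rw [hvexp s K hK, Algebra.smul_def]
      change _ = (g s : Ω) * _
      rw [Finset.mul_sum]
      apply Finset.sum_congr rfl
      intro i _
      ring
    have hdeg : ∀ i I', d i ≤ I'.card → hh i I' = 0 := by
      intro i I' hI'
      simp only [hhh]
      apply Finset.sum_eq_zero
      intro s _
      rw [hc1b i s I' hI', mul_zero]
    have hd0 : d i0 = e + 1 := by simp [hd]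
    obtain ⟨I, hIK, hIc⟩ := Finset.exists_subset_card_eq (s := K0) (n := e) (by
      rw [hK0c]; unfold kk; omega)
    have hz : hh i0 I = 0 := by
      refine char_indep t i0 I (∑ i ∈ Finset.univ.erase i0, d i) K0 d hh rfl ?_ ?_ hIK ?_
        (fun r hr => ht0 i0 r (hK0J hr)) (fun i hi r hr => hne i0 i (Ne.symm hi) r (hK0J hr)) hsum
      · exact fun i _ I' _ hI' => hdeg i I' hI'
      · intro I' _ hI'
        exact hdeg i0 I' (by omega)
      · have h1 : ∑ i ∈ (Finset.univ : Finset κ).erase i0, d i ≤ c * (D + 1) := by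
          calc ∑ i ∈ (Finset.univ : Finset κ).erase i0, d i
              ≤ ∑ _i ∈ (Finset.univ : Finset κ).erase i0, (D + 1) := by
                apply Finset.sum_le_sum
                intro i hi
                simp only [hd]
                split_ifs <;> omega
            _ = ((Finset.univ : Finset κ).erase i0).card * (D + 1) := by
                rw [Finset.sum_const, smul_eq_mul]
            _ ≤ c * (D + 1) := by
                apply Nat.mul_le_mul_right
                exact (Finset.card_le_card (Finset.erase_subset _ _)).trans (by simp [hc])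
        rw [hK0c]
        unfold kk
        omega
    have hP1 : ∏ r ∈ I, l r ≠ 0 := Finset.prod_ne_zero_iff.mpr fun r hr => hl r (hK0J (hIK hr))
    have h3 : hh i0 I = ((e.factorial : Ω) * (P i0).coeff e * (∏ r ∈ I, l r) * Ψ i0) *
        ∑ s : S, (g s : Ω) * ∏ r ∈ (s : Finset ι), t i0 r := by
      simp only [hhh]
      rw [Finset.mul_sum]
      apply Finset.sum_congr rfl
      intro s _
      rw [hc1c i0 s I (by omega), hIc]
      ring
    rw [h3] at hz
    have h4 := (mul_eq_zero.mp hz).resolve_left (mul_ne_zero (mul_ne_zero (mul_ne_zero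
      (by exact_mod_cast e.factorial_ne_zero) hb) hP1) (hΨ i0))
    have hli' : LinearIndependent (QA Ω)
      (fun s : S => ∏ r ∈ (s : Finset ι), (if r ∈ J then t i0 r else t i0 r1)) := hli
    refine Fintype.linearIndependent_iff.mp hli' g ?_
    rw [← h4]
    apply Finset.sum_congr rfl
    intro s _
    rw [hprodS s s.2, Algebra.smul_def]
    rfl
  have key := rank_bound hV 𝓕 h0 v hvV hvF hvli
  rw [Fintype.card_coe, hSc, Fintype.card_coe, Finset.card_powerset, hK0c] at key
  omega

include hV in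
/-- the part with transcendental characters vanishes -/
theorem part1G {ι κ κ' : Type} [DecidableEq ι] [Fintype κ] [DecidableEq κ] [Fintype κ']
    [DecidableEq κ'] (t : κ → ι → Ω) (l : ι → Ω) (Ψ : κ → Ω) (Y0 : Ω) (D : ℕ)
    (Ψ' : κ' → Ω) (ρ : κ' → ι → Ω) (n : ℕ) : ∀ (J : Finset ι) (d : κ' → ℕ)
    (B : κ → Polynomial Ω) (P : κ' → Polynomial Ω),
    ∑ j, d j = n → (∀ j, Z (d j) (P j)) → (∀ i, Z D (B i)) →
    NN (Fintype.card κ) D + n ≤ J.card → (∀ i, ∀ r ∈ J, Transcendental ℚ (t i r)) →
    (∀ i i', i ≠ i' → ∀ r ∈ J, t i r ≠ t i' r) → (∀ r ∈ J, l r ≠ 0) → (∀ i, Ψ i ≠ 0) →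
    (∀ j, ∀ r ∈ J, IsAlgebraic ℚ (ρ j r)) →
    (∀ T ⊆ J, E Ψ t l Y0 B T + E Ψ' ρ l Y0 P T ∈ V) → ∀ i, B i = 0 := by
  classical
  induction n with
  | zero =>
    intro J d B P hd hP hB hJ htr hne hl hΨ hρ h
    have hd0 : ∀ j, d j = 0 := fun j => (Finset.sum_eq_zero_iff.mp hd) j (Finset.mem_univ j)
    have hE : ∀ T, E Ψ' ρ l Y0 P T = 0 := by
      intro T
      unfold E
      apply Finset.sum_eq_zero
      intro j _
      have : P j = 0 := Z_zero (by rw [← hd0 j]; exact hP j)
      rw [this, eval_zero, mul_zero]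
    simp only [hE, add_zero] at h
    exact core hV t l Ψ Y0 D B J (by omega) htr hne hl hΨ hB h
  | succ n ih =>
    intro J d B P hd hP hB hJ htr hne hl hΨ hρ h
    obtain ⟨j0, hj0⟩ : ∃ j0, d j0 ≠ 0 := by
      by_contra hcon
      push Not at hcon
      rw [Finset.sum_eq_zero (fun j _ => hcon j)] at hd
      omega
    obtain ⟨i, hi⟩ : J.Nonempty := Finset.card_pos.mp (by omega)
    have key := ih (J.erase i) (Function.update d j0 (d j0 - 1))
      (fun k => kop (t k i) (ρ j0 i) (l i) (B k))
      (fun j => kop (ρ j i) (ρ j0 i) (l i) (P j)) ?_ ?_ ?_ ?_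
      (fun k r hr => htr k r (Finset.mem_of_mem_erase hr))
      (fun k k' hk r hr => hne k k' hk r (Finset.mem_of_mem_erase hr))
      (fun r hr => hl r (Finset.mem_of_mem_erase hr)) hΨ
      (fun j r hr => hρ j r (Finset.mem_of_mem_erase hr)) ?_
    · intro k
      by_contra hk
      have h1 := congrArg (fun p : Polynomial Ω => p.coeff (B k).natDegree) (key k)
      simp only [coeff_zero] at h1
      rw [kop_coeff, taylor_top (Z_natDegree (B k))] at h1
      have h2 : (t k i - ρ j0 i) * (B k).coeff (B k).natDegree = 0 := by rw [← h1]; ring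
      rcases mul_eq_zero.mp h2 with h3 | h3
      · exact htr k i hi (by rw [sub_eq_zero.mp h3]; exact hρ j0 i hi)
      · exact hk (leadingCoeff_eq_zero.mp h3)
    · have h1 := Finset.sum_update_of_mem (Finset.mem_univ j0) d (d j0 - 1)
      rw [h1]
      have h2 := Finset.add_sum_erase Finset.univ d (Finset.mem_univ j0)
      rw [Finset.sdiff_singleton_eq_erase]
      omega
    · intro j
      by_cases hj : j = j0
      · subst hj
        rw [Function.update_self]
        refine kop_Z' ?_ _ _
        rw [Nat.sub_add_cancel (Nat.pos_of_ne_zero hj0)]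
        exact hP j
      · rw [Function.update_of_ne hj]
        exact kop_Z (hP j) _ _ _
    · exact fun k => kop_Z (hB k) _ _ _
    · rw [Finset.card_erase_of_mem hi]
      omega
    · intro T hT
      have hiT : i ∉ T := fun hh => (Finset.mem_erase.mp (hT hh)).1 rfl
      have h1 := h (insert i T) (by
        intro x hx
        rcases Finset.mem_insert.mp hx with rfl | hx
        · exact hi
        · exact Finset.mem_of_mem_erase (hT hx))
      have h2 := h T (fun x hx => Finset.mem_of_mem_erase (hT hx))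
      have h3 := V.sub_mem h1 (V_mul (hρ j0 i hi) h2)
      rw [← E_kop Ψ t l Y0 B T i hiT (ρ j0 i), ← E_kop Ψ' ρ l Y0 P T i hiT (ρ j0 i)]
      convert h3 using 1
      ring

end Pool.Agent.TH160.TowP
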