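import Pool.Agent.TH160.TowP.Rank

/-!
# An additive times a multiplicative function on a cube: abstract form

If `l_i ≠ 0` and the `t_i` are transcendental, `i ≤ 39`, then for all `A` and all `P ≠ 0` the numbers
`(A + ∑_{i ∈ T} l_i) P ∏_{i ∈ T} t_i` do not all lie in a space with the hyperplane property.
-/

set_option autoImplicit false

namespace Pool.Agent.TH160.TowP

open Module Finset
open Pool.Agent.W254.Ab (QA mem_QA hyperplane')
open Pool.Agent.W254.PA (Hyp)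

variable {Ω : Type*} [Field Ω] [CharZero Ω]

/-- the proportionality of four numbers to algebraic numbers -/
def Prop4 (a p ti tj li lj : Ω) : Prop :=
  ∃ φ r1 r2 r3 r4 : Ω, IsAlgebraic ℚ r1 ∧ IsAlgebraic ℚ r2 ∧ IsAlgebraic ℚ r3 ∧
    IsAlgebraic ℚ r4 ∧ ti * tj * (a + (li + lj) * p) = φ * r1 ∧ tj * (a + lj * p) = φ * r2 ∧
    ti * (a + li * p) = φ * r3 ∧ a = φ * r4

theorem alg_sum3 {x y z : Ω} (hxy : IsAlgebraic ℚ (x * y)) (hxz : IsAlgebraic ℚ (x * z))
    (hyz : IsAlgebraic ℚ (y * z)) (hy : y ≠ 0) (hz : z ≠ 0) : IsAlgebraic ℚ x := by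
  have h1 : x ^ 2 = (x * y) * (x * z) / (y * z) := by
    field_simp
  have h2 : IsAlgebraic ℚ (x ^ 2) := by
    rw [h1]
    exact AD (hxy.mul hxz) hyz
  exact h2.of_pow (by norm_num)

theorem ratio_alg {φ r s y : Ω} (hr : IsAlgebraic ℚ r) (hs : IsAlgebraic ℚ s) {z : Ω}
    (h1 : y = φ * r) (h2 : z = φ * s) (hz : z ≠ 0) : IsAlgebraic ℚ (y / z) := by
  have hφ : φ ≠ 0 := by
    intro h; rw [h, zero_mul] at h2; exact hz h2
  have : y / z = r / s := by
    rw [h1, h2]
    exact mul_div_mul_left r s hφ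
  rw [this]
  exact AD hr hs

theorem ne_zero_of_tr {t : Ω} (h : Transcendental ℚ t) : t ≠ 0 := by
  intro h0; exact h (by rw [h0]; exact isAlgebraic_zero)

theorem tr_sub {t s : Ω} (h : Transcendental ℚ t) (hs : IsAlgebraic ℚ s) :
    Transcendental ℚ (t - s) := by
  intro h0
  apply h
  have : t = (t - s) + s := by ring
  rw [this]
  exact h0.add hs

theorem alg_contra (a p t0 t1 t2 l0 l1 l2 : Ω) (ht0 : Transcendental ℚ t0)
    (ht1 : Transcendental ℚ t1) (ht2 : Transcendental ℚ t2) (hl0 : l0 ≠ 0) (hl1 : l1 ≠ 0)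
    (hp : p ≠ 0) (h01 : Prop4 a p t0 t1 l0 l1) (h02 : Prop4 a p t0 t2 l0 l2)
    (h12 : Prop4 a p t1 t2 l1 l2) : False := by
  obtain ⟨φ, r1, r2, r3, r4, hr1, hr2, hr3, hr4, e1, e2, e3, e4⟩ := h01
  obtain ⟨φ', s1, s2, s3, s4, hs1, hs2, hs3, hs4, e1', e2', e3', e4'⟩ := h02
  obtain ⟨φ'', u1, u2, u3, u4, hu1, hu2, hu3, hu4, e1'', e2'', e3'', e4''⟩ := h12
  have z0 := ne_zero_of_tr ht0
  have z1 := ne_zero_of_tr ht1
  have z2 := ne_zero_of_tr ht2
  by_cases ha : a = 0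
  · -- the case `a = 0`
    subst ha
    have y0 : t0 * (0 + l0 * p) ≠ 0 := by
      rw [zero_add]; exact mul_ne_zero z0 (mul_ne_zero hl0 hp)
    have y1 : t1 * (0 + l1 * p) ≠ 0 := by
      rw [zero_add]; exact mul_ne_zero z1 (mul_ne_zero hl1 hp)
    have a1 := ratio_alg hr2 hr3 e2 e3 y0
    have a2 := ratio_alg hs2 hs3 e2' e3' y0
    have a21 := ratio_alg hu2 hu3 e2'' e3'' y1
    have b1 := ratio_alg hr1 hr3 e1 e3 y0
    have b2 := ratio_alg hs1 hs3 e1' e3' y0
    have b21 := ratio_alg hu1 hu3 e1'' e3'' y1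
    have c1 : t0 * t1 * (0 + (l0 + l1) * p) / (t0 * (0 + l0 * p)) =
        t1 + t0 * (t1 * (0 + l1 * p) / (t0 * (0 + l0 * p))) := by
      field_simp
      ring
    have c2 : t0 * t2 * (0 + (l0 + l2) * p) / (t0 * (0 + l0 * p)) =
        t2 + t0 * (t2 * (0 + l2 * p) / (t0 * (0 + l0 * p))) := by
      field_simp
      ring
    have c21 : t1 * t2 * (0 + (l1 + l2) * p) / (t1 * (0 + l1 * p)) =
        t2 + t1 * (t2 * (0 + l2 * p) / (t1 * (0 + l1 * p))) := by
      field_simp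
      ring
    rw [c1] at b1
    rw [c2] at b2
    rw [c21] at b21
    have q : t2 * (0 + l2 * p) / (t1 * (0 + l1 * p)) * (t1 * (0 + l1 * p) / (t0 * (0 + l0 * p))) =
        t2 * (0 + l2 * p) / (t0 * (0 + l0 * p)) := by
      rw [div_mul_div_cancel₀ y1]
    have y2 : t2 * (0 + l2 * p) / (t0 * (0 + l0 * p)) ≠ 0 ∨
        t2 * (0 + l2 * p) / (t0 * (0 + l0 * p)) = 0 := by tauto
    generalize t1 * (0 + l1 * p) / (t0 * (0 + l0 * p)) = τ1 at *
    generalize t2 * (0 + l2 * p) / (t0 * (0 + l0 * p)) = τ2 at *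
    generalize t2 * (0 + l2 * p) / (t1 * (0 + l1 * p)) = τ21 at *
    rcases y2 with y2 | y2
    · apply ht0
      have h2a : IsAlgebraic ℚ (2 : Ω) := by exact_mod_cast isAlgebraic_natCast 2
      have e : t0 = ((t1 + t0 * τ1) * τ21 + (t2 + t0 * τ2) - (t2 + t1 * τ21)) / (2 * τ2) := by
        rw [eq_div_iff (mul_ne_zero two_ne_zero y2)]
        linear_combination (-t0) * q
      rw [e]
      exact AD (((b1.mul a21).add b2).sub b21) (h2a.mul a2)
    · apply ht2
      rw [y2, mul_zero, add_zero] at b2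
      exact b2
  · -- the case `a ≠ 0`
    have x0 := ratio_alg hr3 hr4 e3 e4 ha
    have x1 := ratio_alg hr2 hr4 e2 e4 ha
    have x2 := ratio_alg hs2 hs4 e2' e4' ha
    have w01 := ratio_alg hr1 hr4 e1 e4 ha
    have w02 := ratio_alg hs1 hs4 e1' e4' ha
    have w12 := ratio_alg hu1 hu4 e1'' e4'' ha
    have c01 : t0 * t1 * (a + (l0 + l1) * p) / a = t1 * (t0 * (a + l0 * p) / a) +
        t0 * (t1 * (a + l1 * p) / a) - t0 * t1 := by
      field_simp
      ring
    have c02 : t0 * t2 * (a + (l0 + l2) * p) / a = t2 * (t0 * (a + l0 * p) / a) +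
        t0 * (t2 * (a + l2 * p) / a) - t0 * t2 := by
      field_simp
      ring
    have c12 : t1 * t2 * (a + (l1 + l2) * p) / a = t2 * (t1 * (a + l1 * p) / a) +
        t1 * (t2 * (a + l2 * p) / a) - t1 * t2 := by
      field_simp
      ring
    rw [c01] at w01
    rw [c02] at w02
    rw [c12] at w12
    generalize t0 * (a + l0 * p) / a = σ0 at *
    generalize t1 * (a + l1 * p) / a = σ1 at *
    generalize t2 * (a + l2 * p) / a = σ2 at *
    have k01 : IsAlgebraic ℚ ((t0 - σ0) * (t1 - σ1)) := by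
      have : (t0 - σ0) * (t1 - σ1) = σ0 * σ1 - (t1 * σ0 + t0 * σ1 - t0 * t1) := by ring
      rw [this]
      exact (x0.mul x1).sub w01
    have k02 : IsAlgebraic ℚ ((t0 - σ0) * (t2 - σ2)) := by
      have : (t0 - σ0) * (t2 - σ2) = σ0 * σ2 - (t2 * σ0 + t0 * σ2 - t0 * t2) := by ring
      rw [this]
      exact (x0.mul x2).sub w02
    have k12 : IsAlgebraic ℚ ((t1 - σ1) * (t2 - σ2)) := by
      have : (t1 - σ1) * (t2 - σ2) = σ1 * σ2 - (t2 * σ1 + t1 * σ2 - t1 * t2) := by ring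
      rw [this]
      exact (x1.mul x2).sub w12
    exact tr_sub ht0 x0 (alg_sum3 k01 k02 k12 (ne_zero_of_tr (tr_sub ht1 x1))
      (ne_zero_of_tr (tr_sub ht2 x2)))

theorem three_le {y0 y1 y2 : Ω} (h : Ind3 y0 y1 y2) (X : Submodule (QA Ω) Ω) [FiniteDimensional (QA Ω) X]
    (h0 : y0 ∈ X) (h1 : y1 ∈ X) (h2 : y2 ∈ X) : 3 ≤ finrank (QA Ω) X := by
  have hli : LinearIndependent (QA Ω) (![⟨y0, h0⟩, ⟨y1, h1⟩, ⟨y2, h2⟩] : Fin 3 → X) := by
    rw [Fintype.linearIndependent_iff]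
    intro g hg
    rw [Fin.sum_univ_three] at hg
    simp only [Matrix.cons_val_zero, Matrix.cons_val_one, Matrix.cons_val] at hg
    have h3 := congrArg (fun z : X => (z : Ω)) hg
    simp only [Submodule.coe_add, Submodule.coe_smul, Submodule.coe_zero] at h3
    have h4 := h (g 0) (g 1) (g 2) (mem_QA.mp (g 0).2) (mem_QA.mp (g 1).2) (mem_QA.mp (g 2).2)
      (by
        rw [← h3]
        simp only [Algebra.smul_def]
        rfl)
    intro i
    fin_cases i
    · exact Subtype.ext h4.1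
    · exact Subtype.ext h4.2.1
    · exact Subtype.ext h4.2.2
  simpa using hli.fintype_card_le_finrank

theorem coef_rank {ti tj : Ω} (hi : Transcendental ℚ ti) (hj : Transcendental ℚ tj) :
    3 ≤ finrank (QA Ω) (Submodule.span (QA Ω) (Set.range ![(1 : Ω), -ti, -tj, ti * tj])) := by
  set X := Submodule.span (QA Ω) (Set.range ![(1 : Ω), -ti, -tj, ti * tj]) with hX
  haveI : FiniteDimensional (QA Ω) X := FiniteDimensional.span_of_finite (QA Ω) (Set.finite_range _)
  have m0 : (1 : Ω) ∈ X := Submodule.subset_span ⟨0, rfl⟩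
  have m1 : -ti ∈ X := Submodule.subset_span ⟨1, rfl⟩
  have m2 : -tj ∈ X := Submodule.subset_span ⟨2, rfl⟩
  have m3 : ti * tj ∈ X := Submodule.subset_span ⟨3, rfl⟩
  have m1' : ti ∈ X := by simpa using X.neg_mem m1
  have m2' : tj ∈ X := by simpa using X.neg_mem m2
  rcases square ti tj hi hj with h | h
  · exact three_le h X m0 m1' m2'
  · exact three_le h X m0 m1' m3

variable {V : Submodule (QA Ω) Ω} (hV : Hyp V)

include hV in
/-- one pair of directions -/
theorem pair_dir {ι : Type*} [DecidableEq ι] (S : Finset (Finset ι)) (i j : ι) (hij : i ≠ j)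
    (hi : ∀ s ∈ S, i ∉ s) (hj : ∀ s ∈ S, j ∉ s) (A0 P0 : Ω) (l t : ι → Ω)
    (ht : ∀ i, Transcendental ℚ (t i))
    (h : ∀ T : Finset ι, (A0 + ∑ i ∈ T, l i) * (P0 * ∏ i ∈ T, t i) ∈ V) :
    ∃ K : Submodule (QA Ω) (S → (QA Ω)), S.card ≤ finrank (QA Ω) K + 12 ∧ ∀ c ∈ K,
      Prop4 (∑ s : S, (c s : Ω) * ((A0 + ∑ i ∈ (s : Finset ι), l i) * (P0 * ∏ i ∈ (s : Finset ι), t i)))
        (∑ s : S, (c s : Ω) * (P0 * ∏ i ∈ (s : Finset ι), t i)) (t i) (t j) (l i) (l j) := by
  classical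
  set F : Finset ι → Ω := fun T => (A0 + ∑ i ∈ T, l i) * (P0 * ∏ i ∈ T, t i) with hF
  set v : S → Fin 4 → Ω := fun s =>
    ![F (insert i (insert j (s : Finset ι))), F (insert j (s : Finset ι)),
      F (insert i (s : Finset ι)), F (s : Finset ι)] with hv
  have hF1 : ∀ s : S, F (insert i (s : Finset ι)) =
      t i * (F (s : Finset ι) + l i * (P0 * ∏ i ∈ (s : Finset ι), t i)) := by
    intro s
    simp only [hF]
    rw [Finset.sum_insert (hi s s.2), Finset.prod_insert (hi s s.2)]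
    ring
  have hF2 : ∀ s : S, F (insert j (s : Finset ι)) =
      t j * (F (s : Finset ι) + l j * (P0 * ∏ i ∈ (s : Finset ι), t i)) := by
    intro s
    simp only [hF]
    rw [Finset.sum_insert (hj s s.2), Finset.prod_insert (hj s s.2)]
    ring
  have hF3 : ∀ s : S, F (insert i (insert j (s : Finset ι))) =
      t i * t j * (F (s : Finset ι) + (l i + l j) * (P0 * ∏ i ∈ (s : Finset ι), t i)) := by
    intro s
    have h1 : i ∉ insert j (s : Finset ι) := by
      rw [Finset.mem_insert, not_or]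
      exact ⟨hij, hi s s.2⟩
    simp only [hF]
    rw [Finset.sum_insert h1, Finset.prod_insert h1, Finset.sum_insert (hj s s.2),
      Finset.prod_insert (hj s s.2)]
    ring
  obtain ⟨ρ, K, hρ, hK, hKc⟩ := pair_ker hV (S := S) ![(1 : Ω), -t i, -t j, t i * t j]
    (coef_rank (ht i) (ht j)) v (by
      intro s k
      fin_cases k
      · exact h _
      · exact h _
      · exact h _
      · exact h _) (by
      intro s
      rw [Fin.sum_univ_four]
      simp only [hv, Matrix.cons_val_zero, Matrix.cons_val_one, Matrix.cons_val]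
      rw [hF1, hF2, hF3]
      ring)
  refine ⟨K, by simpa using hK, fun c hc => ?_⟩
  obtain ⟨φ, hφ⟩ := hKc c hc
  have g0 := hφ 0
  have g1 := hφ 1
  have g2 := hφ 2
  have g3 := hφ 3
  simp only [hv, Matrix.cons_val_zero, Matrix.cons_val_one, Matrix.cons_val] at g0 g1 g2 g3
  refine ⟨φ, ρ 0, ρ 1, ρ 2, ρ 3, hρ 0, hρ 1, hρ 2, hρ 3, ?_, ?_, ?_, ?_⟩
  · rw [← g0, Finset.mul_sum, ← Finset.sum_add_distrib, Finset.mul_sum]
    apply Finset.sum_congr rfl
    intro s _
    rw [hF3]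
    simp only [hF]
    ring
  · rw [← g1, Finset.mul_sum, ← Finset.sum_add_distrib, Finset.mul_sum]
    apply Finset.sum_congr rfl
    intro s _
    rw [hF2]
    simp only [hF]
    ring
  · rw [← g2, Finset.mul_sum, ← Finset.sum_add_distrib, Finset.mul_sum]
    apply Finset.sum_congr rfl
    intro s _
    rw [hF1]
    simp only [hF]
    ring
  · rw [← g3]

include hV in
/-- **Cube lemma.** -/
theorem cube_false (A0 P0 : Ω) (hP0 : P0 ≠ 0) (l t : Fin 39 → Ω)
    (ht : ∀ i, Transcendental ℚ (t i)) (hl : ∀ i, l i ≠ 0)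
    (h : ∀ T : Finset (Fin 39), (A0 + ∑ i ∈ T, l i) * (P0 * ∏ i ∈ T, t i) ∈ V) : False := by
  classical
  set J : Finset (Fin 39) := Finset.univ.filter (fun i => 3 ≤ i.val) with hJ
  have hJc : J.card = 36 := by decide
  obtain ⟨S, hS, hc, hli⟩ := exists_indep t ht J
  rw [hJc] at hc
  have hmem : ∀ i : Fin 39, i.val < 3 → ∀ s ∈ S, i ∉ s := by
    intro i hi s hs his
    have := hS s hs his
    rw [hJ, Finset.mem_filter] at this
    omega
  obtain ⟨K1, hK1, hc1⟩ := pair_dir hV S 0 1 (by decide) (hmem 0 (by decide)) (hmem 1 (by decide))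
    A0 P0 l t ht h
  obtain ⟨K2, hK2, hc2⟩ := pair_dir hV S 0 2 (by decide) (hmem 0 (by decide)) (hmem 2 (by decide))
    A0 P0 l t ht h
  obtain ⟨K3, hK3, hc3⟩ := pair_dir hV S 1 2 (by decide) (hmem 1 (by decide)) (hmem 2 (by decide))
    A0 P0 l t ht h
  have hdim : finrank (QA Ω) (S → (QA Ω)) = 37 := by
    rw [Module.finrank_fintype_fun_eq_card, Fintype.card_coe, hc]
  have i1 := Submodule.finrank_sup_add_finrank_inf_eq K1 K2
  have i2 := Submodule.finrank_sup_add_finrank_inf_eq (K1 ⊓ K2) K3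
  have j1 := Submodule.finrank_le (K1 ⊔ K2)
  have j2 := Submodule.finrank_le ((K1 ⊓ K2) ⊔ K3)
  rw [hdim] at j1 j2
  have hpos : 0 < finrank (QA Ω) ((K1 ⊓ K2) ⊓ K3 : Submodule (QA Ω) (S → (QA Ω))) := by omega
  obtain ⟨⟨c, hcK⟩, hc0⟩ := Module.finrank_pos_iff_exists_ne_zero.mp hpos
  have hc0' : c ≠ 0 := fun h => hc0 (Subtype.ext h)
  have m1 : c ∈ K1 := hcK.1.1
  have m2 : c ∈ K2 := hcK.1.2
  have m3 : c ∈ K3 := hcK.2
  refine alg_contra _ _ (t 0) (t 1) (t 2) (l 0) (l 1) (l 2) (ht 0) (ht 1) (ht 2) (hl 0) (hl 1) ?_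
    (hc1 c m1) (hc2 c m2) (hc3 c m3)
  intro hzero
  apply hc0'
  have h1 : ∑ s : S, c s • (∏ i ∈ (s : Finset (Fin 39)), t i) = 0 := by
    have h2 : P0 * ∑ s : S, c s • (∏ i ∈ (s : Finset (Fin 39)), t i) = 0 := by
      rw [← hzero, Finset.mul_sum]
      apply Finset.sum_congr rfl
      intro s _
      rw [Algebra.smul_def]
      change P0 * ((c s : Ω) * _) = _
      ring
    exact (mul_eq_zero.mp h2).resolve_left hP0
  have hli' : LinearIndependent (QA Ω) (fun s : S => ∏ i ∈ (s : Finset (Fin 39)), t i) := hli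
  funext s
  exact Fintype.linearIndependent_iff.mp hli' c h1 s

end Pool.Agent.TH160.TowP
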