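import Pool.Agent.TH160.TowP.Cube
import Pool.Agent.TH160.Tow.Main
import Pool.Agent.TH293.APP.Main
import Pool.Agent.W254.PA.App

/-!
# Products of an additive and a multiplicative function and linear forms in `p`-adic logarithms
-/

set_option autoImplicit false

namespace Pool.Agent.TH160.TowP

open Finset
open Pool.Agent.W254.Ab (QA mem_QA)
open Pool.Agent.W254.PA (Hyp LtE logs hyp_padic)
open Pool.Agent.W245.PB (IsIwasawaLog brumer)

section general

variable {Ω : Type*} [Field Ω] [CharZero Ω]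

theorem add_prod {A : ℕ → Ω} (hA : ∀ m n, 0 < m → 0 < n → A (m * n) = A m + A n) {r : ℕ}
    (s : Finset (Fin r)) (f : Fin r → ℕ) (hf : ∀ i, 0 < f i) :
    A (∏ i ∈ s, f i) = ∑ i ∈ s, A (f i) := by
  classical
  induction s using Finset.induction_on with
  | empty =>
    have h := hA 1 1 one_pos one_pos
    rw [mul_one] at h
    rw [Finset.prod_empty, Finset.sum_empty]
    exact left_eq_add.mp h
  | insert i s hi ih =>
    rw [Finset.prod_insert hi, Finset.sum_insert hi, hA _ _ (hf i)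
      (Finset.prod_pos fun j _ => hf j), ih]

theorem mul_prod {χ : ℕ → Ω} (hχ : ∀ m n, 0 < m → 0 < n → χ (m * n) = χ m * χ n)
    (h0 : ∀ n, 0 < n → χ n ≠ 0) {r : ℕ}
    (s : Finset (Fin r)) (f : Fin r → ℕ) (hf : ∀ i, 0 < f i) :
    χ (∏ i ∈ s, f i) = ∏ i ∈ s, χ (f i) := by
  classical
  induction s using Finset.induction_on with
  | empty =>
    have h := hχ 1 1 one_pos one_pos
    rw [mul_one] at h
    rw [Finset.prod_empty, Finset.prod_empty]
    exact (mul_eq_left₀ (h0 1 one_pos)).mp h.symm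
  | insert i s hi ih =>
    rw [Finset.prod_insert hi, Finset.prod_insert hi, hχ _ _ (hf i)
      (Finset.prod_pos fun j _ => hf j), ih]

theorem sum_cube {r : ℕ} (T : Finset (Fin r)) (x y : Fin r → Ω) :
    ∑ i, (if i ∈ T then x i else y i) = (∑ i, y i) + ∑ i ∈ T, (x i - y i) := by
  classical
  have h1 : ∑ i, (if i ∈ T then x i else y i) =
      ∑ i, (y i + (if i ∈ T then x i - y i else 0)) := by
    apply Finset.sum_congr rfl
    intro i _
    split_ifs
    · ring
    · rw [add_zero]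
  rw [h1, Finset.sum_add_distrib, Finset.sum_ite_mem, Finset.univ_inter]

theorem prod_cube {r : ℕ} (T : Finset (Fin r)) (x y : Fin r → Ω) (hy : ∀ i, y i ≠ 0) :
    ∏ i, (if i ∈ T then x i else y i) = (∏ i, y i) * ∏ i ∈ T, (x i / y i) := by
  classical
  have h1 : ∏ i, (if i ∈ T then x i else y i) =
      ∏ i, (y i * (if i ∈ T then x i / y i else 1)) := by
    apply Finset.prod_congr rfl
    intro i _
    split_ifs
    · rw [mul_div_cancel₀ _ (hy i)]
    · rw [mul_one]
  rw [h1, Finset.prod_mul_distrib, Finset.prod_ite_mem, Finset.univ_inter]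

/-- the directions in which the additive function is constant or the multiplicative function
changes by an algebraic factor -/
def Flat (A χ : ℕ → Ω) (a b : ℕ) : Prop := A b = A a ∨ IsAlgebraic ℚ (χ b / χ a)

open Classical in
/-- **General counting theorem.** -/
theorem count_gen (R : ℕ) (ε : ℝ) (hε : 0 < ε) : ∃ N0 : ℕ, ∀ N ≥ N0,
    ∀ (Ω : Type) [Field Ω] [CharZero Ω] (V : Submodule (QA Ω) Ω), Hyp V →
    ∀ A χ : ℕ → Ω, (∀ m n, 0 < m → 0 < n → A (m * n) = A m + A n) →
    (∀ m n, 0 < m → 0 < n → χ (m * n) = χ m * χ n) → (∀ n, 0 < n → χ n ≠ 0) →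
    (∀ (r : ℕ) (p q : Fin r → ℕ), (∀ i, (p i).Prime) → (∀ i, (q i).Prime) →
      Function.Injective (Sum.elim p q) → (∀ i, Flat A χ (p i) (q i)) → r ≤ R) →
    ∀ b κ : Ω, κ ≠ 0 →
      (((Finset.Icc 1 N).filter (fun n : ℕ => κ * (b + A n) * χ n ∈ V)).card : ℝ) ≤ ε * N := by
  obtain ⟨x0, hx0⟩ := Pool.Agent.H297R2.dense_cube (39 + R) ε hε 1
  refine ⟨x0, ?_⟩
  intro N hN Ω _ _ V hV A χ hA hχ hχ0 hR b κ hκ
  by_contra hcon
  push Not at hcon
  obtain ⟨a0, p, q, ha0, hp, hq, hinj, hcube⟩ := hx0 N hN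
    ((Finset.Icc 1 N).filter (fun n : ℕ => κ * (b + A n) * χ n ∈ V)) (by
      intro n hn
      rw [Finset.mem_filter, Finset.mem_Icc] at hn
      rw [Finset.mem_Ioc]
      omega) hcon.le
  have hpp : ∀ i, 0 < p i := fun i => (hp i).1.pos
  have hqp : ∀ i, 0 < q i := fun i => (hq i).1.pos
  -- the good directions
  set G : Finset (Fin (39 + R)) :=
    Finset.univ.filter fun i => ¬ Flat A χ (p i) (q i) with hG
  have hGc : 39 ≤ G.card := by
    set B : Finset (Fin (39 + R)) := Finset.univ.filter fun i => Flat A χ (p i) (q i) with hB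
    have h1 : B.card ≤ R := by
      set e : Fin B.card ↪o Fin (39 + R) := B.orderEmbOfFin rfl with he
      refine hR B.card (p ∘ e) (q ∘ e) (fun i => (hp _).1) (fun i => (hq _).1) ?_ ?_
      · have h1 : Sum.elim (p ∘ e) (q ∘ e) = Sum.elim p q ∘ Sum.map e e := by
          funext s
          rcases s with s | s <;> rfl
        rw [h1]
        exact hinj.comp (Sum.map_injective.mpr ⟨e.injective, e.injective⟩)
      · intro i
        have h0 : ∀ j ∈ B, Flat A χ (p j) (q j) := by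
          intro j hj
          rw [hB] at hj
          exact (Finset.mem_filter.mp hj).2
        exact h0 (e i) (Finset.orderEmbOfFin_mem B rfl i)
    have h2 := Finset.card_filter_add_card_filter_not (s := (Finset.univ : Finset (Fin (39 + R))))
      (fun i => Flat A χ (p i) (q i))
    rw [Finset.card_univ, Fintype.card_fin] at h2
    rw [hG]
    rw [hB] at h1
    omega
  set e : Fin 39 ↪o Fin (39 + R) := G.orderEmbOfCardLe hGc with he
  have good : ∀ i : Fin 39, ¬ Flat A χ (p (e i)) (q (e i)) := by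
    intro i
    have h0 : ∀ j ∈ G, ¬ Flat A χ (p j) (q j) := by
      intro j hj
      rw [hG] at hj
      exact (Finset.mem_filter.mp hj).2
    exact h0 (e i) (Finset.orderEmbOfCardLe_mem G hGc i)
  refine cube_false hV (b + (A a0 + ∑ i, A (p i))) (κ * (χ a0 * ∏ i, χ (p i))) ?_
    (fun i => A (q (e i)) - A (p (e i))) (fun i => χ (q (e i)) / χ (p (e i))) ?_ ?_ ?_
  · refine mul_ne_zero hκ (mul_ne_zero (hχ0 _ ha0) ?_)
    exact Finset.prod_ne_zero_iff.mpr fun i _ => hχ0 _ (hpp i)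
  · intro i h
    exact good i (Or.inr h)
  · intro i h
    exact good i (Or.inl (sub_eq_zero.mp h))
  · intro T
    have h1 := (Finset.mem_filter.mp (hcube (T.map e.toEmbedding))).2
    set T' := T.map e.toEmbedding with hT'
    have hf : ∀ i, 0 < (if i ∈ T' then q i else p i) := by
      intro i
      split_ifs
      · exact hqp i
      · exact hpp i
    have e1 : A (a0 * ∏ i, (if i ∈ T' then q i else p i)) =
        A a0 + ((∑ i, A (p i)) + ∑ i ∈ T, (A (q (e i)) - A (p (e i)))) := by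
      rw [hA _ _ ha0 (Finset.prod_pos fun i _ => hf i), add_prod hA _ _ hf]
      have : ∀ i, A (if i ∈ T' then q i else p i) = if i ∈ T' then A (q i) else A (p i) :=
        fun i => by split_ifs <;> rfl
      simp only [this]
      rw [sum_cube, hT', Finset.sum_map]
      rfl
    have e2 : χ (a0 * ∏ i, (if i ∈ T' then q i else p i)) =
        χ a0 * ((∏ i, χ (p i)) * ∏ i ∈ T, (χ (q (e i)) / χ (p (e i)))) := by
      rw [hχ _ _ ha0 (Finset.prod_pos fun i _ => hf i), mul_prod hχ hχ0 _ _ hf]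
      have : ∀ i, χ (if i ∈ T' then q i else p i) = if i ∈ T' then χ (q i) else χ (p i) :=
        fun i => by split_ifs <;> rfl
      simp only [this]
      rw [prod_cube T' _ _ (fun i => hχ0 _ (hpp i)), hT', Finset.prod_map]
      rfl
    rw [e1, e2] at h1
    have e3 : (b + (A a0 + ∑ i, A (p i)) + ∑ i ∈ T, (A (q (e i)) - A (p (e i)))) *
        (κ * (χ a0 * ∏ i, χ (p i)) * ∏ i ∈ T, (χ (q (e i)) / χ (p (e i)))) =
        κ * (b + (A a0 + ((∑ i, A (p i)) + ∑ i ∈ T, (A (q (e i)) - A (p (e i)))))) *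
        (χ a0 * ((∏ i, χ (p i)) * ∏ i ∈ T, (χ (q (e i)) / χ (p (e i))))) := by ring
    rw [e3]
    exact h1

end general

section padic

variable {p : ℕ} [hp : Fact p.Prime] {L : PadicAlgCl p → PadicAlgCl p} (hL : IsIwasawaLog p L)

open Pool.Agent.TH293.APP (U lp_eq_zero dep_of)
open Pool.Agent.TH293.AP (Dep)

/-- the quotient of two primes different from `p` is a `p`-adic unit -/
theorem unit_quot {a b : ℕ} (ha : a.Prime) (hb : b.Prime) (hap : a ≠ p) (hbp : b ≠ p) :
    U p ((b : ℚ) / (a : ℚ)) := by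
  have h : ∀ c : ℕ, c.Prime → c ≠ p → padicValRat p (c : ℚ) = 0 := by
    intro c hc hcp
    rw [padicValRat.of_nat]
    have : padicValNat p c = 0 := padicValNat.eq_zero_of_not_dvd (fun hd =>
      hcp ((Nat.prime_dvd_prime_iff_eq hp.out hc).mp hd).symm)
    rw [this]
    rfl
  unfold U
  rw [padicValRat.div (by exact_mod_cast hb.ne_zero) (by exact_mod_cast ha.ne_zero), h b hb hbp,
    h a ha hap, sub_zero]

include hL in
theorem log_quot {a b : ℕ} (ha : 0 < a) (hb : 0 < b) :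
    L (((b : ℚ) / (a : ℚ) : ℚ) : PadicAlgCl p) = L (b : PadicAlgCl p) - L (a : PadicAlgCl p) := by
  have ha' : (a : PadicAlgCl p) ≠ 0 := by exact_mod_cast ha.ne'
  have hb' : (b : PadicAlgCl p) ≠ 0 := by exact_mod_cast hb.ne'
  push_cast
  rw [div_eq_mul_inv, hL.mul _ _ hb' (inv_ne_zero ha'), hL.inv ha']
  ring

include hL in
theorem not_alg {c : PadicAlgCl p} (hc : IsAlgebraic ℚ c) (hci : ∀ r : ℚ, c ≠ r) {x : ℚ}
    (hx : 0 < x) (hx1 : x ≠ 1) (u : U p x) {y : PadicAlgCl p} (hy0 : y ≠ 0)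
    (hy : L y = c * L (x : PadicAlgCl p)) : ¬ IsAlgebraic ℚ y := by
  intro hya
  have hLx : L (x : PadicAlgCl p) ≠ 0 := fun h => hx1 (lp_eq_zero hL hx u h)
  have hli : LinearIndependent ℚ (fun i => L ((![(x : PadicAlgCl p), y] : Fin 2 → _) i)) := by
    rw [Fintype.linearIndependent_iff]
    intro g hg
    rw [Fin.sum_univ_two] at hg
    simp only [Matrix.cons_val_zero, Matrix.cons_val_one, Rat.smul_def] at hg
    rw [hy] at hg
    have h1 : ((g 0 : ℚ) : PadicAlgCl p) + (g 1 : ℚ) * c = 0 := by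
      apply mul_right_cancel₀ hLx
      rw [zero_mul, ← hg]
      ring
    have h2 : g 1 = 0 := by
      by_contra h
      apply hci (-(g 0) / g 1)
      have h' : ((g 1 : ℚ) : PadicAlgCl p) ≠ 0 := by exact_mod_cast h
      push_cast
      field_simp
      linear_combination h1
    rw [h2] at h1
    have h3 : g 0 = 0 := by
      have : ((g 0 : ℚ) : PadicAlgCl p) = 0 := by
        rw [← h1]; push_cast; ring
      exact_mod_cast this
    intro i
    fin_cases i
    · exact h3
    · exact h2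
  have hb := (brumer hL (![(x : PadicAlgCl p), y] : Fin 2 → PadicAlgCl p) (by
    intro i
    fin_cases i
    · simpa using hx.ne'
    · simpa using hy0) (by
    intro i
    fin_cases i
    · exact isAlgebraic_algebraMap x
    · exact hya) hli 0 isAlgebraic_zero ![c, -1] (by
    intro i
    fin_cases i
    · exact hc
    · exact isAlgebraic_one.neg) (by
    rw [Fin.sum_univ_two]
    simp only [Matrix.cons_val_zero, Matrix.cons_val_one]
    rw [hy]
    ring)).2 1
  simp at hb

theorem not_dep (a b : Fin 3 → ℕ) (ha : ∀ i, (a i).Prime) (hb : ∀ i, (b i).Prime)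
    (hinj : Function.Injective (Sum.elim a b)) :
    ¬ Dep ((b 0 : ℚ) / (a 0 : ℚ)) ((b 1 : ℚ) / (a 1 : ℚ)) ((b 2 : ℚ) / (a 2 : ℚ)) := by
  rintro ⟨k, l, m, hne, h⟩
  have hap : ∀ i, (0 : ℝ) < a i := fun i => by exact_mod_cast (ha i).pos
  have hbp : ∀ i, (0 : ℝ) < b i := fun i => by exact_mod_cast (hb i).pos
  have h1 : ((b 0 : ℝ) / (a 0 : ℝ)) ^ k * ((b 1 : ℝ) / (a 1 : ℝ)) ^ l *
      ((b 2 : ℝ) / (a 2 : ℝ)) ^ m = 1 := by
    have := congrArg (fun z : ℚ => (z : ℝ)) h
    push_cast at this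
    exact this
  have h2 := congrArg Real.log h1
  have hpos : ∀ (i : Fin 3) (k : ℤ), ((b i : ℝ) / (a i : ℝ)) ^ k ≠ 0 := fun i k =>
    zpow_ne_zero _ (div_pos (hbp i) (hap i)).ne'
  rw [Real.log_one, Real.log_mul (mul_ne_zero (hpos _ _) (hpos _ _)) (hpos _ _),
    Real.log_mul (hpos _ _) (hpos _ _), Real.log_zpow, Real.log_zpow, Real.log_zpow,
    Real.log_div (hbp 0).ne' (hap 0).ne', Real.log_div (hbp 1).ne' (hap 1).ne',
    Real.log_div (hbp 2).ne' (hap 2).ne'] at h2
  have h3 := Pool.Agent.TH160.Tow.quot_indep a b ha hb hinj ![(k : ℂ), (l : ℂ), (m : ℂ)] (by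
    intro i
    fin_cases i
    · exact isAlgebraic_intCast k
    · exact isAlgebraic_intCast l
    · exact isAlgebraic_intCast m) (by
    rw [Fin.sum_univ_three]
    simp only [Matrix.cons_val_zero, Matrix.cons_val_one, Matrix.cons_val]
    have := congrArg (fun z : ℝ => (z : ℂ)) h2
    push_cast at this ⊢
    exact this)
  have k0 := h3 0
  have k1 := h3 1
  have k2 := h3 2
  simp only [Matrix.cons_val_zero, Matrix.cons_val_one, Matrix.cons_val] at k0 k1 k2
  rcases hne with h | h | h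
  · exact h (by exact_mod_cast k0)
  · exact h (by exact_mod_cast k1)
  · exact h (by exact_mod_cast k2)

include hL in
/-- at most three flat directions -/
theorem flat_le {c s : PadicAlgCl p} (hs : s ≠ 0) (hci : ∀ r : ℚ, c ≠ r) (χ : ℕ → PadicAlgCl p)
    (hχ0 : ∀ n, 0 < n → χ n ≠ 0) (hχL : ∀ n : ℕ, 0 < n → L (χ n) = c * L (n : PadicAlgCl p))
    {r : ℕ} (a b : Fin r → ℕ) (ha : ∀ i, (a i).Prime) (hb : ∀ i, (b i).Prime)
    (hinj : Function.Injective (Sum.elim a b))
    (h : ∀ i, Flat (fun n : ℕ => s * L (n : PadicAlgCl p)) χ (a i) (b i)) : r ≤ 3 := by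
  classical
  by_contra hcon
  -- the directions containing `p`
  set B : Finset (Fin r) := Finset.univ.filter fun i => a i = p ∨ b i = p with hB
  have hBc : B.card ≤ 1 := by
    rw [Finset.card_le_one]
    intro i hi j hj
    rw [hB, Finset.mem_filter] at hi hj
    rcases hi.2 with h1 | h1 <;> rcases hj.2 with h2 | h2
    · exact Sum.inl_injective (hinj (a₁ := Sum.inl i) (a₂ := Sum.inl j) (by simp [h1, h2]))
    · exact absurd (hinj (a₁ := Sum.inl i) (a₂ := Sum.inr j) (by simp [h1, h2])) (by simp)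
    · exact absurd (hinj (a₁ := Sum.inr i) (a₂ := Sum.inl j) (by simp [h1, h2])) (by simp)
    · exact Sum.inr_injective (hinj (a₁ := Sum.inr i) (a₂ := Sum.inr j) (by simp [h1, h2]))
  have hGc : 2 < (Finset.univ.filter fun i => ¬ (a i = p ∨ b i = p)).card := by
    have h2 := Finset.card_filter_add_card_filter_not (s := (Finset.univ : Finset (Fin r)))
      (fun i => a i = p ∨ b i = p)
    rw [Finset.card_univ, Fintype.card_fin] at h2
    rw [hB] at hBc
    omega
  rw [Finset.two_lt_card] at hGc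
  obtain ⟨i, hi, j, hj, k, hk, hij, hik, hjk⟩ := hGc
  rw [Finset.mem_filter] at hi hj hk
  have hbase : ∀ i, ¬ (a i = p ∨ b i = p) → U p ((b i : ℚ) / (a i : ℚ)) ∧
      0 < (b i : ℚ) / (a i : ℚ) ∧ (b i : ℚ) / (a i : ℚ) ≠ 1 := by
    intro i hi
    rw [not_or] at hi
    have h1 : (0 : ℚ) < a i := by exact_mod_cast (ha i).pos
    have h2 : (0 : ℚ) < b i := by exact_mod_cast (hb i).pos
    refine ⟨unit_quot (ha i) (hb i) hi.1 hi.2, div_pos h2 h1, ?_⟩
    intro h3
    rw [div_eq_one_iff_eq h1.ne'] at h3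
    have h4 : b i = a i := by exact_mod_cast h3
    exact absurd (hinj (a₁ := Sum.inl i) (a₂ := Sum.inr i) (by simp [h4])) (by simp)
  have halg : ∀ i, ¬ (a i = p ∨ b i = p) → IsAlgebraic ℚ (χ (b i) / χ (a i)) ∧
      χ (b i) / χ (a i) ≠ 0 ∧
      L (χ (b i) / χ (a i)) = c * L (((b i : ℚ) / (a i : ℚ) : ℚ) : PadicAlgCl p) := by
    intro i hi
    obtain ⟨u, h0, h1⟩ := hbase i hi
    have e0 := hχ0 (a i) (ha i).pos
    have e1 := hχ0 (b i) (hb i).pos
    have e2 : L (χ (b i) / χ (a i)) = c * L (((b i : ℚ) / (a i : ℚ) : ℚ) : PadicAlgCl p) := by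
      rw [log_quot hL (ha i).pos (hb i).pos, div_eq_mul_inv, hL.mul _ _ e1 (inv_ne_zero e0),
        hL.inv e0, hχL _ (ha i).pos, hχL _ (hb i).pos]
      ring
    refine ⟨?_, div_ne_zero e1 e0, e2⟩
    rcases h i with h2 | h2
    · exfalso
      apply h1
      apply lp_eq_zero hL h0 u
      rw [log_quot hL (ha i).pos (hb i).pos]
      have h3 : L (b i : PadicAlgCl p) = L (a i : PadicAlgCl p) := mul_left_cancel₀ hs h2
      rw [h3, sub_self]
    · exact h2
  by_cases hca : IsAlgebraic ℚ c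
  · obtain ⟨u, h0, h1⟩ := hbase i hi.2
    obtain ⟨h2, h3, h4⟩ := halg i hi.2
    exact not_alg hL hca hci h0 h1 u h3 h4 h2
  · have mem : ∀ i, ¬ (a i = p ∨ b i = p) →
        c * L (((b i : ℚ) / (a i : ℚ) : ℚ) : PadicAlgCl p) ∈ LtE (logs L) := by
      intro i hi
      obtain ⟨h2, h3, h4⟩ := halg i hi
      rw [← h4]
      exact Pool.Agent.W254.PA.log_memP h3 h2
    obtain ⟨ui, hi0, hi1⟩ := hbase i hi.2
    obtain ⟨uj, hj0, hj1⟩ := hbase j hj.2
    obtain ⟨uk, hk0, hk1⟩ := hbase k hk.2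
    have hd := dep_of hL hca hi0 hj0 hk0 ui uj uk (mem i hi.2) (mem j hj.2) (mem k hk.2)
    have he : Function.Injective (![i, j, k] : Fin 3 → Fin r) := by
      intro u v huv
      fin_cases u <;> fin_cases v <;> simp_all
    have hinj' : Function.Injective (Sum.elim (a ∘ ![i, j, k]) (b ∘ ![i, j, k])) := by
      have h1 : Sum.elim (a ∘ ![i, j, k]) (b ∘ ![i, j, k]) =
          Sum.elim a b ∘ Sum.map ![i, j, k] ![i, j, k] := by
        funext s
        rcases s with s | s <;> rfl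
      rw [h1]
      exact hinj.comp (Sum.map_injective.mpr ⟨he, he⟩)
    exact not_dep (a ∘ ![i, j, k]) (b ∘ ![i, j, k]) (fun _ => ha _) (fun _ => hb _) hinj' hd

end padic

open Classical in
/-- **The `p`-adic theorem**; `N0` does not depend on the prime. -/
theorem count_padic (ε : ℝ) (hε : 0 < ε) : ∃ N0 : ℕ, ∀ N ≥ N0,
    ∀ (p : ℕ) [Fact p.Prime] (L : PadicAlgCl p → PadicAlgCl p), IsIwasawaLog p L →
    ∀ c : PadicAlgCl p, (∀ r : ℚ, c ≠ r) → ∀ χ : ℕ → PadicAlgCl p,
    (∀ m n, 0 < m → 0 < n → χ (m * n) = χ m * χ n) → (∀ n, 0 < n → χ n ≠ 0) →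
    (∀ n : ℕ, 0 < n → L (χ n) = c * L (n : PadicAlgCl p)) →
    ∀ b s κ : PadicAlgCl p, s ≠ 0 → κ ≠ 0 →
      (((Finset.Icc 1 N).filter (fun n : ℕ =>
        κ * (b + s * L (n : PadicAlgCl p)) * χ n ∈ LtE (logs L))).card : ℝ) ≤ ε * N := by
  obtain ⟨N0, h⟩ := count_gen 3 ε hε
  refine ⟨N0, ?_⟩
  intro N hN p _ L hL c hci χ hχ hχ0 hχL b s κ hs hκ
  refine h N hN (PadicAlgCl p) (LtE (logs L)) (hyp_padic hL)
    (fun n : ℕ => s * L (n : PadicAlgCl p)) χ ?_ hχ hχ0 ?_ b κ hκ
  · intro m n hm hn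
    have hm' : (m : PadicAlgCl p) ≠ 0 := by exact_mod_cast hm.ne'
    have hn' : (n : PadicAlgCl p) ≠ 0 := by exact_mod_cast hn.ne'
    rw [Nat.cast_mul, hL.mul _ _ hm' hn']
    ring
  · intro r a b ha hb hinj hflat
    exact flat_le hL hs hci χ hχ0 hχL a b ha hb hinj hflat

end Pool.Agent.TH160.TowP
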