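import Pool.Agent.TH160.TowP.Kill
import Pool.Agent.TH160.TowP.Main

/-!
# All or almost none of the values lie in a space with the hyperplane property
-/

set_option autoImplicit false

namespace Pool.Agent.TH160.TowP

open Finset Polynomial
open Pool.Agent.W254.Ab (QA mem_QA)
open Pool.Agent.W254.PA (Hyp LtE logs hyp_padic)
open Pool.Agent.W245.PB (IsIwasawaLog brumer)

theorem eval_good {Ω : Type*} [Field Ω] [CharZero Ω] {V : Submodule (QA Ω) Ω} {P : Polynomial Ω}
    (h : Good V P) {y : Ω} (hy : y ∈ V) : P.eval y ∈ V := by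
  obtain ⟨h0, h1, h2⟩ := h
  have hdeg : P.natDegree < 2 := by
    by_contra hcon
    push Not at hcon
    have h3 : P = 0 := leadingCoeff_eq_zero.mp (h2 _ hcon)
    rw [h3] at hcon
    simp at hcon
  rw [eval_eq_sum_range' hdeg, Finset.sum_range_succ, Finset.sum_range_succ,
    Finset.sum_range_zero, zero_add, pow_zero, mul_one, pow_one]
  exact V.add_mem h0 (V_mul h1 hy)

theorem pow_ratio_ne {Ω : Type*} [Field Ω] [CharZero Ω] {a b : ℕ} (ha : 0 < a) (hb : 0 < b)
    (hab : a ≠ b) {j k : ℕ} (hjk : j ≠ k) : ((b : Ω) / (a : Ω)) ^ j ≠ ((b : Ω) / (a : Ω)) ^ k := by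
  intro e1
  have e2 : ((b : ℚ) / (a : ℚ)) ^ j = ((b : ℚ) / (a : ℚ)) ^ k := by
    have : (((((b : ℚ) / (a : ℚ)) ^ j : ℚ)) : Ω) = (((((b : ℚ) / (a : ℚ)) ^ k : ℚ)) : Ω) := by
      push_cast
      exact e1
    exact_mod_cast this
  have hqQ : (0 : ℚ) < b := by exact_mod_cast hb
  have hpQ : (0 : ℚ) < a := by exact_mod_cast ha
  have hne : (b : ℚ) / (a : ℚ) ≠ 1 := by
    intro h3
    rw [div_eq_one_iff_eq hpQ.ne'] at h3
    exact hab (by exact_mod_cast h3.symm)
  exact hjk (pow_right_injective₀ (div_pos hqQ hpQ) hne e2)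

theorem inj3 {r : ℕ} {p q : Fin r → ℕ} (hinj : Function.Injective (Sum.elim p q)) {i j k : Fin r}
    (hij : i ≠ j) (hik : i ≠ k) (hjk : j ≠ k) :
    Function.Injective (Sum.elim (p ∘ ![i, j, k]) (q ∘ ![i, j, k])) := by
  have he : Function.Injective (![i, j, k] : Fin 3 → Fin r) := by
    intro u v huv
    fin_cases u <;> fin_cases v <;> simp_all
  have h1 : Sum.elim (p ∘ ![i, j, k]) (q ∘ ![i, j, k]) =
      Sum.elim p q ∘ Sum.map ![i, j, k] ![i, j, k] := by
    funext s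
    rcases s with s | s <;> rfl
  rw [h1]
  exact hinj.comp (Sum.map_injective.mpr ⟨he, he⟩)

open Classical in
/-- **General theorem.** -/
theorem dicho (K D R : ℕ) (ε : ℝ) (hε : 0 < ε) : ∃ N0 : ℕ, ∀ N ≥ N0,
    ∀ (Ω : Type) [Field Ω] [CharZero Ω] (V : Submodule (QA Ω) Ω), Hyp V →
    ∀ A χ : ℕ → Ω, (∀ m n, 0 < m → 0 < n → A (m * n) = A m + A n) →
    (∀ m n, 0 < m → 0 < n → χ (m * n) = χ m * χ n) → (∀ n, 0 < n → χ n ≠ 0) →
    (∀ n, 0 < n → A n ∈ V) → ∀ Bd : ℕ → ℕ → Prop,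
    (∀ (r : ℕ) (p q : Fin r → ℕ), (∀ i, (p i).Prime) → (∀ i, (q i).Prime) →
      Function.Injective (Sum.elim p q) → (∀ i, Bd (p i) (q i)) → r ≤ R) →
    (∀ a b : ℕ, a.Prime → b.Prime → a ≠ b → ¬ Bd a b →
      Transcendental ℚ (χ b / χ a) ∧ A b ≠ A a) →
    (∀ p q : Fin 3 → ℕ, (∀ i, (p i).Prime) → (∀ i, (q i).Prime) →
      Function.Injective (Sum.elim p q) → (∀ i, ¬ Bd (p i) (q i)) →
      Ind3 (A (q 0) - A (p 0)) (A (q 1) - A (p 1)) (A (q 2) - A (p 2))) →
    ∀ (β σ : Ω) (P : Fin K → Polynomial Ω), (∀ j, Z D (P j)) →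
    ¬ (β = 0 ∧ σ = 0 ∧ ∀ j, Good V (P j)) →
      (((Finset.Icc 1 N).filter (fun n : ℕ =>
        (β + σ * A n) * χ n + ∑ j : Fin K, (n : Ω) ^ (j : ℕ) * (P j).eval (A n) ∈ V)).card : ℝ) ≤
        ε * N := by
  set M : ℕ := 39 + K * D + D + 5 with hM
  obtain ⟨x0, hx0⟩ := Pool.Agent.H297R2.dense_cube (M + R) ε hε 1
  refine ⟨x0, ?_⟩
  intro N hN Ω _ _ V hV A χ hA hχ hχ0 hAV Bd hR hgood hind β σ P hP hnt
  by_contra hcon
  push Not at hcon
  obtain ⟨a0, p, q, ha0, hp, hq, hinj, hcube⟩ := hx0 N hN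
    ((Finset.Icc 1 N).filter (fun n : ℕ =>
        (β + σ * A n) * χ n + ∑ j : Fin K, (n : Ω) ^ (j : ℕ) * (P j).eval (A n) ∈ V)) (by
      intro n hn
      rw [Finset.mem_filter, Finset.mem_Icc] at hn
      rw [Finset.mem_Ioc]
      omega) hcon.le
  have hpp : ∀ i, 0 < p i := fun i => (hp i).1.pos
  have hqp : ∀ i, 0 < q i := fun i => (hq i).1.pos
  have hpq : ∀ i, p i ≠ q i := fun i h =>
    absurd (hinj (a₁ := Sum.inl i) (a₂ := Sum.inr i) (by simp [h])) (by simp)
  -- the good directions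
  set G : Finset (Fin (M + R)) := Finset.univ.filter fun i => ¬ Bd (p i) (q i) with hG
  have hGc : M ≤ G.card := by
    set B : Finset (Fin (M + R)) := Finset.univ.filter fun i => Bd (p i) (q i) with hB
    have h1 : B.card ≤ R := by
      set e : Fin B.card ↪o Fin (M + R) := B.orderEmbOfFin rfl with he
      refine hR B.card (p ∘ e) (q ∘ e) (fun i => (hp _).1) (fun i => (hq _).1) ?_ ?_
      · have h1 : Sum.elim (p ∘ e) (q ∘ e) = Sum.elim p q ∘ Sum.map e e := by
          funext s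
          rcases s with s | s <;> rfl
        rw [h1]
        exact hinj.comp (Sum.map_injective.mpr ⟨e.injective, e.injective⟩)
      · intro i
        have h0 : ∀ j ∈ B, Bd (p j) (q j) := by
          intro j hj
          rw [hB] at hj
          exact (Finset.mem_filter.mp hj).2
        exact h0 (e i) (Finset.orderEmbOfFin_mem B rfl i)
    have h2 := Finset.card_filter_add_card_filter_not (s := (Finset.univ : Finset (Fin (M + R))))
      (fun i => Bd (p i) (q i))
    rw [Finset.card_univ, Fintype.card_fin] at h2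
    rw [hG]
    rw [hB] at h1
    omega
  have hGm : ∀ i ∈ G, ¬ Bd (p i) (q i) := by
    intro i hi
    rw [hG] at hi
    exact (Finset.mem_filter.mp hi).2
  set t : Fin (M + R) → Ω := fun i => χ (q i) / χ (p i) with ht
  set l : Fin (M + R) → Ω := fun i => A (q i) - A (p i) with hl
  set x : Fin (M + R) → Ω := fun i => (q i : Ω) / (p i : Ω) with hx
  set Y0 : Ω := A a0 + ∑ i, A (p i) with hY0
  set χ0 : Ω := χ a0 * ∏ i, χ (p i) with hχ00
  set n0 : Ω := (a0 : Ω) * ∏ i, (p i : Ω) with hn0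
  have hpΩ : ∀ i, (p i : Ω) ≠ 0 := fun i => by exact_mod_cast (hpp i).ne'
  have hqΩ : ∀ i, (q i : Ω) ≠ 0 := fun i => by exact_mod_cast (hqp i).ne'
  have ha0Ω : (a0 : Ω) ≠ 0 := by exact_mod_cast ha0.ne'
  have hn00 : n0 ≠ 0 := mul_ne_zero ha0Ω (Finset.prod_ne_zero_iff.mpr fun i _ => hpΩ i)
  have hχ0' : χ0 ≠ 0 :=
    mul_ne_zero (hχ0 _ ha0) (Finset.prod_ne_zero_iff.mpr fun i _ => hχ0 _ (hpp i))
  have htr : ∀ i ∈ G, Transcendental ℚ (t i) := fun i hi =>
    (hgood _ _ (hp i).1 (hq i).1 (hpq i) (hGm i hi)).1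
  have hl0 : ∀ i ∈ G, l i ≠ 0 := fun i hi =>
    sub_ne_zero.mpr (hgood _ _ (hp i).1 (hq i).1 (hpq i) (hGm i hi)).2
  have hlV : ∀ i, l i ∈ V := fun i => V.sub_mem (hAV _ (hqp i)) (hAV _ (hpp i))
  have hY0V : Y0 ∈ V := V.add_mem (hAV _ ha0) (V.sum_mem fun i _ => hAV _ (hpp i))
  have hg3 : Gen3 l G := by
    intro i hi j hj k hk hij hik hjk
    have hinj' := inj3 hinj hij hik hjk
    exact hind (p ∘ ![i, j, k]) (q ∘ ![i, j, k]) (fun _ => (hp _).1) (fun _ => (hq _).1) hinj' (by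
      intro s
      fin_cases s
      · exact hGm i hi
      · exact hGm j hj
      · exact hGm k hk)
  have hxa : ∀ i, IsAlgebraic ℚ (x i) := fun i => by
    rw [hx]
    exact AD (isAlgebraic_natCast _) (isAlgebraic_natCast _)
  have hx0' : ∀ i, x i ≠ 0 := fun i => div_ne_zero (hqΩ i) (hpΩ i)
  -- the values on the cube
  have hval : ∀ T ⊆ G, ((β + σ * Y0) + ∑ i ∈ T, σ * l i) * (χ0 * ∏ i ∈ T, t i) +
      E (fun j : Fin K => n0 ^ (j : ℕ)) (fun (j : Fin K) i => x i ^ (j : ℕ)) l Y0 P T ∈ V := by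
    intro T _
    have h1 := (Finset.mem_filter.mp (hcube T)).2
    have hf : ∀ i, 0 < (if i ∈ T then q i else p i) := by
      intro i
      split_ifs
      · exact hqp i
      · exact hpp i
    have e1 : A (a0 * ∏ i, (if i ∈ T then q i else p i)) = Y0 + ∑ i ∈ T, l i := by
      rw [hA _ _ ha0 (Finset.prod_pos fun i _ => hf i), add_prod hA _ _ hf]
      have : ∀ i, A (if i ∈ T then q i else p i) = if i ∈ T then A (q i) else A (p i) :=
        fun i => by split_ifs <;> rfl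
      simp only [this]
      rw [sum_cube, hY0]
      ring
    have e2 : χ (a0 * ∏ i, (if i ∈ T then q i else p i)) = χ0 * ∏ i ∈ T, t i := by
      rw [hχ _ _ ha0 (Finset.prod_pos fun i _ => hf i), mul_prod hχ hχ0 _ _ hf]
      have : ∀ i, χ (if i ∈ T then q i else p i) = if i ∈ T then χ (q i) else χ (p i) :=
        fun i => by split_ifs <;> rfl
      simp only [this]
      rw [prod_cube T _ _ (fun i => hχ0 _ (hpp i)), hχ00]
      ring
    have e3 : ((a0 * ∏ i, (if i ∈ T then q i else p i) : ℕ) : Ω) = n0 * ∏ i ∈ T, x i := by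
      rw [Nat.cast_mul, Nat.cast_prod]
      have : ∀ i, ((if i ∈ T then q i else p i : ℕ) : Ω) =
          if i ∈ T then (q i : Ω) else (p i : Ω) := fun i => by split_ifs <;> rfl
      simp only [this]
      rw [prod_cube T _ _ hpΩ, hn0]
      ring
    rw [e1, e2, e3] at h1
    unfold E
    convert h1 using 2
    · rw [← Finset.mul_sum]
      ring
    · apply Finset.sum_congr rfl
      intro j _
      rw [mul_pow, Finset.prod_pow]
  by_cases hmain : β = 0 ∧ σ = 0
  · obtain ⟨hβ, hσ⟩ := hmain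
    have hex : ∃ j0, ¬ Good V (P j0) := by
      by_contra hall
      push Not at hall
      exact hnt ⟨hβ, hσ, hall⟩
    obtain ⟨j0, hj0⟩ := hex
    apply hj0
    refine part2 hV l (fun j : Fin K => n0 ^ (j : ℕ)) (fun (j : Fin K) i => x i ^ (j : ℕ)) Y0 j0 D
      ?_ (pow_ne_zero _ hn00) hY0V (∑ j ∈ Finset.univ.erase j0, D) G (fun _ => D) P rfl
      (fun j _ => hP j) (hP j0) ?_ hg3 (fun i _ => hlV i) hl0 (fun j i _ => (hxa i).pow _)
      (fun i _ => pow_ne_zero _ (hx0' i)) ?_ ?_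
    · refine IsAlgebraic.pow ?_ _
      have : n0 = ((a0 * ∏ i, p i : ℕ) : Ω) := by
        rw [hn0]
        push_cast
        rfl
      rw [this]
      exact isAlgebraic_natCast _
    · have h1 : ∑ j ∈ (Finset.univ : Finset (Fin K)).erase j0, D ≤ K * D := by
        rw [Finset.sum_const, smul_eq_mul]
        apply Nat.mul_le_mul_right
        refine (Finset.card_le_card (Finset.erase_subset _ _)).trans ?_
        simp
      omega
    · intro j hj i _ hh
      have hjj : (j0 : ℕ) ≠ (j : ℕ) := fun h => hj (Fin.ext h.symm)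
      exact pow_ratio_ne (Ω := Ω) (hpp i) (hqp i) (hpq i) hjj hh
    · intro T hT
      have h1 := hval T hT
      have h2 : ((β + σ * Y0) + ∑ i ∈ T, σ * l i) * (χ0 * ∏ i ∈ T, t i) = 0 := by
        rw [hβ, hσ, zero_mul, add_zero, zero_add, Finset.sum_eq_zero (fun i _ => zero_mul _),
          zero_mul]
      rw [h2, zero_add] at h1
      exact h1
  · refine part1 hV t l (fun j : Fin K => n0 ^ (j : ℕ)) (fun (j : Fin K) i => x i ^ (j : ℕ)) Y0 σ
      (∑ j : Fin K, D) G (fun _ => D) P (β + σ * Y0) χ0 rfl hP ?_ hχ0' ?_ htr hl0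
      (fun j i _ => (hxa i).pow _) hval
    · have h1 : ∑ _j : Fin K, D = K * D := by simp
      omega
    · by_cases hσ : σ = 0
      · left
        rw [hσ, zero_mul, add_zero]
        intro hβ
        exact hmain ⟨hβ, hσ⟩
      · exact Or.inr hσ

end Pool.Agent.TH160.TowP
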