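import Pool.Agent.TH160.TowP.Dicho

/-!
# The `p`-adic theorem: all or almost none of the values are linear forms in logarithms
-/

set_option autoImplicit false

namespace Pool.Agent.TH160.TowP

open Finset Polynomial
open Pool.Agent.W254.Ab (QA mem_QA)
open Pool.Agent.W254.PA (Hyp LtE logs hyp_padic)
open Pool.Agent.W245.PB (IsIwasawaLog brumer)
open Pool.Agent.TH293.APP (U lp_eq_zero dep_of indep_lp)
open Pool.Agent.TH293.AP (Dep)

section padic

variable {p : ℕ} [hp : Fact p.Prime] {L : PadicAlgCl p → PadicAlgCl p} (hL : IsIwasawaLog p L)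

/-- the exceptional directions -/
def BdP (p : ℕ) [Fact p.Prime] (χ : ℕ → PadicAlgCl p) (a b : ℕ) : Prop :=
  a = p ∨ b = p ∨ IsAlgebraic ℚ (χ b / χ a)

include hL in
/-- at most three exceptional directions -/
theorem bd_le {c : PadicAlgCl p} (hci : ∀ r : ℚ, c ≠ r) (χ : ℕ → PadicAlgCl p)
    (hχ0 : ∀ n, 0 < n → χ n ≠ 0) (hχL : ∀ n : ℕ, 0 < n → L (χ n) = c * L (n : PadicAlgCl p))
    {r : ℕ} (a b : Fin r → ℕ) (ha : ∀ i, (a i).Prime) (hb : ∀ i, (b i).Prime)
    (hinj : Function.Injective (Sum.elim a b))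
    (h : ∀ i, BdP p χ (a i) (b i)) : r ≤ 3 := by
  classical
  by_contra hcon
  -- the directions containing `p`
  set B : Finset (Fin r) := Finset.univ.filter fun i => a i = p ∨ b i = p with hB
  have hBc : B.card ≤ 1 := by
    rw [Finset.card_le_one]
    intro i hi j hj
    rw [hB, Finset.mem_filter] at hi hj
    rcases hi.2 with h1 | h1 <;> rcases hj.2 with h2 | h2
    · exact Sum.inl_injective (hinj (a₁ := Sum.inl i) (a₂ := Sum.inl j) (by simp [h1, h2]))
    · exact absurd (hinj (a₁ := Sum.inl i) (a₂ := Sum.inr j) (by simp [h1, h2])) (by simp)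
    · exact absurd (hinj (a₁ := Sum.inr i) (a₂ := Sum.inl j) (by simp [h1, h2])) (by simp)
    · exact Sum.inr_injective (hinj (a₁ := Sum.inr i) (a₂ := Sum.inr j) (by simp [h1, h2]))
  have hGc : 2 < (Finset.univ.filter fun i => ¬ (a i = p ∨ b i = p)).card := by
    have h2 := Finset.card_filter_add_card_filter_not (s := (Finset.univ : Finset (Fin r)))
      (fun i => a i = p ∨ b i = p)
    rw [Finset.card_univ, Fintype.card_fin] at h2
    rw [hB] at hBc
    omega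
  rw [Finset.two_lt_card] at hGc
  obtain ⟨i, hi, j, hj, k, hk, hij, hik, hjk⟩ := hGc
  rw [Finset.mem_filter] at hi hj hk
  have hbase : ∀ i, ¬ (a i = p ∨ b i = p) → U p ((b i : ℚ) / (a i : ℚ)) ∧
      0 < (b i : ℚ) / (a i : ℚ) ∧ (b i : ℚ) / (a i : ℚ) ≠ 1 := by
    intro i hi
    rw [not_or] at hi
    have h1 : (0 : ℚ) < a i := by exact_mod_cast (ha i).pos
    have h2 : (0 : ℚ) < b i := by exact_mod_cast (hb i).pos
    refine ⟨unit_quot (ha i) (hb i) hi.1 hi.2, div_pos h2 h1, ?_⟩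
    intro h3
    rw [div_eq_one_iff_eq h1.ne'] at h3
    have h4 : b i = a i := by exact_mod_cast h3
    exact absurd (hinj (a₁ := Sum.inl i) (a₂ := Sum.inr i) (by simp [h4])) (by simp)
  have halg : ∀ i, ¬ (a i = p ∨ b i = p) → IsAlgebraic ℚ (χ (b i) / χ (a i)) ∧
      χ (b i) / χ (a i) ≠ 0 ∧
      L (χ (b i) / χ (a i)) = c * L (((b i : ℚ) / (a i : ℚ) : ℚ) : PadicAlgCl p) := by
    intro i hi
    have e0 := hχ0 (a i) (ha i).pos
    have e1 := hχ0 (b i) (hb i).pos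
    have e2 : L (χ (b i) / χ (a i)) = c * L (((b i : ℚ) / (a i : ℚ) : ℚ) : PadicAlgCl p) := by
      rw [log_quot hL (ha i).pos (hb i).pos, div_eq_mul_inv, hL.mul _ _ e1 (inv_ne_zero e0),
        hL.inv e0, hχL _ (ha i).pos, hχL _ (hb i).pos]
      ring
    refine ⟨?_, div_ne_zero e1 e0, e2⟩
    rcases h i with h2 | h2 | h2
    · exact absurd (Or.inl h2) hi
    · exact absurd (Or.inr h2) hi
    · exact h2
  by_cases hca : IsAlgebraic ℚ c
  · obtain ⟨u, h0, h1⟩ := hbase i hi.2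
    obtain ⟨h2, h3, h4⟩ := halg i hi.2
    exact not_alg hL hca hci h0 h1 u h3 h4 h2
  · have mem : ∀ i, ¬ (a i = p ∨ b i = p) →
        c * L (((b i : ℚ) / (a i : ℚ) : ℚ) : PadicAlgCl p) ∈ LtE (logs L) := by
      intro i hi
      obtain ⟨h2, h3, h4⟩ := halg i hi
      rw [← h4]
      exact Pool.Agent.W254.PA.log_memP h3 h2
    obtain ⟨ui, hi0, hi1⟩ := hbase i hi.2
    obtain ⟨uj, hj0, hj1⟩ := hbase j hj.2
    obtain ⟨uk, hk0, hk1⟩ := hbase k hk.2
    have hd := dep_of hL hca hi0 hj0 hk0 ui uj uk (mem i hi.2) (mem j hj.2) (mem k hk.2)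
    exact not_dep (a ∘ ![i, j, k]) (b ∘ ![i, j, k]) (fun _ => ha _) (fun _ => hb _)
      (inj3 hinj hij hik hjk) hd

include hL in
/-- independence of three logarithms -/
theorem ind3_padic (a b : Fin 3 → ℕ) (ha : ∀ i, (a i).Prime) (hb : ∀ i, (b i).Prime)
    (hinj : Function.Injective (Sum.elim a b)) (hap : ∀ i, a i ≠ p) (hbp : ∀ i, b i ≠ p) :
    Ind3 (L (b 0 : PadicAlgCl p) - L (a 0 : PadicAlgCl p))
      (L (b 1 : PadicAlgCl p) - L (a 1 : PadicAlgCl p))
      (L (b 2 : PadicAlgCl p) - L (a 2 : PadicAlgCl p)) := by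
  intro u v w hu hv hw hs
  have h1 : ∀ i, (0 : ℚ) < (b i : ℚ) / (a i : ℚ) := fun i =>
    div_pos (by exact_mod_cast (hb i).pos) (by exact_mod_cast (ha i).pos)
  have hun : ∀ i, U p ((b i : ℚ) / (a i : ℚ)) := fun i =>
    unit_quot (ha i) (hb i) (hap i) (hbp i)
  have hli := indep_lp hL (h1 0) (h1 1) (h1 2) (hun 0) (hun 1) (hun 2) (not_dep a b ha hb hinj)
  have hb' := (brumer hL (![(((b 0 : ℚ) / (a 0 : ℚ) : ℚ) : PadicAlgCl p),
    (((b 1 : ℚ) / (a 1 : ℚ) : ℚ) : PadicAlgCl p),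
    (((b 2 : ℚ) / (a 2 : ℚ) : ℚ) : PadicAlgCl p)] : Fin 3 → PadicAlgCl p) (by
      intro i
      fin_cases i
      · exact Rat.cast_ne_zero.mpr (h1 0).ne'
      · exact Rat.cast_ne_zero.mpr (h1 1).ne'
      · exact Rat.cast_ne_zero.mpr (h1 2).ne') (by
      intro i
      fin_cases i
      · exact isAlgebraic_algebraMap ((b 0 : ℚ) / (a 0 : ℚ))
      · exact isAlgebraic_algebraMap ((b 1 : ℚ) / (a 1 : ℚ))
      · exact isAlgebraic_algebraMap ((b 2 : ℚ) / (a 2 : ℚ))) hli 0 isAlgebraic_zero ![u, v, w] (by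
      intro i
      fin_cases i
      · exact hu
      · exact hv
      · exact hw) (by
      rw [Fin.sum_univ_three]
      simp only [Matrix.cons_val_zero, Matrix.cons_val_one, Matrix.cons_val]
      rw [log_quot hL (ha 0).pos (hb 0).pos, log_quot hL (ha 1).pos (hb 1).pos,
        log_quot hL (ha 2).pos (hb 2).pos, zero_add]
      exact hs)).2
  exact ⟨hb' 0, hb' 1, hb' 2⟩

include hL in
theorem log_ne {a b : ℕ} (ha : a.Prime) (hb : b.Prime) (hab : a ≠ b) (hap : a ≠ p)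
    (hbp : b ≠ p) : L (b : PadicAlgCl p) ≠ L (a : PadicAlgCl p) := by
  intro h
  have h1 : (0 : ℚ) < a := by exact_mod_cast ha.pos
  have h2 : (0 : ℚ) < b := by exact_mod_cast hb.pos
  have h3 := lp_eq_zero hL (div_pos h2 h1) (unit_quot ha hb hap hbp) (by
    rw [log_quot hL ha.pos hb.pos, h, sub_self])
  rw [div_eq_one_iff_eq h1.ne'] at h3
  exact hab (by exact_mod_cast h3.symm)

end padic

open Classical in
/-- the `p`-adic theorem; `N0` depends only on `ε`, `K` and `D` -/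
theorem dicho_padic (K D : ℕ) (ε : ℝ) (hε : 0 < ε) : ∃ N0 : ℕ, ∀ N ≥ N0,
    ∀ (p : ℕ) [Fact p.Prime] (L : PadicAlgCl p → PadicAlgCl p), IsIwasawaLog p L →
    ∀ c : PadicAlgCl p, (∀ r : ℚ, c ≠ r) → ∀ χ : ℕ → PadicAlgCl p,
    (∀ m n, 0 < m → 0 < n → χ (m * n) = χ m * χ n) → (∀ n, 0 < n → χ n ≠ 0) →
    (∀ n : ℕ, 0 < n → L (χ n) = c * L (n : PadicAlgCl p)) →
    ∀ (β σ : PadicAlgCl p) (P : Fin K → Polynomial (PadicAlgCl p)), (∀ j, Z D (P j)) →
    ¬ (β = 0 ∧ σ = 0 ∧ ∀ j, Good (LtE (logs L)) (P j)) →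
      (((Finset.Icc 1 N).filter (fun n : ℕ =>
        (β + σ * L (n : PadicAlgCl p)) * χ n +
          ∑ j : Fin K, (n : PadicAlgCl p) ^ (j : ℕ) * (P j).eval (L (n : PadicAlgCl p)) ∈
            LtE (logs L))).card : ℝ) ≤ ε * N := by
  obtain ⟨N0, h⟩ := dicho K D 3 ε hε
  refine ⟨N0, ?_⟩
  intro N hN p _ L hL c hci χ hχ hχ0 hχL β σ P hP hnt
  refine h N hN (PadicAlgCl p) (LtE (logs L)) (hyp_padic hL)
    (fun n : ℕ => L (n : PadicAlgCl p)) χ ?_ hχ hχ0 ?_ (BdP p χ) ?_ ?_ ?_ β σ P hP hnt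
  · intro m n hm hn
    have hm' : (m : PadicAlgCl p) ≠ 0 := by exact_mod_cast hm.ne'
    have hn' : (n : PadicAlgCl p) ≠ 0 := by exact_mod_cast hn.ne'
    rw [Nat.cast_mul, hL.mul _ _ hm' hn']
  · intro n hn
    have hn' : (n : PadicAlgCl p) ≠ 0 := by exact_mod_cast hn.ne'
    exact Pool.Agent.W254.PA.log_memP hn' (isAlgebraic_natCast n)
  · intro r a b ha hb hinj hflat
    exact bd_le hL hci χ hχ0 hχL a b ha hb hinj hflat
  · intro a b ha hb hab hbd
    unfold BdP at hbd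
    push Not at hbd
    exact ⟨hbd.2.2, log_ne hL ha hb hab hbd.1 hbd.2.1⟩
  · intro a b ha hb hinj hbd
    have h1 : ∀ i, a i ≠ p ∧ b i ≠ p := by
      intro i
      have := hbd i
      unfold BdP at this
      push Not at this
      exact ⟨this.1, this.2.1⟩
    exact ind3_padic hL a b ha hb hinj (fun i => (h1 i).1) (fun i => (h1 i).2)

end Pool.Agent.TH160.TowP
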