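import Pool.Agent.TH160.TowP.Core
import Pool.Agent.TH160.TowP.PDicho

/-!
# All or almost none: several characters
-/

set_option autoImplicit false

namespace Pool.Agent.TH160.TowP

open Finset Polynomial
open Pool.Agent.W254.Ab (QA mem_QA)
open Pool.Agent.W254.PA (Hyp LtE logs hyp_padic)
open Pool.Agent.W245.PB (IsIwasawaLog brumer)

open Classical in
/-- **General theorem.** -/
theorem dichoG (m K D R : ℕ) (ε : ℝ) (hε : 0 < ε) : ∃ N0 : ℕ, ∀ N ≥ N0,
    ∀ (Ω : Type) [Field Ω] [CharZero Ω] (V : Submodule (QA Ω) Ω), Hyp V →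
    ∀ (A : ℕ → Ω) (χ : Fin m → ℕ → Ω), (∀ m n, 0 < m → 0 < n → A (m * n) = A m + A n) →
    (∀ i m n, 0 < m → 0 < n → χ i (m * n) = χ i m * χ i n) → (∀ i n, 0 < n → χ i n ≠ 0) →
    (∀ n, 0 < n → A n ∈ V) → ∀ Bd : ℕ → ℕ → Prop,
    (∀ (r : ℕ) (p q : Fin r → ℕ), (∀ i, (p i).Prime) → (∀ i, (q i).Prime) →
      Function.Injective (Sum.elim p q) → (∀ i, Bd (p i) (q i)) → r ≤ R) →
    (∀ a b : ℕ, a.Prime → b.Prime → a ≠ b → ¬ Bd a b →
      (∀ i, Transcendental ℚ (χ i b / χ i a)) ∧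
        (∀ i i', i ≠ i' → χ i b / χ i a ≠ χ i' b / χ i' a) ∧ A b ≠ A a) →
    (∀ p q : Fin 3 → ℕ, (∀ i, (p i).Prime) → (∀ i, (q i).Prime) →
      Function.Injective (Sum.elim p q) → (∀ i, ¬ Bd (p i) (q i)) →
      Ind3 (A (q 0) - A (p 0)) (A (q 1) - A (p 1)) (A (q 2) - A (p 2))) →
    ∀ (B : Fin m → Polynomial Ω) (P : Fin K → Polynomial Ω), (∀ i, Z D (B i)) →
    (∀ j, Z D (P j)) → ¬ ((∀ i, B i = 0) ∧ ∀ j, Good V (P j)) →
      (((Finset.Icc 1 N).filter (fun n : ℕ =>
        ∑ i : Fin m, χ i n * (B i).eval (A n) + ∑ j : Fin K, (n : Ω) ^ (j : ℕ) * (P j).eval (A n) ∈ V)).card : ℝ) ≤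
        ε * N := by
  set M : ℕ := NN m D + K * D + D + 5 with hM
  obtain ⟨x0, hx0⟩ := Pool.Agent.H297R2.dense_cube (M + R) ε hε 1
  refine ⟨x0, ?_⟩
  intro N hN Ω _ _ V hV A χ hA hχ hχ0 hAV Bd hR hgood hind B P hB hP hnt
  by_contra hcon
  push Not at hcon
  obtain ⟨a0, p, q, ha0, hp, hq, hinj, hcube⟩ := hx0 N hN
    ((Finset.Icc 1 N).filter (fun n : ℕ =>
        ∑ i : Fin m, χ i n * (B i).eval (A n) + ∑ j : Fin K, (n : Ω) ^ (j : ℕ) * (P j).eval (A n) ∈ V)) (by
      intro n hn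
      rw [Finset.mem_filter, Finset.mem_Icc] at hn
      rw [Finset.mem_Ioc]
      omega) hcon.le
  have hpp : ∀ i, 0 < p i := fun i => (hp i).1.pos
  have hqp : ∀ i, 0 < q i := fun i => (hq i).1.pos
  have hpq : ∀ i, p i ≠ q i := fun i h =>
    absurd (hinj (a₁ := Sum.inl i) (a₂ := Sum.inr i) (by simp [h])) (by simp)
  -- the good directions
  set G : Finset (Fin (M + R)) := Finset.univ.filter fun i => ¬ Bd (p i) (q i) with hG
  have hGc : M ≤ G.card := by
    set B' : Finset (Fin (M + R)) := Finset.univ.filter fun i => Bd (p i) (q i) with hB'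
    have h1 : B'.card ≤ R := by
      set e : Fin B'.card ↪o Fin (M + R) := B'.orderEmbOfFin rfl with he
      refine hR B'.card (p ∘ e) (q ∘ e) (fun i => (hp _).1) (fun i => (hq _).1) ?_ ?_
      · have h1 : Sum.elim (p ∘ e) (q ∘ e) = Sum.elim p q ∘ Sum.map e e := by
          funext s
          rcases s with s | s <;> rfl
        rw [h1]
        exact hinj.comp (Sum.map_injective.mpr ⟨e.injective, e.injective⟩)
      · intro i
        have h0 : ∀ j ∈ B', Bd (p j) (q j) := by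
          intro j hj
          rw [hB'] at hj
          exact (Finset.mem_filter.mp hj).2
        exact h0 (e i) (Finset.orderEmbOfFin_mem B' rfl i)
    have h2 := Finset.card_filter_add_card_filter_not (s := (Finset.univ : Finset (Fin (M + R))))
      (fun i => Bd (p i) (q i))
    rw [Finset.card_univ, Fintype.card_fin] at h2
    rw [hG]
    rw [hB'] at h1
    omega
  have hGm : ∀ i ∈ G, ¬ Bd (p i) (q i) := by
    intro i hi
    rw [hG] at hi
    exact (Finset.mem_filter.mp hi).2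
  set t : Fin m → Fin (M + R) → Ω := fun k i => χ k (q i) / χ k (p i) with ht
  set l : Fin (M + R) → Ω := fun i => A (q i) - A (p i) with hl
  set x : Fin (M + R) → Ω := fun i => (q i : Ω) / (p i : Ω) with hx
  set Y0 : Ω := A a0 + ∑ i, A (p i) with hY0
  set χ0 : Fin m → Ω := fun k => χ k a0 * ∏ i, χ k (p i) with hχ00
  set n0 : Ω := (a0 : Ω) * ∏ i, (p i : Ω) with hn0
  have hpΩ : ∀ i, (p i : Ω) ≠ 0 := fun i => by exact_mod_cast (hpp i).ne'
  have hqΩ : ∀ i, (q i : Ω) ≠ 0 := fun i => by exact_mod_cast (hqp i).ne'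
  have ha0Ω : (a0 : Ω) ≠ 0 := by exact_mod_cast ha0.ne'
  have hn00 : n0 ≠ 0 := mul_ne_zero ha0Ω (Finset.prod_ne_zero_iff.mpr fun i _ => hpΩ i)
  have hχ0' : ∀ k, χ0 k ≠ 0 := fun k =>
    mul_ne_zero (hχ0 k _ ha0) (Finset.prod_ne_zero_iff.mpr fun i _ => hχ0 k _ (hpp i))
  have htr : ∀ k, ∀ i ∈ G, Transcendental ℚ (t k i) := fun k i hi =>
    (hgood _ _ (hp i).1 (hq i).1 (hpq i) (hGm i hi)).1 k
  have htne : ∀ k k', k ≠ k' → ∀ i ∈ G, t k i ≠ t k' i := fun k k' hk i hi =>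
    (hgood _ _ (hp i).1 (hq i).1 (hpq i) (hGm i hi)).2.1 k k' hk
  have hl0 : ∀ i ∈ G, l i ≠ 0 := fun i hi =>
    sub_ne_zero.mpr (hgood _ _ (hp i).1 (hq i).1 (hpq i) (hGm i hi)).2.2
  have hlV : ∀ i, l i ∈ V := fun i => V.sub_mem (hAV _ (hqp i)) (hAV _ (hpp i))
  have hY0V : Y0 ∈ V := V.add_mem (hAV _ ha0) (V.sum_mem fun i _ => hAV _ (hpp i))
  have hg3 : Gen3 l G := by
    intro i hi j hj k hk hij hik hjk
    have hinj' := inj3 hinj hij hik hjk
    exact hind (p ∘ ![i, j, k]) (q ∘ ![i, j, k]) (fun _ => (hp _).1) (fun _ => (hq _).1) hinj' (by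
      intro s
      fin_cases s
      · exact hGm i hi
      · exact hGm j hj
      · exact hGm k hk)
  have hxa : ∀ i, IsAlgebraic ℚ (x i) := fun i => by
    rw [hx]
    exact AD (isAlgebraic_natCast _) (isAlgebraic_natCast _)
  have hx0' : ∀ i, x i ≠ 0 := fun i => div_ne_zero (hqΩ i) (hpΩ i)
  -- the values on the cube
  have hval : ∀ T ⊆ G, E χ0 t l Y0 B T +
      E (fun j : Fin K => n0 ^ (j : ℕ)) (fun (j : Fin K) i => x i ^ (j : ℕ)) l Y0 P T ∈ V := by
    intro T _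
    have h1 := (Finset.mem_filter.mp (hcube T)).2
    have hf : ∀ i, 0 < (if i ∈ T then q i else p i) := by
      intro i
      split_ifs
      · exact hqp i
      · exact hpp i
    have e1 : A (a0 * ∏ i, (if i ∈ T then q i else p i)) = Y0 + ∑ i ∈ T, l i := by
      rw [hA _ _ ha0 (Finset.prod_pos fun i _ => hf i), add_prod hA _ _ hf]
      have : ∀ i, A (if i ∈ T then q i else p i) = if i ∈ T then A (q i) else A (p i) :=
        fun i => by split_ifs <;> rfl
      simp only [this]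
      rw [sum_cube, hY0]
      ring
    have e2 : ∀ k, χ k (a0 * ∏ i, (if i ∈ T then q i else p i)) = χ0 k * ∏ i ∈ T, t k i := by
      intro k
      rw [hχ k _ _ ha0 (Finset.prod_pos fun i _ => hf i), mul_prod (hχ k) (hχ0 k) _ _ hf]
      have : ∀ i, χ k (if i ∈ T then q i else p i) = if i ∈ T then χ k (q i) else χ k (p i) :=
        fun i => by split_ifs <;> rfl
      simp only [this]
      rw [prod_cube T _ _ (fun i => hχ0 k _ (hpp i)), hχ00]
      ring
    have e3 : ((a0 * ∏ i, (if i ∈ T then q i else p i) : ℕ) : Ω) = n0 * ∏ i ∈ T, x i := by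
      rw [Nat.cast_mul, Nat.cast_prod]
      have : ∀ i, ((if i ∈ T then q i else p i : ℕ) : Ω) =
          if i ∈ T then (q i : Ω) else (p i : Ω) := fun i => by split_ifs <;> rfl
      simp only [this]
      rw [prod_cube T _ _ hpΩ, hn0]
      ring
    simp only [e2] at h1
    rw [e1, e3] at h1
    unfold E
    convert h1 using 2
    apply Finset.sum_congr rfl
    intro j _
    rw [mul_pow, Finset.prod_pow]
  have hmain : ∀ i, B i = 0 := by
    refine part1G hV t l χ0 Y0 D (fun j : Fin K => n0 ^ (j : ℕ))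
      (fun (j : Fin K) i => x i ^ (j : ℕ)) (∑ j : Fin K, D) G (fun _ => D) B P rfl hP hB ?_ htr
      htne hl0 hχ0' (fun j i _ => (hxa i).pow _) hval
    have h1 : ∑ _j : Fin K, D = K * D := by simp
    rw [Fintype.card_fin]
    omega
  have hex : ∃ j0, ¬ Good V (P j0) := by
    by_contra hall
    push Not at hall
    exact hnt ⟨hmain, hall⟩
  obtain ⟨j0, hj0⟩ := hex
  apply hj0
  refine part2 hV l (fun j : Fin K => n0 ^ (j : ℕ)) (fun (j : Fin K) i => x i ^ (j : ℕ)) Y0 j0 D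
    ?_ (pow_ne_zero _ hn00) hY0V (∑ j ∈ Finset.univ.erase j0, D) G (fun _ => D) P rfl
    (fun j _ => hP j) (hP j0) ?_ hg3 (fun i _ => hlV i) hl0 (fun j i _ => (hxa i).pow _)
    (fun i _ => pow_ne_zero _ (hx0' i)) ?_ ?_
  · refine IsAlgebraic.pow ?_ _
    have : n0 = ((a0 * ∏ i, p i : ℕ) : Ω) := by
      rw [hn0]
      push_cast
      rfl
    rw [this]
    exact isAlgebraic_natCast _
  · have h1 : ∑ j ∈ (Finset.univ : Finset (Fin K)).erase j0, D ≤ K * D := by
      rw [Finset.sum_const, smul_eq_mul]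
      apply Nat.mul_le_mul_right
      refine (Finset.card_le_card (Finset.erase_subset _ _)).trans ?_
      simp
    omega
  · intro j hj i _ hh
    have hjj : (j0 : ℕ) ≠ (j : ℕ) := fun h => hj (Fin.ext h.symm)
    exact pow_ratio_ne (Ω := Ω) (hpp i) (hqp i) (hpq i) hjj hh
  · intro T hT
    have h1 := hval T hT
    have h2 : E χ0 t l Y0 B T = 0 := by
      unfold E
      apply Finset.sum_eq_zero
      intro k _
      rw [hmain k, eval_zero, mul_zero]
    rw [h2, zero_add] at h1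
    exact h1

end Pool.Agent.TH160.TowP
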