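import Pool.Agent.TH160.TowP.Core
import Pool.Agent.TH160.TowP.PDicho
import Pool.Agent.TH681.QC.Rate

/-!
# All or almost none, with a rate: characters of both types
-/

set_option autoImplicit false

namespace Pool.Agent.TH160.TowP

open Finset Polynomial
open Pool.Agent.W254.Ab (QA mem_QA)
open Pool.Agent.W254.PA (Hyp)
open Pool.Agent.TH681.QC (er cubes_er)

theorem NN_mono {c c' D : ℕ} (h : c ≤ c') : NN c D ≤ NN c' D := by
  have h1 : kk c D ≤ kk c' D := by
    unfold kk
    have := Nat.mul_le_mul_right (D + 1) h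
    omega
  unfold NN
  have h2 : 2 ^ kk c D ≤ 2 ^ kk c' D := Nat.pow_le_pow_right (by norm_num) h1
  have h3 : (2 ^ kk c D) ^ 3 ≤ (2 ^ kk c' D) ^ 3 := Nat.pow_le_pow_left h2 3
  omega

open Classical in
/-- **General theorem.** -/
theorem full (m D R : ℕ) : ∃ C : ℕ, ∀ N ≥ 16,
    ∀ (Ω : Type) [Field Ω] [CharZero Ω] (V : Submodule (QA Ω) Ω), Hyp V →
    ∀ (A : ℕ → Ω) (χ : Fin m → ℕ → Ω), (∀ m n, 0 < m → 0 < n → A (m * n) = A m + A n) →
    (∀ i m n, 0 < m → 0 < n → χ i (m * n) = χ i m * χ i n) → (∀ i n, 0 < n → χ i n ≠ 0) →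
    (∀ n, 0 < n → A n ∈ V) → ∀ al : Fin m → Prop,
    (∀ i, al i → ∀ n, 0 < n → IsAlgebraic ℚ (χ i n)) → ∀ Bd : ℕ → ℕ → Prop,
    (∀ (r : ℕ) (p q : Fin r → ℕ), (∀ i, (p i).Prime) → (∀ i, (q i).Prime) →
      Function.Injective (Sum.elim p q) → (∀ i, Bd (p i) (q i)) → r ≤ R) →
    (∀ a b : ℕ, a.Prime → b.Prime → a ≠ b → ¬ Bd a b →
      (∀ i, ¬ al i → Transcendental ℚ (χ i b / χ i a)) ∧
        (∀ i i', i ≠ i' → χ i b / χ i a ≠ χ i' b / χ i' a) ∧ A b ≠ A a) →
    (∀ p q : Fin 3 → ℕ, (∀ i, (p i).Prime) → (∀ i, (q i).Prime) →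
      Function.Injective (Sum.elim p q) → (∀ i, ¬ Bd (p i) (q i)) →
      Ind3 (A (q 0) - A (p 0)) (A (q 1) - A (p 1)) (A (q 2) - A (p 2))) →
    ∀ (B : Fin m → Polynomial Ω), (∀ i, Z D (B i)) →
    ¬ (∀ i, (al i → Good V (B i)) ∧ (¬ al i → B i = 0)) →
      (((Finset.Icc 1 N).filter (fun n : ℕ =>
        ∑ i : Fin m, χ i n * (B i).eval (A n) ∈ V)).card : ℝ) ≤
        er C N * N := by
  set M : ℕ := NN m D + m * D + D + 5 with hM
  obtain ⟨x0, hx0⟩ := cubes_er (M + R) 1
  refine ⟨x0, ?_⟩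
  intro N hN Ω _ _ V hV A χ hA hχ hχ0 hAV al halg Bd hR hgood hind B hB hnt
  by_contra hcon
  push Not at hcon
  obtain ⟨a0, p, q, ha0, hp, hq, hinj, hcube⟩ := hx0 N hN
    ((Finset.Icc 1 N).filter (fun n : ℕ =>
        ∑ i : Fin m, χ i n * (B i).eval (A n) ∈ V)) (by
      intro n hn
      rw [Finset.mem_filter, Finset.mem_Icc] at hn
      rw [Finset.mem_Ioc]
      omega) hcon
  have hpp : ∀ i, 0 < p i := fun i => (hp i).1.pos
  have hqp : ∀ i, 0 < q i := fun i => (hq i).1.pos
  have hpq : ∀ i, p i ≠ q i := fun i h =>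
    absurd (hinj (a₁ := Sum.inl i) (a₂ := Sum.inr i) (by simp [h])) (by simp)
  -- the good directions
  set G : Finset (Fin (M + R)) := Finset.univ.filter fun i => ¬ Bd (p i) (q i) with hG
  have hGc : M ≤ G.card := by
    set B' : Finset (Fin (M + R)) := Finset.univ.filter fun i => Bd (p i) (q i) with hB'
    have h1 : B'.card ≤ R := by
      set e : Fin B'.card ↪o Fin (M + R) := B'.orderEmbOfFin rfl with he
      refine hR B'.card (p ∘ e) (q ∘ e) (fun i => (hp _).1) (fun i => (hq _).1) ?_ ?_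
      · have h1 : Sum.elim (p ∘ e) (q ∘ e) = Sum.elim p q ∘ Sum.map e e := by
          funext s
          rcases s with s | s <;> rfl
        rw [h1]
        exact hinj.comp (Sum.map_injective.mpr ⟨e.injective, e.injective⟩)
      · intro i
        have h0 : ∀ j ∈ B', Bd (p j) (q j) := by
          intro j hj
          rw [hB'] at hj
          exact (Finset.mem_filter.mp hj).2
        exact h0 (e i) (Finset.orderEmbOfFin_mem B' rfl i)
    have h2 := Finset.card_filter_add_card_filter_not (s := (Finset.univ : Finset (Fin (M + R))))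
      (fun i => Bd (p i) (q i))
    rw [Finset.card_univ, Fintype.card_fin] at h2
    rw [hG]
    rw [hB'] at h1
    omega
  have hGm : ∀ i ∈ G, ¬ Bd (p i) (q i) := by
    intro i hi
    rw [hG] at hi
    exact (Finset.mem_filter.mp hi).2
  set t : Fin m → Fin (M + R) → Ω := fun k i => χ k (q i) / χ k (p i) with ht
  set l : Fin (M + R) → Ω := fun i => A (q i) - A (p i) with hl
  set Y0 : Ω := A a0 + ∑ i, A (p i) with hY0
  set χ0 : Fin m → Ω := fun k => χ k a0 * ∏ i, χ k (p i) with hχ00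
  have hχ0' : ∀ k, χ0 k ≠ 0 := fun k =>
    mul_ne_zero (hχ0 k _ ha0) (Finset.prod_ne_zero_iff.mpr fun i _ => hχ0 k _ (hpp i))
  have htr : ∀ k, ¬ al k → ∀ i ∈ G, Transcendental ℚ (t k i) := fun k hk i hi =>
    (hgood _ _ (hp i).1 (hq i).1 (hpq i) (hGm i hi)).1 k hk
  have htne : ∀ k k', k ≠ k' → ∀ i ∈ G, t k i ≠ t k' i := fun k k' hk i hi =>
    (hgood _ _ (hp i).1 (hq i).1 (hpq i) (hGm i hi)).2.1 k k' hk
  have hl0 : ∀ i ∈ G, l i ≠ 0 := fun i hi =>
    sub_ne_zero.mpr (hgood _ _ (hp i).1 (hq i).1 (hpq i) (hGm i hi)).2.2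
  have hlV : ∀ i, l i ∈ V := fun i => V.sub_mem (hAV _ (hqp i)) (hAV _ (hpp i))
  have hY0V : Y0 ∈ V := V.add_mem (hAV _ ha0) (V.sum_mem fun i _ => hAV _ (hpp i))
  have hg3 : Gen3 l G := by
    intro i hi j hj k hk hij hik hjk
    have hinj' := inj3 hinj hij hik hjk
    exact hind (p ∘ ![i, j, k]) (q ∘ ![i, j, k]) (fun _ => (hp _).1) (fun _ => (hq _).1) hinj' (by
      intro s
      fin_cases s
      · exact hGm i hi
      · exact hGm j hj
      · exact hGm k hk)
  have hta : ∀ k, al k → ∀ i, IsAlgebraic ℚ (t k i) := fun k hk i =>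
    AD (halg k hk _ (hqp i)) (halg k hk _ (hpp i))
  have ht0 : ∀ k i, t k i ≠ 0 := fun k i => div_ne_zero (hχ0 k _ (hqp i)) (hχ0 k _ (hpp i))
  have hχa : ∀ k, al k → IsAlgebraic ℚ (χ0 k) := by
    intro k hk
    refine (halg k hk _ ha0).mul ?_
    have : ∀ s : Finset (Fin (M + R)), IsAlgebraic ℚ (∏ i ∈ s, χ k (p i)) := by
      intro s
      induction s using Finset.induction_on with
      | empty => rw [Finset.prod_empty]; exact isAlgebraic_one
      | insert a s ha ih =>
        rw [Finset.prod_insert ha]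
        exact (halg k hk _ (hpp a)).mul ih
    exact this _
  -- the values on the cube
  have hval : ∀ T ⊆ G,
      E (fun k : {k // ¬ al k} => χ0 k) (fun (k : {k // ¬ al k}) i => t k i) l Y0
        (fun k => B k) T +
      E (fun k : {k // al k} => χ0 k) (fun (k : {k // al k}) i => t k i) l Y0
        (fun k => B k) T ∈ V := by
    intro T _
    have h1 := (Finset.mem_filter.mp (hcube T)).2
    have hf : ∀ i, 0 < (if i ∈ T then q i else p i) := by
      intro i
      split_ifs
      · exact hqp i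
      · exact hpp i
    have e1 : A (a0 * ∏ i, (if i ∈ T then q i else p i)) = Y0 + ∑ i ∈ T, l i := by
      rw [hA _ _ ha0 (Finset.prod_pos fun i _ => hf i), add_prod hA _ _ hf]
      have : ∀ i, A (if i ∈ T then q i else p i) = if i ∈ T then A (q i) else A (p i) :=
        fun i => by split_ifs <;> rfl
      simp only [this]
      rw [sum_cube, hY0]
      ring
    have e2 : ∀ k, χ k (a0 * ∏ i, (if i ∈ T then q i else p i)) = χ0 k * ∏ i ∈ T, t k i := by
      intro k
      rw [hχ k _ _ ha0 (Finset.prod_pos fun i _ => hf i), mul_prod (hχ k) (hχ0 k) _ _ hf]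
      have : ∀ i, χ k (if i ∈ T then q i else p i) = if i ∈ T then χ k (q i) else χ k (p i) :=
        fun i => by split_ifs <;> rfl
      simp only [this]
      rw [prod_cube T _ _ (fun i => hχ0 k _ (hpp i)), hχ00]
      ring
    simp only [e2] at h1
    rw [e1, ← Fintype.sum_subtype_add_sum_subtype al] at h1
    unfold E
    rw [add_comm]
    exact h1
  have hcard : ∀ (P : Fin m → Prop) [Fintype {k // P k}], Fintype.card {k // P k} ≤ m := by
    intro P _
    have := Fintype.card_le_of_injective (Subtype.val : {k // P k} → Fin m) Subtype.val_injective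
    rwa [Fintype.card_fin] at this
  have hmain : ∀ i, ¬ al i → B i = 0 := by
    intro i hi
    refine part1G hV (fun (k : {k // ¬ al k}) i => t k i) l (fun k : {k // ¬ al k} => χ0 k) Y0 D
      (fun k : {k // al k} => χ0 k) (fun (k : {k // al k}) i => t k i)
      (∑ _j : {k // al k}, D) G (fun _ => D) (fun k => B k) (fun k => B k) rfl (fun j => hB j)
      (fun j => hB j) ?_ (fun k => htr k k.2)
      (fun k k' hk => htne k k' (fun hh => hk (Subtype.ext hh))) hl0 (fun k => hχ0' k)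
      (fun k i _ => hta k k.2 i) hval ⟨i, hi⟩
    have h1 : ∑ _j : {k // al k}, D ≤ m * D := by
      rw [Finset.sum_const, smul_eq_mul, Finset.card_univ]
      exact Nat.mul_le_mul_right _ (hcard al)
    refine le_trans (Nat.add_le_add (NN_mono (hcard _)) h1) ?_
    omega
  have hex : ∃ j0, al j0 ∧ ¬ Good V (B j0) := by
    by_contra hall
    push Not at hall
    exact hnt (fun i => ⟨hall i, hmain i⟩)
  obtain ⟨j0, hj0a, hj0⟩ := hex
  apply hj0
  refine part2 hV l (fun k : {k // al k} => χ0 k) (fun (k : {k // al k}) i => t k i) Y0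
    ⟨j0, hj0a⟩ D (hχa j0 hj0a) (hχ0' j0) hY0V
    (∑ j ∈ (Finset.univ : Finset {k // al k}).erase ⟨j0, hj0a⟩, D) G
    (fun _ => D) (fun k => B k) rfl (fun j _ => hB j) (hB j0) ?_ hg3 (fun i _ => hlV i) hl0
    (fun k i _ => hta k k.2 i) (fun i _ => ht0 j0 i) ?_ ?_
  · have h1 : ∑ j ∈ (Finset.univ : Finset {k // al k}).erase ⟨j0, hj0a⟩, D ≤ m * D := by
      rw [Finset.sum_const, smul_eq_mul]
      apply Nat.mul_le_mul_right
      refine (Finset.card_le_card (Finset.erase_subset _ _)).trans ?_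
      rw [Finset.card_univ]
      exact hcard al
    omega
  · intro j hj i hi
    exact htne j0 j (fun hh => hj (Subtype.ext hh.symm)) i hi
  · intro T hT
    have h1 := hval T hT
    have h2 : E (fun k : {k // ¬ al k} => χ0 k) (fun (k : {k // ¬ al k}) i => t k i) l Y0
        (fun k => B k) T = 0 := by
      unfold E
      apply Finset.sum_eq_zero
      intro k _
      simp only [hmain k k.2, eval_zero, mul_zero]
    rw [h2, zero_add] at h1
    exact h1

end Pool.Agent.TH160.TowP
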