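import Pool.Agent.TH160.TowP.Cube

/-!
# Cubes: adding polynomials in an additive function with algebraic multiplicative coefficients
-/

set_option autoImplicit false

namespace Pool.Agent.TH160.TowP

open Module Finset Polynomial
open Pool.Agent.W254.Ab (QA mem_QA hyperplane')
open Pool.Agent.W254.PA (Hyp)

variable {Ω : Type*} [Field Ω] [CharZero Ω]

/-- the coefficients from `d` on vanish -/
def Z (d : ℕ) (P : Polynomial Ω) : Prop := ∀ m, d ≤ m → P.coeff m = 0

theorem taylor_Z {d : ℕ} {P : Polynomial Ω} (hP : Z d P) (l : Ω) : Z d (taylor l P) := by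
  intro m hm
  rw [taylor_coeff]
  have : hasseDeriv m P = 0 := by
    ext n
    rw [hasseDeriv_coeff, coeff_zero, hP _ (by omega), mul_zero]
  rw [this, eval_zero]

theorem taylor_top {d : ℕ} {P : Polynomial Ω} (hP : Z (d + 1) P) (l : Ω) :
    (taylor l P).coeff d = P.coeff d := by
  rw [taylor_coeff]
  have : hasseDeriv d P = C (P.coeff d) := by
    ext n
    rw [hasseDeriv_coeff]
    cases n with
    | zero => simp
    | succ n => rw [coeff_C_succ, hP _ (by omega), mul_zero]
  rw [this, eval_C]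

theorem taylor_sub' {d : ℕ} {P : Polynomial Ω} (hP : Z (d + 2) P) (l : Ω) :
    (taylor l P).coeff d - P.coeff d = (d + 1) * l * P.coeff (d + 1) := by
  rw [taylor_coeff]
  have : hasseDeriv d P = C (P.coeff d) + C ((d + 1) * P.coeff (d + 1)) * X := by
    ext n
    rw [hasseDeriv_coeff]
    rcases n with _ | _ | n
    · simp
    · have h1 : (0 + 1 + d).choose d = d + 1 := by
        rw [show 0 + 1 + d = d + 1 by ring]
        exact Nat.choose_succ_self_right d
      rw [h1]
      simp [add_comm]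
    · rw [hP _ (by omega), mul_zero]
      simp [coeff_one]
  rw [this]
  simp
  ring

/-- the polynomial `ρ P(X + l) - ρ' P(X)` -/
noncomputable def kop (ρ ρ' l : Ω) (P : Polynomial Ω) : Polynomial Ω :=
  C ρ * taylor l P - C ρ' * P

theorem kop_eval (ρ ρ' l : Ω) (P : Polynomial Ω) (y : Ω) :
    (kop ρ ρ' l P).eval y = ρ * P.eval (y + l) - ρ' * P.eval y := by
  rw [kop, eval_sub, eval_mul, eval_mul, eval_C, eval_C, taylor_eval]

theorem kop_coeff (ρ ρ' l : Ω) (P : Polynomial Ω) (m : ℕ) :
    (kop ρ ρ' l P).coeff m = ρ * (taylor l P).coeff m - ρ' * P.coeff m := by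
  rw [kop, coeff_sub, coeff_C_mul, coeff_C_mul]

theorem kop_Z {d : ℕ} {P : Polynomial Ω} (hP : Z d P) (ρ ρ' l : Ω) : Z d (kop ρ ρ' l P) := by
  intro m hm
  rw [kop_coeff, taylor_Z hP l m hm, hP m hm, mul_zero, mul_zero, sub_zero]

theorem kop_Z' {d : ℕ} {P : Polynomial Ω} (hP : Z (d + 1) P) (ρ l : Ω) : Z d (kop ρ ρ l P) := by
  intro m hm
  rcases Nat.eq_or_lt_of_le hm with h | h
  · subst h
    rw [kop_coeff, taylor_top hP, sub_self]
  · exact kop_Z hP ρ ρ l m h

theorem Z_zero {P : Polynomial Ω} (h : Z 0 P) : P = 0 := by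
  ext m
  rw [h m (Nat.zero_le m), coeff_zero]

theorem Z_natDegree (P : Polynomial Ω) : Z (P.natDegree + 1) P := fun m hm =>
  coeff_eq_zero_of_natDegree_lt (by omega)

/-- the sum of polynomials times multiplicative functions on a cube -/
noncomputable def E {ι κ : Type} [Fintype κ] (Ψ : κ → Ω) (ρ : κ → ι → Ω) (l : ι → Ω) (Y0 : Ω)
    (P : κ → Polynomial Ω) (T : Finset ι) : Ω :=
  ∑ j, Ψ j * (∏ i ∈ T, ρ j i) * (P j).eval (Y0 + ∑ i ∈ T, l i)

theorem E_kop {ι κ : Type} [DecidableEq ι] [Fintype κ] (Ψ : κ → Ω) (ρ : κ → ι → Ω) (l : ι → Ω)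
    (Y0 : Ω) (P : κ → Polynomial Ω) (T : Finset ι) (i : ι) (hi : i ∉ T) (ρ' : Ω) :
    E Ψ ρ l Y0 P (insert i T) - ρ' * E Ψ ρ l Y0 P T =
      E Ψ ρ l Y0 (fun j => kop (ρ j i) ρ' (l i) (P j)) T := by
  unfold E
  rw [Finset.mul_sum, ← Finset.sum_sub_distrib]
  apply Finset.sum_congr rfl
  intro j _
  rw [kop_eval, Finset.prod_insert hi, Finset.sum_insert hi,
    show Y0 + ∑ i ∈ T, l i + l i = Y0 + (l i + ∑ i ∈ T, l i) by ring]
  ring

variable {V : Submodule (QA Ω) Ω} (hV : Hyp V)

include hV in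
/-- multiplicative functions on a cube -/
theorem mult_false {ι : Type} [DecidableEq ι] (J : Finset ι) (hJ : 3 ≤ J.card) (P0 : Ω)
    (hP0 : P0 ≠ 0) (t : ι → Ω) (ht : ∀ i ∈ J, Transcendental ℚ (t i))
    (h : ∀ T ⊆ J, P0 * ∏ i ∈ T, t i ∈ V) : False := by
  classical
  let t' : J → Ω := fun i => t i
  have hJ1 : J.Nonempty := Finset.card_pos.mp (by omega)
  obtain ⟨i0, hi0⟩ := hJ1
  set J' : Finset J := Finset.univ.erase ⟨i0, hi0⟩ with hJ'
  have hJ'c : 2 ≤ J'.card := by
    rw [hJ', Finset.card_erase_of_mem (Finset.mem_univ _), Finset.card_univ, Fintype.card_coe]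
    omega
  obtain ⟨S, hS, hc, hli⟩ := exists_indep t' (fun i => ht i i.2) J'
  have hcard : Fintype.card S ≤ 2 * (2 - 1) := by
    refine hyperplane' hV 2 ![t i0, -1] (fun k (s : S) =>
      ![P0 * ∏ i ∈ (s : Finset J), t' i, P0 * ∏ i ∈ insert ⟨i0, hi0⟩ (s : Finset J), t' i] k)
      ?_ ?_ ?_ ?_
    · rw [LinearIndependent.pair_iff]
      intro a b hab
      rw [Algebra.smul_def, Algebra.smul_def] at hab
      have ha : IsAlgebraic ℚ (algebraMap (QA Ω) Ω a) := mem_QA.1 a.2
      have hb : IsAlgebraic ℚ (algebraMap (QA Ω) Ω b) := mem_QA.1 b.2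
      by_cases ha0 : a = 0
      · subst ha0
        rw [map_zero, zero_mul, zero_add, mul_neg, mul_one, neg_eq_zero] at hab
        exact ⟨rfl, (map_eq_zero _).1 hab⟩
      · exfalso
        apply ht i0 hi0
        have ha' : algebraMap (QA Ω) Ω a ≠ 0 := (_root_.map_ne_zero _).2 ha0
        have e : t i0 = algebraMap (QA Ω) Ω b / algebraMap (QA Ω) Ω a := by
          field_simp
          linear_combination hab
        rw [e]
        exact AD hb ha
    · have hm : ∀ T : Finset J, P0 * ∏ i ∈ T, t' i ∈ V := by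
        intro T
        have := h (T.map (Function.Embedding.subtype _)) (by
          intro x hx
          rw [Finset.mem_map] at hx
          obtain ⟨y, -, rfl⟩ := hx
          exact y.2)
        rwa [Finset.prod_map] at this
      intro k s
      fin_cases k
      · exact hm _
      · exact hm _
    · intro s
      have hns : (⟨i0, hi0⟩ : J) ∉ (s : Finset J) := by
        intro hh
        have := hS s s.2 hh
        rw [hJ'] at this
        simp at this
      rw [Fin.sum_univ_two]
      simp only [Matrix.cons_val_zero, Matrix.cons_val_one]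
      rw [Finset.prod_insert hns]
      simp only [t']
      ring
    · rw [Fintype.linearIndependent_iff]
      intro g hg s
      have h0 := congrFun hg 0
      rw [Finset.sum_apply] at h0
      simp only [Pi.smul_apply, Matrix.cons_val_zero, Pi.zero_apply] at h0
      have h1 : P0 * ∑ s : S, g s • (∏ i ∈ (s : Finset J), t' i) = 0 := by
        rw [← h0, Finset.mul_sum]
        apply Finset.sum_congr rfl
        intro s _
        rw [mul_smul_comm]
      have h2 := (mul_eq_zero.mp h1).resolve_left hP0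
      have hli' : LinearIndependent (QA Ω) (fun s : S => ∏ i ∈ (s : Finset J), t' i) := hli
      exact Fintype.linearIndependent_iff.mp hli' g h2 s
  rw [Fintype.card_coe] at hcard
  omega

include hV in
/-- the part with the multiplicative function of transcendental values vanishes -/
theorem part1 {ι κ : Type} [DecidableEq ι] [Fintype κ] [DecidableEq κ] (t l : ι → Ω) (Ψ : κ → Ω)
    (ρ : κ → ι → Ω) (Y0 σ : Ω) (n : ℕ) : ∀ (J : Finset ι) (d : κ → ℕ) (P : κ → Polynomial Ω)
    (A0 P0 : Ω), ∑ j, d j = n → (∀ j, Z (d j) (P j)) → 39 + n ≤ J.card → P0 ≠ 0 →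
    (A0 ≠ 0 ∨ σ ≠ 0) → (∀ i ∈ J, Transcendental ℚ (t i)) → (∀ i ∈ J, l i ≠ 0) →
    (∀ j, ∀ i ∈ J, IsAlgebraic ℚ (ρ j i)) →
    (∀ T ⊆ J, (A0 + ∑ i ∈ T, σ * l i) * (P0 * ∏ i ∈ T, t i) + E Ψ ρ l Y0 P T ∈ V) → False := by
  classical
  induction n with
  | zero =>
    intro J d P A0 P0 hd hP hJ hP0 hne ht hl hρ h
    have hd0 : ∀ j, d j = 0 := by
      intro j
      exact (Finset.sum_eq_zero_iff.mp hd) j (Finset.mem_univ j)
    have hE : ∀ T, E Ψ ρ l Y0 P T = 0 := by
      intro T
      unfold E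
      apply Finset.sum_eq_zero
      intro j _
      have : P j = 0 := Z_zero (by rw [← hd0 j]; exact hP j)
      rw [this, eval_zero, mul_zero]
    simp only [hE, add_zero] at h
    by_cases hσ : σ = 0
    · subst hσ
      have hA0 : A0 ≠ 0 := hne.resolve_right (by simp)
      refine mult_false hV J (by omega) (A0 * P0) (mul_ne_zero hA0 hP0) t ht (fun T hT => ?_)
      have h1 := h T hT
      simp only [zero_mul, Finset.sum_const_zero, add_zero] at h1
      rw [mul_assoc]
      exact h1
    · have hJ39 : 39 ≤ J.card := by omega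
      set e : Fin 39 → ι := fun i => ((J.equivFin.symm (Fin.castLE hJ39 i) : J) : ι) with he
      have heinj : Function.Injective e := by
        intro a b hab
        have h1 := J.equivFin.symm.injective (Subtype.ext hab)
        exact Fin.castLE_injective hJ39 h1
      have hem : ∀ i, e i ∈ J := fun i => (J.equivFin.symm (Fin.castLE hJ39 i)).2
      refine cube_false hV A0 P0 hP0 (fun i => σ * l (e i)) (fun i => t (e i))
        (fun i => ht _ (hem i)) (fun i => mul_ne_zero hσ (hl _ (hem i))) (fun T => ?_)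
      have h1 := h (T.map ⟨e, heinj⟩) (by
        intro x hx
        rw [Finset.mem_map] at hx
        obtain ⟨y, -, rfl⟩ := hx
        exact hem y)
      rw [Finset.sum_map, Finset.prod_map] at h1
      exact h1
  | succ n ih =>
    intro J d P A0 P0 hd hP hJ hP0 hne ht hl hρ h
    obtain ⟨j0, hj0⟩ : ∃ j0, d j0 ≠ 0 := by
      by_contra hcon
      push Not at hcon
      rw [Finset.sum_eq_zero (fun j _ => hcon j)] at hd
      omega
    obtain ⟨i, hi⟩ : J.Nonempty := Finset.card_pos.mp (by omega)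
    have htr : t i - ρ j0 i ≠ 0 := by
      intro h0
      apply ht i hi
      rw [sub_eq_zero.mp h0]
      exact hρ j0 i hi
    refine ih (J.erase i) (Function.update d j0 (d j0 - 1))
      (fun j => kop (ρ j i) (ρ j0 i) (l i) (P j)) (A0 + σ * l i * t i / (t i - ρ j0 i))
      (P0 * (t i - ρ j0 i)) ?_ ?_ ?_ (mul_ne_zero hP0 htr) ?_ ?_ ?_ ?_ ?_
    · have h1 := Finset.sum_update_of_mem (Finset.mem_univ j0) d (d j0 - 1)
      rw [h1]
      have h2 := Finset.add_sum_erase Finset.univ d (Finset.mem_univ j0)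
      rw [Finset.sdiff_singleton_eq_erase]
      omega
    · intro j
      by_cases hj : j = j0
      · subst hj
        rw [Function.update_self]
        refine kop_Z' ?_ _ _
        rw [Nat.sub_add_cancel (Nat.pos_of_ne_zero hj0)]
        exact hP j
      · rw [Function.update_of_ne hj]
        exact kop_Z (hP j) _ _ _
    · rw [Finset.card_erase_of_mem hi]
      omega
    · by_cases hσ : σ = 0
      · left
        subst hσ
        simp only [zero_mul, zero_div, add_zero]
        exact hne.resolve_right (by simp)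
      · exact Or.inr hσ
    · exact fun k hk => ht k (Finset.mem_of_mem_erase hk)
    · exact fun k hk => hl k (Finset.mem_of_mem_erase hk)
    · exact fun j k hk => hρ j k (Finset.mem_of_mem_erase hk)
    · intro T hT
      have hiT : i ∉ T := fun hh => (Finset.mem_erase.mp (hT hh)).1 rfl
      have h1 := h (insert i T) (by
        intro x hx
        rcases Finset.mem_insert.mp hx with rfl | hx
        · exact hi
        · exact Finset.mem_of_mem_erase (hT hx))
      have h2 := h T (fun x hx => Finset.mem_of_mem_erase (hT hx))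
      have h3 := V.sub_mem h1 (V_mul (hρ j0 i hi) h2)
      rw [Finset.sum_insert hiT, Finset.prod_insert hiT] at h3
      rw [← E_kop Ψ ρ l Y0 P T i hiT (ρ j0 i)]
      convert h3 using 1
      field_simp
      ring

/-- constant term in `V`, linear coefficient algebraic, no other coefficients -/
def Good (V : Submodule (QA Ω) Ω) (P : Polynomial Ω) : Prop :=
  P.coeff 0 ∈ V ∧ IsAlgebraic ℚ (P.coeff 1) ∧ ∀ m, 2 ≤ m → P.coeff m = 0

theorem mul_mem_iff {V : Submodule (QA Ω) Ω} {a z : Ω} (ha : IsAlgebraic ℚ a) (ha0 : a ≠ 0)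
    (h : a * z ∈ V) : z ∈ V := by
  have h1 := V_mul ha.inv h
  rwa [← mul_assoc, inv_mul_cancel₀ ha0, one_mul] at h1

theorem good_of_kop {V : Submodule (QA Ω) Ω} {ρ ρ' l : Ω} {P : Polynomial Ω} (hρ : IsAlgebraic ℚ ρ)
    (hρ' : IsAlgebraic ℚ ρ') (hne : ρ ≠ ρ') (hl : l ∈ V) (h : Good V (kop ρ ρ' l P)) :
    Good V P := by
  obtain ⟨h0, h1, h2⟩ := h
  have hne' : ρ - ρ' ≠ 0 := sub_ne_zero.mpr hne
  have hdeg : P.natDegree < 2 := by
    by_contra hcon
    push Not at hcon
    have e1 := h2 P.natDegree hcon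
    rw [kop_coeff, taylor_top (Z_natDegree P)] at e1
    have e2 : (ρ - ρ') * P.coeff P.natDegree = 0 := by rw [← e1]; ring
    have e3 : P.leadingCoeff = 0 := (mul_eq_zero.mp e2).resolve_left hne'
    rw [leadingCoeff_eq_zero] at e3
    rw [e3] at hcon
    simp at hcon
  have hZ : Z 2 P := fun m hm => Z_natDegree P m (by omega)
  have a1 : IsAlgebraic ℚ (P.coeff 1) := by
    rw [kop_coeff, taylor_top hZ] at h1
    have e : P.coeff 1 = (ρ * P.coeff 1 - ρ' * P.coeff 1) / (ρ - ρ') := by
      field_simp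
    rw [e]
    exact AD h1 (hρ.sub hρ')
  refine ⟨?_, a1, hZ⟩
  have e2 := taylor_sub' (d := 0) hZ l
  rw [kop_coeff] at h0
  apply mul_mem_iff (hρ.sub hρ') hne'
  have e3 : (ρ - ρ') * P.coeff 0 = (ρ * (taylor l P).coeff 0 - ρ' * P.coeff 0) -
      (ρ * P.coeff (0 + 1)) * l := by
    have : (taylor l P).coeff 0 = P.coeff 0 + (((0 : ℕ) : Ω) + 1) * l * P.coeff (0 + 1) := by
      rw [← e2]; ring
    rw [this]
    push_cast
    ring
  rw [e3]
  exact V.sub_mem h0 (V_mul (hρ.mul a1) hl)

include hV in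
/-- two rows -/
theorem two_false {x y : Ω} (hxy : ∀ a b : Ω, IsAlgebraic ℚ a → IsAlgebraic ℚ b →
    a * x + b * y = 0 → a = 0 ∧ b = 0) {l0 l1 l2 α : Ω} (hα : α ≠ 0) (h3 : Ind3 l0 l1 l2)
    (hx : ∀ l ∈ [l0, l1, l2], x * (α * l) ∈ V) (hy : ∀ l ∈ [l0, l1, l2], y * (α * l) ∈ V) :
    False := by
  have hy0 : y ≠ 0 := by
    rintro rfl
    exact one_ne_zero (hxy 0 1 isAlgebraic_zero isAlgebraic_one (by ring)).2
  have key := hyperplane' hV (κ := Fin 3) 2 ![x, -y]
    ![fun j => y * (α * (![l0, l1, l2] : Fin 3 → Ω) j),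
      fun j => x * (α * (![l0, l1, l2] : Fin 3 → Ω) j)] ?_ ?_ ?_ ?_
  · simp at key
  · rw [LinearIndependent.pair_iff]
    intro a b hab
    rw [Algebra.smul_def, Algebra.smul_def] at hab
    have h := hxy (algebraMap (QA Ω) Ω a) (-algebraMap (QA Ω) Ω b) (mem_QA.1 a.2)
      (mem_QA.1 b.2).neg (by rw [← hab]; ring)
    exact ⟨(map_eq_zero _).1 h.1, (map_eq_zero _).1 (neg_eq_zero.mp h.2)⟩
  · intro i j
    fin_cases i <;> fin_cases j
    · exact hy _ (by simp)
    · exact hy _ (by simp)
    · exact hy _ (by simp)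
    · exact hx _ (by simp)
    · exact hx _ (by simp)
    · exact hx _ (by simp)
  · intro j
    rw [Fin.sum_univ_two]
    simp only [Matrix.cons_val_zero, Matrix.cons_val_one]
    ring
  · rw [Fintype.linearIndependent_iff]
    intro g hg
    have h0 := congrFun hg 0
    rw [Finset.sum_apply, Fin.sum_univ_three] at h0
    simp only [Pi.smul_apply, Matrix.cons_val_zero, Matrix.cons_val_one, Matrix.cons_val,
      Algebra.smul_def, Pi.zero_apply] at h0
    have h1 : (y * α) * (algebraMap (QA Ω) Ω (g 0) * l0 + algebraMap (QA Ω) Ω (g 1) * l1 +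
        algebraMap (QA Ω) Ω (g 2) * l2) = 0 := by
      rw [← h0]; ring
    have h2 := (mul_eq_zero.mp h1).resolve_left (mul_ne_zero hy0 hα)
    obtain ⟨g0, g1, g2⟩ := h3 _ _ _ (mem_QA.1 (g 0).2) (mem_QA.1 (g 1).2) (mem_QA.1 (g 2).2) h2
    intro i
    fin_cases i
    · exact Subtype.ext g0
    · exact Subtype.ext g1
    · exact Subtype.ext g2

/-- any three of the numbers are independent over the algebraic numbers -/
def Gen3 {ι : Type} (l : ι → Ω) (J : Finset ι) : Prop :=
  ∀ i ∈ J, ∀ j ∈ J, ∀ k ∈ J, i ≠ j → i ≠ k → j ≠ k → Ind3 (l i) (l j) (l k)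

theorem Gen3.mono {ι : Type} {l : ι → Ω} {J J' : Finset ι} (h : Gen3 l J) (hJ : J' ⊆ J) :
    Gen3 l J' := fun i hi j hj k hk => h i (hJ hi) j (hJ hj) k (hJ hk)

include hV in
theorem quad_false {ι : Type} [DecidableEq ι] (l : ι → Ω) (Y0 : Ω) (J : Finset ι)
    (P : Polynomial Ω) (hP : Z 3 P) (hP2 : P.coeff 2 ≠ 0) (hJ : 5 ≤ J.card) (hg : Gen3 l J)
    (h : ∀ T ⊆ J, P.eval (Y0 + ∑ i ∈ T, l i) ∈ V) : False := by
  classical
  obtain ⟨e, he⟩ : ∃ e : Fin 5 → ι, Function.Injective e ∧ ∀ i, e i ∈ J := by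
    refine ⟨fun i => ((J.equivFin.symm (Fin.castLE hJ i) : J) : ι), ?_, fun i => Subtype.prop _⟩
    intro a b hab
    have h1 := J.equivFin.symm.injective (Subtype.ext hab)
    exact Fin.castLE_injective hJ h1
  obtain ⟨hei, hem⟩ := he
  have hPe : ∀ y, P.eval y = P.coeff 0 + P.coeff 1 * y + P.coeff 2 * y ^ 2 := by
    intro y
    have h1 : P.natDegree < 3 := by
      by_contra hcon
      push Not at hcon
      have h2 := hP _ hcon
      have h3 : P = 0 := leadingCoeff_eq_zero.mp h2
      rw [h3] at hcon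
      simp at hcon
    rw [eval_eq_sum_range' h1, Finset.sum_range_succ, Finset.sum_range_succ,
      Finset.sum_range_succ, Finset.sum_range_zero]
    ring
  have hne : ∀ a b : Fin 5, a ≠ b → e a ≠ e b := fun a b hab hh => hab (hei hh)
  have hmem : ∀ a b : Fin 5, a ≠ b → l (e a) * (2 * P.coeff 2 * l (e b)) ∈ V := by
    intro a b hab
    have h1 := h {e a, e b} (by
      intro x hx
      rw [Finset.mem_insert, Finset.mem_singleton] at hx
      rcases hx with rfl | rfl
      · exact hem _
      · exact hem _)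
    have h2 := h {e a} (by
      intro x hx
      rw [Finset.mem_singleton] at hx
      rw [hx]
      exact hem _)
    have h3 := h {e b} (by
      intro x hx
      rw [Finset.mem_singleton] at hx
      rw [hx]
      exact hem _)
    have h4 := h ∅ (by simp)
    rw [Finset.sum_pair (hne a b hab), hPe] at h1
    rw [Finset.sum_singleton, hPe] at h2 h3
    rw [Finset.sum_empty, hPe] at h4
    have h5 := V.add_mem (V.sub_mem (V.sub_mem h1 h2) h3) h4
    convert h5 using 1
    ring
  have g01 := hg _ (hem 0) _ (hem 1) _ (hem 2) (hne _ _ (by decide)) (hne _ _ (by decide))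
    (hne _ _ (by decide))
  have g234 := hg _ (hem 2) _ (hem 3) _ (hem 4) (hne _ _ (by decide)) (hne _ _ (by decide))
    (hne _ _ (by decide))
  refine two_false hV (x := l (e 0)) (y := l (e 1)) (α := 2 * P.coeff 2) ?_
    (mul_ne_zero two_ne_zero hP2) g234 ?_ ?_
  · intro a b ha hb hab
    have := g01 a b 0 ha hb isAlgebraic_zero (by linear_combination hab)
    exact ⟨this.1, this.2.1⟩
  · intro z hz
    simp only [List.mem_cons, List.not_mem_nil, or_false] at hz
    rcases hz with rfl | rfl | rfl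
    · exact hmem _ _ (by decide)
    · exact hmem _ _ (by decide)
    · exact hmem _ _ (by decide)
  · intro z hz
    simp only [List.mem_cons, List.not_mem_nil, or_false] at hz
    rcases hz with rfl | rfl | rfl
    · exact hmem _ _ (by decide)
    · exact hmem _ _ (by decide)
    · exact hmem _ _ (by decide)

include hV in
theorem top_false {ι : Type} [DecidableEq ι] (l : ι → Ω) (Y0 : Ω) (n : ℕ) : ∀ (J : Finset ι)
    (P : Polynomial Ω), Z (n + 3) P → P.coeff (n + 2) ≠ 0 → n + 5 ≤ J.card → Gen3 l J →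
    (∀ i ∈ J, l i ≠ 0) → (∀ T ⊆ J, P.eval (Y0 + ∑ i ∈ T, l i) ∈ V) → False := by
  induction n with
  | zero =>
    intro J P hP hP2 hJ hg _ h
    exact quad_false hV l Y0 J P hP hP2 (by omega) hg h
  | succ n ih =>
    intro J P hP hP2 hJ hg hl h
    obtain ⟨i, hi⟩ : J.Nonempty := Finset.card_pos.mp (by omega)
    refine ih (J.erase i) (kop 1 1 (l i) P) (kop_Z' (by
      have : n + 3 + 1 = n + 1 + 3 := by omega
      rw [this]; exact hP) _ _) ?_ ?_ (hg.mono (Finset.erase_subset i J))
      (fun k hk => hl k (Finset.mem_of_mem_erase hk)) ?_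
    · rw [kop_coeff, one_mul, one_mul, taylor_sub' (d := n + 2) (by
        have : n + 2 + 2 = n + 1 + 3 := by omega
        rw [this]; exact hP)]
      refine mul_ne_zero (mul_ne_zero ?_ (hl i hi)) ?_
      · have : ((n + 2 : ℕ) : Ω) + 1 ≠ 0 := Nat.cast_add_one_ne_zero _
        exact this
      · exact hP2
    · rw [Finset.card_erase_of_mem hi]
      omega
    · intro T hT
      have hiT : i ∉ T := fun hh => (Finset.mem_erase.mp (hT hh)).1 rfl
      have h1 := h (insert i T) (by
        intro x hx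
        rcases Finset.mem_insert.mp hx with rfl | hx
        · exact hi
        · exact Finset.mem_of_mem_erase (hT hx))
      have h2 := h T (fun x hx => Finset.mem_of_mem_erase (hT hx))
      rw [Finset.sum_insert hiT] at h1
      rw [kop_eval, one_mul, one_mul,
        show Y0 + ∑ i ∈ T, l i + l i = Y0 + (l i + ∑ i ∈ T, l i) by ring]
      exact V.sub_mem h1 h2

include hV in
/-- one polynomial -/
theorem base_good {ι : Type} [DecidableEq ι] (l : ι → Ω) (Y0 : Ω) (D : ℕ) (J : Finset ι)
    (P : Polynomial Ω) (hP : Z D P) (hJ : D + 5 ≤ J.card) (hg : Gen3 l J) (hlV : ∀ i ∈ J, l i ∈ V)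
    (hl : ∀ i ∈ J, l i ≠ 0) (hY : Y0 ∈ V)
    (h : ∀ T ⊆ J, P.eval (Y0 + ∑ i ∈ T, l i) ∈ V) : Good V P := by
  classical
  have hdeg : P.natDegree < 2 := by
    by_contra hcon
    push Not at hcon
    have hne : P.coeff P.natDegree ≠ 0 := by
      intro h0
      have h3 : P = 0 := leadingCoeff_eq_zero.mp h0
      rw [h3] at hcon
      simp at hcon
    have hlt : P.natDegree < D := by
      by_contra h1
      push Not at h1
      exact hne (hP _ h1)
    obtain ⟨n, hn⟩ : ∃ n, P.natDegree = n + 2 := ⟨P.natDegree - 2, by omega⟩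
    have hZ := Z_natDegree P
    rw [hn] at hZ hne
    exact top_false hV l Y0 n J P hZ hne (by omega) hg hl h
  have hZ : Z 2 P := fun m hm => Z_natDegree P m (by omega)
  have hPe : ∀ y, P.eval y = P.coeff 0 + P.coeff 1 * y := by
    intro y
    rw [eval_eq_sum_range' hdeg, Finset.sum_range_succ, Finset.sum_range_succ,
      Finset.sum_range_zero]
    ring
  have hlin : ∀ i ∈ J, P.coeff 1 * l i ∈ V := by
    intro i hi
    have h1 := h {i} (by simpa using hi)
    have h2 := h ∅ (by simp)
    rw [Finset.sum_singleton, hPe] at h1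
    rw [Finset.sum_empty, hPe] at h2
    have h3 := V.sub_mem h1 h2
    convert h3 using 1
    ring
  have a1 : IsAlgebraic ℚ (P.coeff 1) := by
    by_contra htr
    obtain ⟨i, hi, j, hj, k, hk, hij, hik, hjk⟩ := Finset.two_lt_card.mp (by omega : 2 < J.card)
    have g := hg i hi j hj k hk hij hik hjk
    refine two_false hV (x := P.coeff 1) (y := 1) (α := 1) ?_ one_ne_zero g ?_ ?_
    · intro a b ha hb hab
      by_cases ha0 : a = 0
      · subst ha0
        refine ⟨rfl, ?_⟩
        linear_combination hab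
      · exfalso
        apply htr
        have e : P.coeff 1 = -b / a := by
          field_simp
          linear_combination hab
        rw [e]
        exact AD hb.neg ha
    · intro z hz
      rw [one_mul]
      simp only [List.mem_cons, List.not_mem_nil, or_false] at hz
      rcases hz with rfl | rfl | rfl
      · exact hlin _ hi
      · exact hlin _ hj
      · exact hlin _ hk
    · intro z hz
      rw [one_mul, one_mul]
      simp only [List.mem_cons, List.not_mem_nil, or_false] at hz
      rcases hz with rfl | rfl | rfl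
      · exact hlV _ hi
      · exact hlV _ hj
      · exact hlV _ hk
  refine ⟨?_, a1, hZ⟩
  have h2 := h ∅ (by simp)
  rw [Finset.sum_empty, add_zero, hPe] at h2
  have h3 := V.sub_mem h2 (V_mul a1 hY)
  convert h3 using 1
  ring

include hV in
/-- several polynomials -/
theorem part2 {ι κ : Type} [DecidableEq ι] [Fintype κ] [DecidableEq κ] (l : ι → Ω) (Ψ : κ → Ω)
    (ρ : κ → ι → Ω) (Y0 : Ω) (j0 : κ) (D : ℕ) (hΨ : IsAlgebraic ℚ (Ψ j0)) (hΨ0 : Ψ j0 ≠ 0)
    (hY : Y0 ∈ V) (n : ℕ) : ∀ (J : Finset ι) (d : κ → ℕ) (P : κ → Polynomial Ω),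
    ∑ j ∈ Finset.univ.erase j0, d j = n → (∀ j, j ≠ j0 → Z (d j) (P j)) → Z D (P j0) →
    D + n + 5 ≤ J.card → Gen3 l J → (∀ i ∈ J, l i ∈ V) → (∀ i ∈ J, l i ≠ 0) →
    (∀ j, ∀ i ∈ J, IsAlgebraic ℚ (ρ j i)) → (∀ i ∈ J, ρ j0 i ≠ 0) →
    (∀ j, j ≠ j0 → ∀ i ∈ J, ρ j0 i ≠ ρ j i) →
    (∀ T ⊆ J, E Ψ ρ l Y0 P T ∈ V) → Good V (P j0) := by
  classical
  induction n with
  | zero =>
    intro J d P hd hP hPD hJ hg hlV hl hρ hρ0 hρne h
    refine base_good hV l Y0 D J (P j0) hPD (by omega) hg hlV hl hY (fun T hT => ?_)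
    have h1 := h T hT
    have hE : E Ψ ρ l Y0 P T =
        (Ψ j0 * ∏ i ∈ T, ρ j0 i) * (P j0).eval (Y0 + ∑ i ∈ T, l i) := by
      unfold E
      have hz : ∑ j ∈ Finset.univ.erase j0,
          Ψ j * (∏ i ∈ T, ρ j i) * (P j).eval (Y0 + ∑ i ∈ T, l i) = 0 := by
        apply Finset.sum_eq_zero
        intro j hj
        have hj' := Finset.ne_of_mem_erase hj
        have hdj : d j = 0 := (Finset.sum_eq_zero_iff.mp hd) j hj
        have : P j = 0 := Z_zero (by rw [← hdj]; exact hP j hj')
        rw [this, eval_zero, mul_zero]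
      rw [← Finset.add_sum_erase _ _ (Finset.mem_univ j0), hz, add_zero]
    rw [hE] at h1
    refine mul_mem_iff ?_ ?_ h1
    · refine hΨ.mul ?_
      have : ∀ S : Finset ι, S ⊆ J → IsAlgebraic ℚ (∏ i ∈ S, ρ j0 i) := by
        intro S
        induction S using Finset.induction_on with
        | empty => intro _; rw [Finset.prod_empty]; exact isAlgebraic_one
        | insert a S ha ihS =>
          intro hS
          rw [Finset.prod_insert ha]
          exact (hρ j0 a (hS (Finset.mem_insert_self a S))).mul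
            (ihS (fun x hx => hS (Finset.mem_insert_of_mem hx)))
      exact this T hT
    · exact mul_ne_zero hΨ0 (Finset.prod_ne_zero_iff.mpr fun i hi => hρ0 i (hT hi))
  | succ n ih =>
    intro J d P hd hP hPD hJ hg hlV hl hρ hρ0 hρne h
    obtain ⟨j1, hj1, hdj1⟩ : ∃ j1, j1 ≠ j0 ∧ d j1 ≠ 0 := by
      by_contra hcon
      push Not at hcon
      rw [Finset.sum_eq_zero (fun j hj => hcon j (Finset.ne_of_mem_erase hj))] at hd
      omega
    obtain ⟨i, hi⟩ : J.Nonempty := Finset.card_pos.mp (by omega)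
    have key := ih (J.erase i) (Function.update d j1 (d j1 - 1))
      (fun j => kop (ρ j i) (ρ j1 i) (l i) (P j)) ?_ ?_ ?_ ?_ (hg.mono (Finset.erase_subset i J))
      (fun k hk => hlV k (Finset.mem_of_mem_erase hk))
      (fun k hk => hl k (Finset.mem_of_mem_erase hk))
      (fun j k hk => hρ j k (Finset.mem_of_mem_erase hk))
      (fun k hk => hρ0 k (Finset.mem_of_mem_erase hk))
      (fun j hj k hk => hρne j hj k (Finset.mem_of_mem_erase hk)) ?_
    · exact good_of_kop (hρ j0 i hi) (hρ j1 i hi) (hρne j1 hj1 i hi) (hlV i hi) key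
    · have hm : j1 ∈ Finset.univ.erase j0 := Finset.mem_erase.mpr ⟨hj1, Finset.mem_univ _⟩
      rw [Finset.sum_update_of_mem hm, Finset.sdiff_singleton_eq_erase]
      have h2 := Finset.add_sum_erase (Finset.univ.erase j0) d hm
      omega
    · intro j hj
      by_cases hjj : j = j1
      · subst hjj
        rw [Function.update_self]
        refine kop_Z' ?_ _ _
        rw [Nat.sub_add_cancel (Nat.pos_of_ne_zero hdj1)]
        exact hP j hj
      · rw [Function.update_of_ne hjj]
        exact kop_Z (hP j hj) _ _ _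
    · exact kop_Z hPD _ _ _
    · rw [Finset.card_erase_of_mem hi]
      omega
    · intro T hT
      have hiT : i ∉ T := fun hh => (Finset.mem_erase.mp (hT hh)).1 rfl
      have h1 := h (insert i T) (by
        intro x hx
        rcases Finset.mem_insert.mp hx with rfl | hx
        · exact hi
        · exact Finset.mem_of_mem_erase (hT hx))
      have h2 := h T (fun x hx => Finset.mem_of_mem_erase (hT hx))
      rw [← E_kop Ψ ρ l Y0 P T i hiT (ρ j1 i)]
      exact V.sub_mem h1 (V_mul (hρ j1 i hi) h2)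

end Pool.Agent.TH160.TowP
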