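import Pool.Agent.TH160.TowP.RankB

/-!
# Sums of transcendental characters times polynomials are not algebraic on cubes
-/

set_option autoImplicit false

namespace Pool.Agent.TH160.TowP

open Module Finset Polynomial

variable {Ω : Type*} [Field Ω] [CharZero Ω]

theorem der_alg (δ : Derivation ℤ Ω Ω) {x : Ω} (hx : IsAlgebraic ℚ x) : δ x = 0 := by
  have hint := hx.isIntegral
  have h0 : (minpoly ℚ x).aeval x = 0 := minpoly.aeval ℚ x
  have hsep : ((minpoly ℚ x).derivative).aeval x ≠ 0 := by
    have := (minpoly.irreducible hint).separable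
    exact this.aeval_derivative_ne_zero h0
  have hkey : ∀ q : Polynomial ℚ, δ (aeval x q) = aeval x (derivative q) * δ x := by
    intro q
    induction q using Polynomial.induction_on' with
    | add f g hf hg => rw [map_add, map_add, derivative_add, map_add, hf, hg]; ring
    | monomial n a =>
      have hQ : ∀ r : ℚ, δ (algebraMap ℚ Ω r) = 0 := by
        intro r
        have h1 : δ ((r.den : Ω) * (algebraMap ℚ Ω r)) = 0 := by
          have : (r.den : Ω) * (algebraMap ℚ Ω r) = ((r.num : ℤ) : Ω) := by
            have h2 := Rat.mul_den_eq_num r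
            have h3 := congrArg (algebraMap ℚ Ω) h2
            rw [map_mul, map_natCast, map_intCast] at h3
            rw [mul_comm]; exact h3
          rw [this]
          exact δ.map_intCast _
        rw [Derivation.leibniz, Derivation.map_natCast, smul_zero, add_zero, smul_eq_mul] at h1
        exact (mul_eq_zero.mp h1).resolve_left (by exact_mod_cast r.den_nz)
      rw [aeval_monomial, Derivation.leibniz, Derivation.leibniz_pow, hQ, smul_zero, add_zero,
        derivative_monomial, aeval_monomial, map_mul, map_natCast]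
      simp only [smul_eq_mul, nsmul_eq_mul]
      ring
  have h1 := hkey (minpoly ℚ x)
  rw [h0, map_zero] at h1
  exact (mul_eq_zero.mp h1.symm).resolve_left hsep

theorem der_eval (δ : Derivation ℤ Ω Ω) (D : ℕ) (q : Polynomial Ω) (hq : Z D q) :
    ∃ q' : Polynomial Ω, Z D q' ∧ ∀ y, δ (q.eval y) = q'.eval y + (derivative q).eval y * δ y := by
  classical
  refine ⟨∑ m ∈ Finset.range D, monomial m (δ (q.coeff m)), ?_, ?_⟩
  · intro m hm
    rw [finset_sum_coeff]
    apply Finset.sum_eq_zero
    intro k hk
    rw [Finset.mem_range] at hk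
    rw [coeff_monomial, if_neg (by omega)]
  · intro y
    have hq' : q = ∑ m ∈ Finset.range D, monomial m (q.coeff m) := by
      ext m
      rw [finset_sum_coeff]
      simp only [coeff_monomial]
      by_cases hm : m < D
      · rw [Finset.sum_ite_eq' (Finset.range D) m, if_pos (Finset.mem_range.mpr hm)]
      · rw [hq m (by omega)]
        symm
        apply Finset.sum_eq_zero
        intro k hk
        rw [Finset.mem_range] at hk
        rw [if_neg (by omega)]
    have key : ∀ s : Finset ℕ, δ ((∑ m ∈ s, monomial m (q.coeff m)).eval y) =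
        (∑ m ∈ s, monomial m (δ (q.coeff m))).eval y +
          (derivative (∑ m ∈ s, monomial m (q.coeff m))).eval y * δ y := by
      intro s
      rw [eval_finset_sum, eval_finset_sum, map_sum, derivative_sum, eval_finset_sum,
        Finset.sum_mul, ← Finset.sum_add_distrib]
      apply Finset.sum_congr rfl
      intro m _
      rw [eval_monomial, eval_monomial, derivative_monomial, eval_monomial, Derivation.leibniz,
        Derivation.leibniz_pow]
      simp only [smul_eq_mul, nsmul_eq_mul]
      ring
    have := key (Finset.range D)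
    rw [← hq'] at this
    exact this

theorem der_prod {ι : Type} [DecidableEq ι] (δ : Derivation ℤ Ω Ω) (t : ι → Ω) (K : Finset ι)
    (ht : ∀ r ∈ K, t r ≠ 0) :
    δ (∏ r ∈ K, t r) = (∏ r ∈ K, t r) * ∑ r ∈ K, δ (t r) / t r := by
  induction K using Finset.induction_on with
  | empty => simp
  | insert r K hr ih =>
    rw [Finset.prod_insert hr, Finset.sum_insert hr, Derivation.leibniz,
      ih (fun s hs => ht s (Finset.mem_insert_of_mem hs))]
    have := ht r (Finset.mem_insert_self r K)
    simp only [smul_eq_mul]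
    field_simp
    ring

/-- weights with vanishing sums over all sets of a given size vanish -/
theorem weights_zero {ι : Type} [DecidableEq ι] (w : ι → Ω) (J : Finset ι) (e : ℕ)
    (hJ : e + 2 ≤ J.card) (h : ∀ I ⊆ J, I.card = e + 1 → ∑ j ∈ I, w j = 0) :
    ∀ r ∈ J, w r = 0 := by
  have heq : ∀ r ∈ J, ∀ s ∈ J, w r = w s := by
    intro r hr s hs
    by_cases hrs : r = s
    · rw [hrs]
    · obtain ⟨I, hI, hIc⟩ := Finset.exists_subset_card_eq
        (s := (J.erase r).erase s) (n := e) (by
          rw [Finset.card_erase_of_mem (Finset.mem_erase.mpr ⟨Ne.symm hrs, hs⟩),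
            Finset.card_erase_of_mem hr]
          omega)
      have hrI : r ∉ I := fun hh => by
        have := Finset.mem_of_mem_erase (hI hh)
        exact (Finset.mem_erase.mp this).1 rfl
      have hsI : s ∉ I := fun hh => (Finset.mem_erase.mp (hI hh)).1 rfl
      have hIJ : I ⊆ J := hI.trans ((Finset.erase_subset _ _).trans (Finset.erase_subset _ _))
      have h1 := h (insert r I) (Finset.insert_subset hr hIJ) (by
        rw [Finset.card_insert_of_notMem hrI, hIc])
      have h2 := h (insert s I) (Finset.insert_subset hs hIJ) (by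
        rw [Finset.card_insert_of_notMem hsI, hIc])
      rw [Finset.sum_insert hrI] at h1
      rw [Finset.sum_insert hsI] at h2
      linear_combination h1 - h2
  intro r hr
  obtain ⟨I, hI, hIc⟩ := Finset.exists_subset_card_eq (s := J) (n := e + 1) (by omega)
  have h1 := h I hI hIc
  rw [Finset.sum_congr rfl (fun j hj => heq j (hI hj) r hr), Finset.sum_const, hIc,
    nsmul_eq_mul] at h1
  refine (mul_eq_zero.mp h1).resolve_left ?_
  exact_mod_cast Nat.succ_ne_zero e

theorem no_alg {ι κ : Type} [DecidableEq ι] [Fintype κ] [DecidableEq κ] (J : Finset ι)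
    (t : κ → ι → Ω) (l : ι → Ω) (D : ℕ) (htr : ∀ i, ∀ r ∈ J, Transcendental ℚ (t i r))
    (hne : ∀ i i', i ≠ i' → ∀ r ∈ J, t i r ≠ t i' r) (hl : ∀ r ∈ J, l r ≠ 0)
    (hJ : Fintype.card κ * (D + 1) + D + 2 ≤ J.card) (q : κ → Polynomial Ω)
    (hq : ∀ i, Z D (q i))
    (halg : ∀ K ⊆ J, IsAlgebraic ℚ (∑ i, (∏ r ∈ K, t i r) * (q i).eval (∑ r ∈ K, l r))) :
    ∀ i, q i = 0 := by
  classical
  by_contra hcon
  push Not at hcon
  obtain ⟨i0, hi0⟩ := hcon
  set e := (q i0).natDegree with he
  have heD : e < D := by
    by_contra h1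
    push Not at h1
    exact hi0 (leadingCoeff_eq_zero.mp (hq i0 _ h1))
  have ht0 : ∀ i, ∀ r ∈ J, t i r ≠ 0 := fun i r hr => ne_zero_of_tr (htr i r hr)
  -- a derivation
  obtain ⟨r0, hr0⟩ : J.Nonempty := Finset.card_pos.mp (by omega)
  obtain ⟨δ, hδ⟩ := Pool.Agent.H23R2.exists_derivation (t i0 r0) (htr i0 r0 hr0)
  -- degrees
  set d : κ → ℕ := fun i => if i = i0 then e + 1 else D with hd
  have hqd : ∀ i, Z (d i) (q i) := by
    intro i
    simp only [hd]
    split_ifs with h
    · rw [h]; exact Z_natDegree (q i0)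
    · exact hq i
  have hdpos : ∀ i, 1 ≤ d i := by
    intro i
    simp only [hd]
    split_ifs
    · omega
    · omega
  have hdle : ∀ i, d i ≤ D := by
    intro i
    simp only [hd]
    split_ifs
    · omega
    · omega
  choose hc1 hc1a hc1b hc1c using fun i => exists_coef l 0 (d i) (q i) (hqd i)
  choose q2 hq2 hq2e using fun i => der_eval δ (d i) (q i) (hqd i)
  choose hc2 hc2a hc2b hc2c using fun i => exists_coef l 0 (d i) (q2 i) (hq2 i)
  have hq3 : ∀ i, Z (d i - 1) (derivative (q i)) := by
    intro i m hm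
    rw [coeff_derivative, hqd i (m + 1) (by omega), zero_mul]
  choose hc3 hc3a hc3b hc3c using fun i => exists_coef l 0 (d i - 1) _ (hq3 i)
  set u : κ → ι → Ω := fun i r => δ (t i r) / t i r with hu
  set h : κ → Finset ι → Ω := fun i I => mulA 0 (u i) (hc1 i) I + (hc2 i I +
    mulA 0 (fun r => δ (l r)) (hc3 i) I) with hh
  have hev : ∀ i K, ev (h i) K = (∑ r ∈ K, u i r) * (q i).eval (∑ r ∈ K, l r) +
      ((q2 i).eval (∑ r ∈ K, l r) + (derivative (q i)).eval (∑ r ∈ K, l r) *
        ∑ r ∈ K, δ (l r)) := by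
    intro i K
    simp only [hh]
    rw [ev_add, ev_add, ev_mulA, ev_mulA, ← hc1a, ← hc2a, ← hc3a]
    simp only [zero_add]
    ring
  have hsum : ∀ K ⊆ J, ∑ i, (∏ r ∈ K, t i r) * ev (h i) K = 0 := by
    intro K hK
    rw [← der_alg δ (halg K hK), map_sum]
    apply Finset.sum_congr rfl
    intro i _
    rw [Derivation.leibniz, der_prod δ (t i) K (fun r hr => ht0 i r (hK hr)), hq2e, map_sum, hev]
    simp only [smul_eq_mul, hu]
    ring
  have hdeg : ∀ i I', d i + 1 ≤ I'.card → h i I' = 0 := by
    intro i I' hI'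
    simp only [hh]
    rw [mulA_zero 0 (u i) (hc1 i) (d i) (hc1b i) I' hI', hc2b i I' (by omega),
      mulA_zero 0 _ (hc3 i) (d i - 1) (hc3b i) I' (by omega)]
    ring
  have hzero : ∀ I ⊆ J, I.card = e + 1 → h i0 I = 0 := by
    intro I hI hIc
    refine char_indep t i0 I (∑ i ∈ Finset.univ.erase i0, (D + 1)) J (fun _ => D + 1) h rfl ?_ ?_
      hI ?_ (ht0 i0) (fun i hi r hr => hne i0 i (Ne.symm hi) r hr) hsum
    · intro i _ I' _ hI'
      exact hdeg i I' (by have := hdle i; omega)
    · intro I' _ hI'
      refine hdeg i0 I' ?_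
      simp only [hd, if_true]
      omega
    · have h1 : ∑ _i ∈ (Finset.univ : Finset κ).erase i0, (D + 1) ≤ Fintype.card κ * (D + 1) := by
        rw [Finset.sum_const, smul_eq_mul]
        apply Nat.mul_le_mul_right
        exact (Finset.card_le_card (Finset.erase_subset _ _)).trans (by simp)
      omega
  have hb : (q i0).coeff e ≠ 0 := fun h1 => hi0 (leadingCoeff_eq_zero.mp h1)
  have hw : ∀ r ∈ J, u i0 r / l r = 0 := by
    refine weights_zero (fun r => u i0 r / l r) J e (by omega) (fun I hI hIc => ?_)
    have h1 := hzero I hI hIc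
    have hd0 : d i0 = e + 1 := by simp [hd]
    simp only [hh] at h1
    rw [hc2b i0 I (by omega)] at h1
    have h2 : mulA 0 (fun r => δ (l r)) (hc3 i0) I = 0 :=
      mulA_zero 0 _ (hc3 i0) (d i0 - 1) (hc3b i0) I (by omega)
    rw [h2, add_zero, add_zero] at h1
    unfold mulA at h1
    rw [zero_mul, zero_add, hc1b i0 I (by omega)] at h1
    have hP : ∏ r ∈ I, l r ≠ 0 := Finset.prod_ne_zero_iff.mpr fun r hr => hl r (hI hr)
    have h3 : ∀ j ∈ I, u i0 j * (hc1 i0 (I.erase j) + 0) =
        ((e.factorial : Ω) * (q i0).coeff e * ∏ r ∈ I, l r) * (u i0 j / l j) := by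
      intro j hj
      have hc : (I.erase j).card = e := by
        rw [Finset.card_erase_of_mem hj, hIc]; rfl
      rw [hc1c i0 (I.erase j) (by omega), hc, ← Finset.mul_prod_erase I l hj]
      have := hl j (hI hj)
      field_simp
      ring
    rw [Finset.sum_congr rfl h3, ← Finset.mul_sum] at h1
    refine (mul_eq_zero.mp h1).resolve_left ?_
    refine mul_ne_zero (mul_ne_zero ?_ hb) hP
    exact_mod_cast e.factorial_ne_zero
  have h1 := hw r0 hr0
  rw [div_eq_zero_iff] at h1
  rcases h1 with h1 | h1
  · simp only [hu] at h1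
    rw [div_eq_zero_iff] at h1
    rcases h1 with h1 | h1
    · exact hδ h1
    · exact ht0 i0 r0 hr0 h1
  · exact hl r0 hr0 h1

end Pool.Agent.TH160.TowP
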