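import Pool.Agent.TH160.TowP.Full

/-!
# The `p`-adic theorem
-/

set_option autoImplicit false

namespace Pool.Agent.TH160.TowP

open Finset Polynomial
open Pool.Agent.W254.Ab (QA mem_QA)
open Pool.Agent.W254.PA (Hyp LtE logs hyp_padic)
open Pool.Agent.W245.PB (IsIwasawaLog brumer)
open Pool.Agent.TH681.QC (er)

section padic

variable {p : ℕ} [hp : Fact p.Prime] {L : PadicAlgCl p → PadicAlgCl p} (hL : IsIwasawaLog p L)

include hL in
/-- the kernel of the logarithm consists of algebraic numbers -/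
theorem ker_alg {x : PadicAlgCl p} (hx : x ≠ 0) (h : L x = 0) : IsAlgebraic ℚ x := by
  have hpne : (p : PadicAlgCl p) ≠ 0 := Nat.cast_ne_zero.2 hp.out.ne_zero
  obtain ⟨N, hN, a, ha⟩ := Pool.Agent.W254.PA.exists_norm_pow p x hx
  have hv0 : L (x ^ N * (p : PadicAlgCl p) ^ a) = 0 := by
    rw [hL.mul _ _ (pow_ne_zero _ hx) (zpow_ne_zero _ hpne), hL.pow hx, hL.zpow hpne, hL.prime, h]
    ring
  obtain ⟨M, hM, h1⟩ := Pool.Agent.TH293.APP.exists_pow_eq_one hL ha hv0
  have h2 : IsAlgebraic ℚ (x ^ N * (p : PadicAlgCl p) ^ a) := by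
    apply IsAlgebraic.of_pow (n := M) (by omega)
    rw [h1]
    exact isAlgebraic_one
  have hpa : IsAlgebraic ℚ ((p : PadicAlgCl p) ^ a) := by
    have hp1 : IsAlgebraic ℚ (p : PadicAlgCl p) := isAlgebraic_natCast p
    rcases Int.eq_nat_or_neg a with ⟨n, h | h⟩
    · rw [h, zpow_natCast]; exact hp1.pow n
    · rw [h, zpow_neg, zpow_natCast]; exact (hp1.pow n).inv
  have h3 : IsAlgebraic ℚ (x ^ N) := by
    have e : x ^ N = (x ^ N * (p : PadicAlgCl p) ^ a) / (p : PadicAlgCl p) ^ a := by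
      rw [mul_div_assoc, div_self (zpow_ne_zero _ hpne), mul_one]
    rw [e]
    exact AD h2 hpa
  exact h3.of_pow (by omega)

include hL in
/-- rational powers are algebraic -/
theorem pow_alg {n : ℕ} (hn : 0 < n) {y : PadicAlgCl p} (hy : y ≠ 0) (r : ℚ)
    (h : L y = (r : PadicAlgCl p) * L (n : PadicAlgCl p)) : IsAlgebraic ℚ y := by
  have hn' : (n : PadicAlgCl p) ≠ 0 := by exact_mod_cast hn.ne'
  have hden : (r.den : PadicAlgCl p) ≠ 0 := by exact_mod_cast r.den_nz
  have h1 : L (y ^ r.den * ((n : PadicAlgCl p) ^ (-r.num))) = 0 := by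
    rw [hL.mul _ _ (pow_ne_zero _ hy) (zpow_ne_zero _ hn'), hL.pow hy, hL.zpow hn', h]
    have h2 : (r : PadicAlgCl p) = (r.num : PadicAlgCl p) / (r.den : PadicAlgCl p) := Rat.cast_def r
    rw [h2]
    push_cast
    field_simp
    ring
  have h3 := ker_alg hL (mul_ne_zero (pow_ne_zero _ hy) (zpow_ne_zero _ hn')) h1
  have hna : IsAlgebraic ℚ ((n : PadicAlgCl p) ^ (-r.num)) := by
    have hp1 : IsAlgebraic ℚ (n : PadicAlgCl p) := isAlgebraic_natCast n
    rcases Int.eq_nat_or_neg (-r.num) with ⟨k, h | h⟩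
    · rw [h, zpow_natCast]; exact hp1.pow k
    · rw [h, zpow_neg, zpow_natCast]; exact (hp1.pow k).inv
  have h4 : IsAlgebraic ℚ (y ^ r.den) := by
    have e : y ^ r.den = (y ^ r.den * ((n : PadicAlgCl p) ^ (-r.num))) /
        (n : PadicAlgCl p) ^ (-r.num) := by
      rw [mul_div_assoc, div_self (zpow_ne_zero _ hn'), mul_one]
    rw [e]
    exact AD h3 hna
  exact h4.of_pow r.den_pos

/-- the exceptional directions -/
def BdQ (p : ℕ) [Fact p.Prime] {m : ℕ} (χ : Fin m → ℕ → PadicAlgCl p) (al : Fin m → Prop)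
    (a b : ℕ) : Prop :=
  a = p ∨ b = p ∨ ∃ i, ¬ al i ∧ IsAlgebraic ℚ (χ i b / χ i a)

include hL in
theorem bdQ_le {m : ℕ} {c : Fin m → PadicAlgCl p} (χ : Fin m → ℕ → PadicAlgCl p)
    (hχ0 : ∀ i n, 0 < n → χ i n ≠ 0)
    (hχL : ∀ i, ∀ n : ℕ, 0 < n → L (χ i n) = c i * L (n : PadicAlgCl p))
    {r : ℕ} (a b : Fin r → ℕ) (ha : ∀ i, (a i).Prime) (hb : ∀ i, (b i).Prime)
    (hinj : Function.Injective (Sum.elim a b))
    (h : ∀ i, BdQ p χ (fun i => ∃ r : ℚ, c i = r) (a i) (b i)) : r ≤ 1 + 3 * m := by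
  classical
  -- the directions containing `p`
  set B : Finset (Fin r) := Finset.univ.filter fun i => a i = p ∨ b i = p with hB
  have hBc : B.card ≤ 1 := by
    rw [Finset.card_le_one]
    intro i hi j hj
    rw [hB, Finset.mem_filter] at hi hj
    rcases hi.2 with h1 | h1 <;> rcases hj.2 with h2 | h2
    · exact Sum.inl_injective (hinj (a₁ := Sum.inl i) (a₂ := Sum.inl j) (by simp [h1, h2]))
    · exact absurd (hinj (a₁ := Sum.inl i) (a₂ := Sum.inr j) (by simp [h1, h2])) (by simp)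
    · exact absurd (hinj (a₁ := Sum.inr i) (a₂ := Sum.inl j) (by simp [h1, h2])) (by simp)
    · exact Sum.inr_injective (hinj (a₁ := Sum.inr i) (a₂ := Sum.inr j) (by simp [h1, h2]))
  set G : Fin m → Finset (Fin r) := fun k => Finset.univ.filter fun i =>
    (¬ ∃ r : ℚ, c k = r) ∧ IsAlgebraic ℚ (χ k (b i) / χ k (a i)) with hG
  have hGc : ∀ k, (G k).card ≤ 3 := by
    intro k
    by_cases hk : ∃ r : ℚ, c k = r
    · have : G k = ∅ := by
        rw [hG, Finset.filter_eq_empty_iff]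
        intro i _ hh
        exact hh.1 hk
      rw [this]
      simp
    · set e : Fin (G k).card ↪o Fin r := (G k).orderEmbOfFin rfl with he
      push Not at hk
      refine bd_le hL hk (χ k) (hχ0 k) (hχL k) (a ∘ e) (b ∘ e) (fun i => ha _) (fun i => hb _) ?_ ?_
      · have h1 : Sum.elim (a ∘ e) (b ∘ e) = Sum.elim a b ∘ Sum.map e e := by
          funext s
          rcases s with s | s <;> rfl
        rw [h1]
        exact hinj.comp (Sum.map_injective.mpr ⟨e.injective, e.injective⟩)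
      · intro i
        have h0 : ∀ j ∈ G k, IsAlgebraic ℚ (χ k (b j) / χ k (a j)) := by
          intro j hj
          rw [hG, Finset.mem_filter] at hj
          exact hj.2.2
        exact Or.inr (Or.inr (h0 (e i) (Finset.orderEmbOfFin_mem (G k) rfl i)))
  have hcov : (Finset.univ : Finset (Fin r)) ⊆ B ∪ Finset.univ.biUnion G := by
    intro i _
    rw [Finset.mem_union, Finset.mem_biUnion]
    rcases h i with h1 | h1 | ⟨k, h1, h2⟩
    · left
      rw [hB, Finset.mem_filter]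
      exact ⟨Finset.mem_univ _, Or.inl h1⟩
    · left
      rw [hB, Finset.mem_filter]
      exact ⟨Finset.mem_univ _, Or.inr h1⟩
    · right
      refine ⟨k, Finset.mem_univ _, ?_⟩
      rw [hG, Finset.mem_filter]
      exact ⟨Finset.mem_univ _, h1, h2⟩
  have h1 := Finset.card_le_card hcov
  rw [Finset.card_univ, Fintype.card_fin] at h1
  have h2 := Finset.card_union_le B (Finset.univ.biUnion G)
  have h3 : (Finset.univ.biUnion G).card ≤ m * 3 := by
    refine Finset.card_biUnion_le.trans ?_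
    calc ∑ k : Fin m, (G k).card ≤ ∑ _k : Fin m, 3 := Finset.sum_le_sum fun k _ => hGc k
      _ = m * 3 := by simp
  omega

end padic

open Classical in
/-- **The `p`-adic theorem**; the constant depends only on `m` and `D` -/
theorem full_padic (m D : ℕ) : ∃ C : ℕ, ∀ N ≥ 16,
    ∀ (p : ℕ) [Fact p.Prime] (L : PadicAlgCl p → PadicAlgCl p), IsIwasawaLog p L →
    ∀ c : Fin m → PadicAlgCl p, Function.Injective c → ∀ χ : Fin m → ℕ → PadicAlgCl p,
    (∀ i m n, 0 < m → 0 < n → χ i (m * n) = χ i m * χ i n) → (∀ i n, 0 < n → χ i n ≠ 0) →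
    (∀ i, ∀ n : ℕ, 0 < n → L (χ i n) = c i * L (n : PadicAlgCl p)) →
    ∀ (B : Fin m → Polynomial (PadicAlgCl p)), (∀ i, Z D (B i)) →
    ¬ (∀ i, ((∃ r : ℚ, c i = r) → Good (LtE (logs L)) (B i)) ∧
      (¬ (∃ r : ℚ, c i = r) → B i = 0)) →
      (((Finset.Icc 1 N).filter (fun n : ℕ =>
        ∑ i : Fin m, χ i n * (B i).eval (L (n : PadicAlgCl p)) ∈ LtE (logs L))).card : ℝ) ≤
        er C N * N := by
  obtain ⟨C, h⟩ := full m D (1 + 3 * m)
  refine ⟨C, ?_⟩
  intro N hN p _ L hL c hc χ hχ hχ0 hχL B hB hnt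
  refine h N hN (PadicAlgCl p) (LtE (logs L)) (hyp_padic hL)
    (fun n : ℕ => L (n : PadicAlgCl p)) χ ?_ hχ hχ0 ?_ (fun i => ∃ r : ℚ, c i = r) ?_
    (BdQ p χ (fun i => ∃ r : ℚ, c i = r)) ?_ ?_ ?_ B hB hnt
  · intro m n hm hn
    have hm' : (m : PadicAlgCl p) ≠ 0 := by exact_mod_cast hm.ne'
    have hn' : (n : PadicAlgCl p) ≠ 0 := by exact_mod_cast hn.ne'
    rw [Nat.cast_mul, hL.mul _ _ hm' hn']
  · intro n hn
    have hn' : (n : PadicAlgCl p) ≠ 0 := by exact_mod_cast hn.ne'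
    exact Pool.Agent.W254.PA.log_memP hn' (isAlgebraic_natCast n)
  · rintro i ⟨r, hr⟩ n hn
    exact pow_alg hL hn (hχ0 i n hn) r (by rw [hχL i n hn, hr])
  · intro r a b ha hb hinj hbad
    exact bdQ_le hL χ hχ0 hχL a b ha hb hinj hbad
  · intro a b ha hb hab hbd
    unfold BdQ at hbd
    push Not at hbd
    have hlog := log_ne hL ha hb hab hbd.1 hbd.2.1
    refine ⟨fun i hi => hbd.2.2 i (by push Not at hi; exact hi), ?_, hlog⟩
    intro i i' hii hh
    apply hii
    apply hc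
    have e0 : ∀ k, L (χ k b / χ k a) =
        c k * (L (b : PadicAlgCl p) - L (a : PadicAlgCl p)) := by
      intro k
      have k0 := hχ0 k a ha.pos
      have k1 := hχ0 k b hb.pos
      rw [div_eq_mul_inv, hL.mul _ _ k1 (inv_ne_zero k0), hL.inv k0, hχL k _ ha.pos,
        hχL k _ hb.pos]
      ring
    have h1 := e0 i
    rw [hh, e0 i'] at h1
    exact (mul_right_cancel₀ (sub_ne_zero.mpr hlog) h1).symm
  · intro a b ha hb hinj hbd
    have h1 : ∀ i, a i ≠ p ∧ b i ≠ p := by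
      intro i
      have := hbd i
      unfold BdQ at this
      push Not at this
      exact ⟨this.1, this.2.1⟩
    exact ind3_padic hL a b ha hb hinj (fun i => (h1 i).1) (fun i => (h1 i).2)

end Pool.Agent.TH160.TowP
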