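import Pool.Agent.W254.Ab.Rel

/-!
# Kernels of relations with coefficients `1, P, Q, P Q`: abstract form

The files `Pool.Agent.TH160.Tow.Rank`, `Pool.Agent.TH160.Tow.Cube` for an arbitrary field `Ω` of
characteristic zero and a space `V` over its algebraic numbers with the hyperplane property.
-/

set_option autoImplicit false

namespace Pool.Agent.TH160.TowP

open Module Finset
open Pool.Agent.W254.Ab (QA mem_QA hyperplane')
open Pool.Agent.W254.PA (Hyp)

variable {Ω : Type*} [Field Ω] [CharZero Ω]

theorem V_mul {V : Submodule (QA Ω) Ω} {a z : Ω} (ha : IsAlgebraic ℚ a) (hz : z ∈ V) : a * z ∈ V := by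
  have h := V.smul_mem (⟨a, mem_QA.mpr ha⟩ : QA Ω) hz
  rw [Algebra.smul_def] at h
  exact h

theorem AD {a b : Ω} (ha : IsAlgebraic ℚ a) (hb : IsAlgebraic ℚ b) : IsAlgebraic ℚ (a / b) := by
  rw [div_eq_mul_inv]
  exact ha.mul hb.inv

/-- linear independence over the algebraic numbers of three complex numbers -/
def Ind3 (y0 y1 y2 : Ω) : Prop :=
  ∀ a c d : Ω, IsAlgebraic ℚ a → IsAlgebraic ℚ c → IsAlgebraic ℚ d →
      a * y0 + c * y1 + d * y2 = 0 → a = 0 ∧ c = 0 ∧ d = 0

theorem Ind3.smul {y0 y1 y2 : Ω} (h : Ind3 y0 y1 y2) {u : Ω} (hu : u ≠ 0) :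
    Ind3 (u * y0) (u * y1) (u * y2) := by
  intro a c d ha hc hd hs
  refine h a c d ha hc hd ?_
  apply mul_left_cancel₀ hu
  rw [mul_zero, ← hs]; ring

/-- either `1, P, Q` or `1, P, PQ` are independent when `P` and `Q` are transcendental -/
theorem square (P Q : Ω) (hP : Transcendental ℚ P) (hQ : Transcendental ℚ Q) :
    Ind3 1 P Q ∨ Ind3 1 P (P * Q) := by
  have one : ∀ a c : Ω, IsAlgebraic ℚ a → IsAlgebraic ℚ c → a + c * P = 0 → a = 0 ∧ c = 0 := by
    intro a c ha hc h
    by_cases hc0 : c = 0
    · subst hc0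
      exact ⟨by simpa using h, rfl⟩
    · exfalso
      apply hP
      have : P = -a / c := by
        field_simp
        linear_combination h
      rw [this]
      exact AD ha.neg hc
  by_contra hcon
  rw [not_or] at hcon
  obtain ⟨h1, h2⟩ := hcon
  unfold Ind3 at h1 h2
  push Not at h1 h2
  obtain ⟨a, c, d, ha, hc, hd, hs, hne⟩ := h1
  obtain ⟨a', c', d', ha', hc', hd', hs', hne'⟩ := h2
  have hd0 : d ≠ 0 := by
    intro hd0
    subst hd0
    obtain ⟨h3, h4⟩ := one a c ha hc (by linear_combination hs)
    exact hne h3 h4 rfl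
  have hd0' : d' ≠ 0 := by
    intro hd0
    subst hd0
    obtain ⟨h3, h4⟩ := one a' c' ha' hc' (by linear_combination hs')
    exact hne' h3 h4 rfl
  -- `Q = A + B P`, `P Q = C + D P`
  have e1 : Q = -a / d + (-c / d) * P := by
    field_simp
    linear_combination hs
  have e2 : P * Q = -a' / d' + (-c' / d') * P := by
    field_simp
    linear_combination hs'
  have hA : IsAlgebraic ℚ (-a / d) := AD ha.neg hd
  have hB : IsAlgebraic ℚ (-c / d) := AD hc.neg hd
  have hC : IsAlgebraic ℚ (-a' / d') := AD ha'.neg hd'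
  have hD : IsAlgebraic ℚ (-c' / d') := AD hc'.neg hd'
  set A := -a / d with hAe
  set B := -c / d with hBe
  set C := -a' / d' with hCe
  set D := -c' / d' with hDe
  have e3 : B * P ^ 2 + (A - D) * P - C = 0 := by
    rw [e1] at e2
    linear_combination e2
  have hB0 : B = 0 := by
    by_contra hB0
    apply hP
    have h5 : (2 * B * P + (A - D)) ^ 2 = (A - D) ^ 2 + 4 * B * C := by
      linear_combination 4 * B * e3
    have h2a : IsAlgebraic ℚ (2 : Ω) := by exact_mod_cast isAlgebraic_natCast 2
    have h4a : IsAlgebraic ℚ (4 : Ω) := by exact_mod_cast isAlgebraic_natCast 4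
    have h6 : IsAlgebraic ℚ ((2 * B * P + (A - D)) ^ 2) := by
      rw [h5]
      exact ((hA.sub hD).pow 2).add ((h4a.mul hB).mul hC)
    have h7 := h6.of_pow (by norm_num)
    have h8 : P = ((2 * B * P + (A - D)) - (A - D)) / (2 * B) := by
      field_simp
      ring
    rw [h8]
    exact AD (h7.sub (hA.sub hD)) (h2a.mul hB)
  apply hQ
  rw [e1, hB0, zero_mul, add_zero]
  exact hA

/-- a transcendental number does not stabilise a nonzero finite dimensional space -/
theorem not_stable {t : Ω} (ht : Transcendental ℚ t) (V : Submodule (QA Ω) Ω) (hV : V ≠ ⊥)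
    [FiniteDimensional (QA Ω) V] : ∃ v ∈ V, t * v ∉ V := by
  by_contra h
  push Not at h
  have h1 : IsIntegral (QA Ω) t :=
    isIntegral_of_smul_mem_submodule V hV (Module.Finite.iff_fg.mp inferInstance) t
      (fun n hn => by simpa using h n hn)
  haveI : Algebra.IsAlgebraic ℚ (QA Ω) := algebraicClosure.isAlgebraic ℚ Ω
  exact ht (h1.isAlgebraic.restrictScalars ℚ)

theorem exists_indep {ι : Type*} [DecidableEq ι] (t : ι → Ω) (ht : ∀ i, Transcendental ℚ (t i))
    (J : Finset ι) : ∃ S : Finset (Finset ι), (∀ s ∈ S, s ⊆ J) ∧ S.card = J.card + 1 ∧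
      LinearIndepOn (QA Ω) (fun s : Finset ι => ∏ i ∈ s, t i) (S : Set (Finset ι)) := by
  classical
  induction J using Finset.induction_on with
  | empty =>
    refine ⟨{∅}, by simp, by simp, ?_⟩
    rw [Finset.coe_singleton]
    rw [linearIndepOn_singleton_iff]
    simp
  | insert j J hj ih =>
    obtain ⟨S, hS, hc, hli⟩ := ih
    set V : Submodule (QA Ω) Ω :=
      Submodule.span (QA Ω) ((fun s : Finset ι => ∏ i ∈ s, t i) '' (S : Set (Finset ι))) with hVdef
    haveI : FiniteDimensional (QA Ω) V :=
      FiniteDimensional.span_of_finite (QA Ω) ((S.finite_toSet).image _)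
    have hV : V ≠ ⊥ := by
      intro h0
      have hne : S.Nonempty := by
        rw [← Finset.card_pos, hc]; omega
      obtain ⟨s, hs⟩ := hne
      have h1 : (∏ i ∈ s, t i) ∈ V := Submodule.subset_span ⟨s, hs, rfl⟩
      rw [h0, Submodule.mem_bot, Finset.prod_eq_zero_iff] at h1
      obtain ⟨i, -, hi⟩ := h1
      exact ht i (by rw [hi]; exact isAlgebraic_zero)
    obtain ⟨v, hv, hv'⟩ := not_stable (ht j) V hV
    have hex : ∃ s ∈ S, t j * ∏ i ∈ s, t i ∉ V := by
      by_contra hcon
      push Not at hcon
      apply hv'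
      refine Submodule.span_induction (p := fun v _ => t j * v ∈ V) ?_ ?_ ?_ ?_ hv
      · rintro _ ⟨s, hs, rfl⟩
        exact hcon s hs
      · rw [mul_zero]; exact V.zero_mem
      · intro x y _ _ hx hy
        rw [mul_add]; exact V.add_mem hx hy
      · intro a x _ hx
        rw [mul_smul_comm]; exact V.smul_mem a hx
    obtain ⟨s, hs, hsV⟩ := hex
    have hjs : j ∉ s := fun h => hj (hS s hs h)
    have hnew : insert j s ∉ S := fun h => hj (hS _ h (Finset.mem_insert_self j s))
    refine ⟨insert (insert j s) S, ?_, ?_, ?_⟩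
    · intro u hu
      rcases Finset.mem_insert.mp hu with h1 | h1
      · subst h1
        exact Finset.insert_subset_insert j (hS s hs)
      · exact (hS u h1).trans (Finset.subset_insert j J)
    · rw [Finset.card_insert_of_notMem hnew, hc, Finset.card_insert_of_notMem hj]
    · rw [Finset.coe_insert]
      refine hli.insert ?_
      rw [Finset.prod_insert hjs]
      exact hsV

variable {V : Submodule (QA Ω) Ω} (hV : Hyp V)

include hV in
theorem finrank_le {d : ℕ} (x : Fin d → Ω) (hx : LinearIndependent (QA Ω) x)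
    (W : Submodule (QA Ω) (Fin d → Ω)) [FiniteDimensional (QA Ω) W]
    (hW : ∀ w ∈ W, (∀ k, w k ∈ V) ∧ ∑ k, x k * w k = 0) : finrank (QA Ω) W ≤ d * (d - 1) := by
  let B := Module.finBasis (QA Ω) W
  have h := hyperplane' hV (κ := Fin (finrank (QA Ω) W)) d x (fun i j => (B j : Fin d → Ω) i) hx
    (fun i j => (hW _ (B j).2).1 i) (fun j => (hW _ (B j).2).2)
    (B.linearIndependent.map' W.subtype W.ker_subtype)
  simpa using h

include hV in
theorem ker_ge {d : ℕ} {S : Type*} [Fintype S] (x : Fin d → Ω) (hx : LinearIndependent (QA Ω) x)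
    (v : S → Fin d → Ω) (hv : ∀ s k, v s k ∈ V) (hxv : ∀ s, ∑ k, x k * v s k = 0) :
    Fintype.card S ≤ finrank (QA Ω) (LinearMap.ker (Fintype.linearCombination (QA Ω) v)) + d * (d - 1) := by
  classical
  have h1 := LinearMap.finrank_range_add_finrank_ker (Fintype.linearCombination (QA Ω) v)
  rw [Module.finrank_fintype_fun_eq_card] at h1
  have h2 : finrank (QA Ω) (LinearMap.range (Fintype.linearCombination (QA Ω) v)) ≤ d * (d - 1) := by
    refine finrank_le hV x hx _ ?_
    intro w hw
    rw [Fintype.range_linearCombination] at hw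
    refine Submodule.span_induction
      (p := fun w _ => (∀ k, w k ∈ V) ∧ ∑ k, x k * w k = 0) ?_ ?_ ?_ ?_ hw
    · rintro _ ⟨s, rfl⟩
      exact ⟨hv s, hxv s⟩
    · refine ⟨fun k => V.zero_mem, ?_⟩
      simp
    · rintro a b _ _ ⟨ha, ha'⟩ ⟨hb, hb'⟩
      refine ⟨fun k => V.add_mem (ha k) (hb k), ?_⟩
      have : ∑ k, x k * (a + b) k = ∑ k, x k * a k + ∑ k, x k * b k := by
        rw [← Finset.sum_add_distrib]
        exact Finset.sum_congr rfl fun k _ => by rw [Pi.add_apply, mul_add]
      rw [this, ha', hb', add_zero]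
    · rintro c a _ ⟨ha, ha'⟩
      refine ⟨fun k => V.smul_mem c (ha k), ?_⟩
      have : ∑ k, x k * (c • a) k = c • ∑ k, x k * a k := by
        rw [Finset.smul_sum]
        exact Finset.sum_congr rfl fun k _ => by rw [Pi.smul_apply, mul_smul_comm]
      rw [this, ha', smul_zero]
  omega

include hV in
/-- the kernel of a relation whose coefficients have rank at least three among four -/
theorem pair_ker {S : Type*} [Fintype S] (x : Fin 4 → Ω)
    (h3 : 3 ≤ finrank (QA Ω) (Submodule.span (QA Ω) (Set.range x)))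
    (v : S → Fin 4 → Ω) (hv : ∀ s k, v s k ∈ V) (hxv : ∀ s, ∑ k, x k * v s k = 0) :
    ∃ (ρ : Fin 4 → Ω) (K : Submodule (QA Ω) (S → (QA Ω))), (∀ k, IsAlgebraic ℚ (ρ k)) ∧
      Fintype.card S ≤ finrank (QA Ω) K + 12 ∧
      ∀ c ∈ K, ∃ φ : Ω, ∀ k, ∑ s, (c s : Ω) * v s k = φ * ρ k := by
  classical
  by_cases hx : LinearIndependent (QA Ω) x
  · refine ⟨fun _ => 0, LinearMap.ker (Fintype.linearCombination (QA Ω) v), fun _ => isAlgebraic_zero,
      ker_ge hV x hx v hv hxv, fun c hc => ⟨0, fun k => ?_⟩⟩
    rw [LinearMap.mem_ker, Fintype.linearCombination_apply] at hc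
    have h1 := congrFun hc k
    rw [Finset.sum_apply] at h1
    rw [mul_zero]
    rw [Pi.zero_apply] at h1
    rw [← h1]
    apply Finset.sum_congr rfl
    intro s _
    rw [Pi.smul_apply, Algebra.smul_def]
    rfl
  · rw [Fintype.not_linearIndependent_iff] at hx
    obtain ⟨g, hg, m, hm⟩ := hx
    have hmC : (g m : Ω) ≠ 0 := by
      intro h; exact hm (Subtype.ext h)
    have hgC : ∑ k, (g k : Ω) * x k = 0 := by
      rw [← hg]
      exact Finset.sum_congr rfl fun k _ => by rw [Algebra.smul_def]; rfl
    have hgA : ∀ k, IsAlgebraic ℚ (g k : Ω) := fun k => mem_QA.mp (g k).2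
    set x' : Fin 3 → Ω := fun k => x (m.succAbove k) with hx'
    have hspan : Submodule.span (QA Ω) (Set.range x) ≤ Submodule.span (QA Ω) (Set.range x') := by
      rw [Submodule.span_le]
      rintro _ ⟨k, rfl⟩
      by_cases hk : k = m
      · subst hk
        have e1 : x k = ∑ i : Fin 3, (-(g (k.succAbove i)) / g k) • x' i := by
          rw [Fin.sum_univ_succAbove _ k] at hgC
          have e2 : ∑ i : Fin 3, (-(g (k.succAbove i)) / g k) • x' i =
              -(∑ i : Fin 3, (g (k.succAbove i) : Ω) * x (k.succAbove i)) / (g k : Ω) := by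
            rw [← Finset.sum_neg_distrib, Finset.sum_div]
            apply Finset.sum_congr rfl
            intro i _
            rw [Algebra.smul_def, hx']
            change ((-(g (k.succAbove i)) / g k : (QA Ω)) : Ω) * _ = _
            push_cast
            ring
          rw [e2, eq_div_iff hmC]
          linear_combination hgC
        rw [e1]
        exact Submodule.sum_mem _ fun i _ =>
          Submodule.smul_mem _ _ (Submodule.subset_span ⟨i, rfl⟩)
      · obtain ⟨i, hi⟩ := Fin.exists_succAbove_eq hk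
        rw [← hi]
        exact Submodule.subset_span ⟨i, rfl⟩
    have hx'i : LinearIndependent (QA Ω) x' := by
      rw [linearIndependent_iff_card_le_finrank_span]
      haveI : FiniteDimensional (QA Ω) (Submodule.span (QA Ω) (Set.range x')) :=
        FiniteDimensional.span_of_finite (QA Ω) (Set.finite_range _)
      have := Submodule.finrank_mono hspan
      simp only [Fintype.card_fin]
      exact h3.trans this
    set v' : S → Fin 3 → Ω := fun s k =>
      v s (m.succAbove k) - ((g (m.succAbove k) : Ω) / (g m : Ω)) * v s m with hv'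
    have hv'L : ∀ s k, v' s k ∈ V := fun s k =>
      V.sub_mem (hv s _) (V_mul (AD (hgA _) (hgA m)) (hv s m))
    have hxv' : ∀ s, ∑ k, x' k * v' s k = 0 := by
      intro s
      have e1 := hxv s
      rw [Fin.sum_univ_succAbove _ m] at e1
      rw [Fin.sum_univ_succAbove _ m] at hgC
      have e2 : ∑ k, x' k * v' s k = ∑ i : Fin 3, x (m.succAbove i) * v s (m.succAbove i) -
          (v s m / (g m : Ω)) * ∑ i : Fin 3, (g (m.succAbove i) : Ω) * x (m.succAbove i) := by
        rw [Finset.mul_sum, ← Finset.sum_sub_distrib]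
        apply Finset.sum_congr rfl
        intro i _
        simp only [hx', hv']
        ring
      rw [e2]
      have e3 : ∑ i : Fin 3, (g (m.succAbove i) : Ω) * x (m.succAbove i) = - ((g m : Ω) * x m) := by
        linear_combination hgC
      rw [e3]
      have e4 : (v s m / (g m : Ω)) * -((g m : Ω) * x m) = -(x m * v s m) := by
        field_simp
      rw [e4]
      linear_combination e1
    refine ⟨fun k => (g k : Ω), LinearMap.ker (Fintype.linearCombination (QA Ω) v'), hgA, ?_,
      fun c hc => ?_⟩
    · have := ker_ge hV x' hx'i v' hv'L hxv'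
      omega
    · rw [LinearMap.mem_ker, Fintype.linearCombination_apply] at hc
      refine ⟨(∑ s, (c s : Ω) * v s m) / (g m : Ω), fun k => ?_⟩
      by_cases hk : k = m
      · subst hk
        rw [div_mul_cancel₀ _ hmC]
      · obtain ⟨i, hi⟩ := Fin.exists_succAbove_eq hk
        have h1 := congrFun hc i
        rw [Finset.sum_apply, Pi.zero_apply] at h1
        have h2 : ∑ s, (c s : Ω) * v s (m.succAbove i) -
            ((g (m.succAbove i) : Ω) / (g m : Ω)) * ∑ s, (c s : Ω) * v s m = 0 := by
          rw [← h1, Finset.mul_sum, ← Finset.sum_sub_distrib]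
          apply Finset.sum_congr rfl
          intro s _
          rw [Pi.smul_apply, Algebra.smul_def]
          simp only [hv']
          change _ = (c s : Ω) * _
          ring
        rw [← hi]
        linear_combination h2

end Pool.Agent.TH160.TowP
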