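import Pool.Agent.TH160.TowP.Coef

/-!
# Spaces without algebraic points contain few linear forms
-/

set_option autoImplicit false

namespace Pool.Agent.TH160.TowP

open Module Finset Polynomial
open Pool.Agent.W254.Ab (QA mem_QA hyperplane')
open Pool.Agent.W254.PA (Hyp)

variable {Ω : Type*} [Field Ω] [CharZero Ω] {V : Submodule (QA Ω) Ω} (hV : Hyp V)

include hV in
theorem range_le {d : ℕ} {S : Type*} [Fintype S] (x : Fin d → Ω) (hx : LinearIndependent (QA Ω) x)
    (v : S → Fin d → Ω) (hv : ∀ s k, v s k ∈ V) (hxv : ∀ s, ∑ k, x k * v s k = 0) :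
    finrank (QA Ω) (LinearMap.range (Fintype.linearCombination (QA Ω) v)) ≤ d * (d - 1) := by
  classical
  have h1 := LinearMap.finrank_range_add_finrank_ker (Fintype.linearCombination (QA Ω) v)
  rw [Module.finrank_fintype_fun_eq_card] at h1
  have h2 := ker_ge hV x hx v hv hxv
  omega

/-- coordinates over the algebraic numbers -/
theorem exists_coord {I : Type*} [Fintype I] (a : I → Ω) :
    ∃ (ρ : ℕ) (e : Fin ρ → Ω) (M : I → Fin ρ → QA Ω), ρ ≤ Fintype.card I ∧
      LinearIndependent (QA Ω) e ∧ ∀ i, a i = ∑ m, (M i m : Ω) * e m := by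
  classical
  set A : Submodule (QA Ω) Ω := Submodule.span (QA Ω) (Set.range a) with hA
  haveI : FiniteDimensional (QA Ω) A := FiniteDimensional.span_of_finite (QA Ω) (Set.finite_range _)
  let b := Module.finBasis (QA Ω) A
  have hm : ∀ i, a i ∈ A := fun i => Submodule.subset_span ⟨i, rfl⟩
  refine ⟨finrank (QA Ω) A, fun m => (b m : Ω), fun i m => b.repr ⟨a i, hm i⟩ m, ?_, ?_, ?_⟩
  · exact finrank_range_le_card a
  · exact b.linearIndependent.map' A.subtype A.ker_subtype
  · intro i
    have h := b.sum_repr ⟨a i, hm i⟩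
    have h2 := congrArg (fun z : A => (z : Ω)) h
    simp only [Submodule.coe_sum, Submodule.coe_smul] at h2
    rw [← h2]
    apply Finset.sum_congr rfl
    intro m _
    rw [Algebra.smul_def]
    rfl

include hV in
/-- **Rank bound.** -/
theorem rank_bound {I S : Type} [Fintype I] [Fintype S] (𝓕 : Submodule Ω (I → Ω))
    (h0 : ∀ f ∈ 𝓕, (∀ k, IsAlgebraic ℚ (f k)) → f = 0) (v : S → I → Ω) (hvV : ∀ s k, v s k ∈ V)
    (hvF : ∀ s, v s ∈ 𝓕) (hli : LinearIndependent (QA Ω) v) :
    Fintype.card S ≤ Fintype.card I ^ 3 := by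
  classical
  -- equations of `𝓕`
  obtain ⟨R, g, hR, hg⟩ : ∃ (R : ℕ) (g : (I → Ω) →ₗ[Ω] (Fin R → Ω)), R ≤ Fintype.card I ∧
      ∀ f, g f = 0 ↔ f ∈ 𝓕 := by
    let b := Module.finBasis Ω ((I → Ω) ⧸ 𝓕)
    refine ⟨finrank Ω ((I → Ω) ⧸ 𝓕), b.equivFun.toLinearMap ∘ₗ 𝓕.mkQ, ?_, ?_⟩
    · have := Submodule.finrank_quotient_le 𝓕
      rwa [Module.finrank_fintype_fun_eq_card] at this
    · intro f
      rw [LinearMap.comp_apply, LinearEquiv.coe_coe, LinearEquiv.map_eq_zero_iff,
        Submodule.mkQ_apply, Submodule.Quotient.mk_eq_zero]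
  set x : Fin R → I → Ω := fun j i => g (Pi.single i 1) j with hx
  have hgx : ∀ f j, g f j = ∑ i, f i * x j i := by
    intro f j
    have h1 : f = ∑ i, f i • (Pi.single i (1 : Ω) : I → Ω) := by
      funext k
      rw [Finset.sum_apply]
      simp [Pi.single_apply]
    conv_lhs => rw [h1]
    rw [map_sum, Finset.sum_apply]
    apply Finset.sum_congr rfl
    intro i _
    rw [map_smul, Pi.smul_apply, smul_eq_mul]
  choose ρ e M hρ he hM using fun j => exists_coord (x j)
  set w : (j : Fin R) → S → Fin (ρ j) → Ω := fun j s m => ∑ i, (M j i m : Ω) * v s i with hw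
  have hwV : ∀ j s m, w j s m ∈ V := fun j s m =>
    V.sum_mem fun i _ => V_mul (mem_QA.mp (M j i m).2) (hvV s i)
  have hwx : ∀ j s, ∑ m, e j m * w j s m = 0 := by
    intro j s
    have h1 := hgx (v s) j
    rw [(hg (v s)).mpr (hvF s), Pi.zero_apply] at h1
    rw [h1]
    simp only [hw, Finset.mul_sum]
    rw [Finset.sum_comm]
    apply Finset.sum_congr rfl
    intro i _
    rw [hM j i, Finset.mul_sum]
    apply Finset.sum_congr rfl
    intro m _
    ring
  have hrk : ∀ j, finrank (QA Ω) (LinearMap.range (Fintype.linearCombination (QA Ω) (w j))) ≤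
      ρ j * (ρ j - 1) := fun j => range_le hV (e j) (he j) (w j) (hwV j) (hwx j)
  let Φ : (S → QA Ω) →ₗ[QA Ω]
      ((j : Fin R) → LinearMap.range (Fintype.linearCombination (QA Ω) (w j))) :=
    LinearMap.pi (fun j => LinearMap.rangeRestrict (Fintype.linearCombination (QA Ω) (w j)))
  have hinj : Function.Injective Φ := by
    rw [← LinearMap.ker_eq_bot, LinearMap.ker_eq_bot']
    intro c hc
    have hc' : ∀ j m, ∑ s, (c s : Ω) * w j s m = 0 := by
      intro j m
      have h1 := congrFun hc j
      have h2 := congrArg (fun z : LinearMap.range (Fintype.linearCombination (QA Ω) (w j)) =>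
        (z : Fin (ρ j) → Ω) m) h1
      have h3 : (Fintype.linearCombination (QA Ω) (w j) c) m = 0 := h2
      rw [Fintype.linearCombination_apply, Finset.sum_apply] at h3
      rw [← h3]
      apply Finset.sum_congr rfl
      intro s _
      rw [Pi.smul_apply, Algebra.smul_def]
      rfl
    set a : I → Ω := fun i => ∑ s, (c s : Ω) * v s i with ha
    have hMa : ∀ j m, ∑ i, (M j i m : Ω) * a i = 0 := by
      intro j m
      rw [← hc' j m]
      simp only [ha, hw, Finset.mul_sum]
      rw [Finset.sum_comm]
      apply Finset.sum_congr rfl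
      intro s _
      apply Finset.sum_congr rfl
      intro i _
      ring
    obtain ⟨τ, b, α, -, hb, hα⟩ := exists_coord a
    have hcoef : ∀ j m n, ∑ i, M j i m * α i n = 0 := by
      intro j m
      have h1 : ∑ n, (∑ i, M j i m * α i n) • b n = 0 := by
        rw [← hMa j m]
        have h2 : ∀ n, (∑ i, M j i m * α i n) • b n = ∑ i, (M j i m : Ω) * ((α i n : Ω) * b n) := by
          intro n
          rw [Algebra.smul_def]
          change ((∑ i, M j i m * α i n : QA Ω) : Ω) * b n = _
          push_cast
          rw [Finset.sum_mul]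
          apply Finset.sum_congr rfl
          intro i _
          ring
        simp only [h2]
        rw [Finset.sum_comm]
        apply Finset.sum_congr rfl
        intro i _
        rw [hα i, Finset.mul_sum]
      exact fun n => Fintype.linearIndependent_iff.mp hb _ h1 n
    have hf : ∀ n, (fun i => (α i n : Ω)) = 0 := by
      intro n
      refine h0 _ ((hg _).mp ?_) (fun k => mem_QA.mp (α k n).2)
      funext j
      rw [hgx, Pi.zero_apply]
      have h1 : ∀ i, (α i n : Ω) * x j i = ∑ m, ((M j i m * α i n : QA Ω) : Ω) * e j m := by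
        intro i
        rw [hM j i, Finset.mul_sum]
        apply Finset.sum_congr rfl
        intro m _
        push_cast
        ring
      simp only [h1]
      rw [Finset.sum_comm]
      apply Finset.sum_eq_zero
      intro m _
      rw [← Finset.sum_mul]
      have h2 := congrArg (fun z : QA Ω => (z : Ω)) (hcoef j m n)
      push_cast at h2
      push_cast
      rw [h2, zero_mul]
    have ha0 : ∀ i, a i = 0 := by
      intro i
      rw [hα i]
      apply Finset.sum_eq_zero
      intro n _
      have := congrFun (hf n) i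
      simp only [Pi.zero_apply] at this
      rw [this, zero_mul]
    have h3 : ∑ s, c s • v s = 0 := by
      funext i
      rw [Finset.sum_apply, Pi.zero_apply, ← ha0 i]
      apply Finset.sum_congr rfl
      intro s _
      rw [Pi.smul_apply, Algebra.smul_def]
      rfl
    funext s
    exact Fintype.linearIndependent_iff.mp hli c h3 s
  have h1 := LinearMap.finrank_le_finrank_of_injective hinj
  rw [Module.finrank_fintype_fun_eq_card, Module.finrank_pi_fintype] at h1
  refine h1.trans ?_
  have h2 : ∀ j, finrank (QA Ω) (LinearMap.range (Fintype.linearCombination (QA Ω) (w j))) ≤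
      Fintype.card I ^ 2 := by
    intro j
    refine (hrk j).trans ?_
    calc ρ j * (ρ j - 1) ≤ Fintype.card I * Fintype.card I :=
          Nat.mul_le_mul (hρ j) ((Nat.sub_le _ _).trans (hρ j))
      _ = Fintype.card I ^ 2 := by ring
  calc ∑ j, finrank (QA Ω) (LinearMap.range (Fintype.linearCombination (QA Ω) (w j)))
      ≤ ∑ _j : Fin R, Fintype.card I ^ 2 := Finset.sum_le_sum fun j _ => h2 j
    _ = R * Fintype.card I ^ 2 := by simp
    _ ≤ Fintype.card I * Fintype.card I ^ 2 := Nat.mul_le_mul_right _ hR
    _ = Fintype.card I ^ 3 := by ring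

end Pool.Agent.TH160.TowP
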